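import Pool.Agent.H.MP_1b807b_an.U.DefsU

/-! MP_1b807b_an, universal bound, module ShellDom: spherical shells as domains -/

set_option autoImplicit false

namespace Pool.Agent.RU

open MeasureTheory Metric Set Filter Pool.Agent.RG
open scoped RealInnerProductSpace Topology NNReal ENNReal

variable {n : ℕ}

private theorem shelldom_conn (hn : 2 ≤ n) {r₁ r₂ : ℝ} (h1 : 0 < r₁) (h12 : r₁ < r₂) :
    IsConnected {x : E n | r₁ < ‖x‖ ∧ ‖x‖ < r₂} := by
  have h : {x : E n | r₁ < ‖x‖ ∧ ‖x‖ < r₂} =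
      (fun p : ℝ × E n => p.1 • p.2) '' (Ioo r₁ r₂ ×ˢ sphere (0 : E n) 1) := by
    ext x
    constructor
    · intro hx
      have hpos : 0 < ‖x‖ := h1.trans hx.1
      refine ⟨(‖x‖, ‖x‖⁻¹ • x), ⟨hx, ?_⟩, ?_⟩
      · rw [mem_sphere_zero_iff_norm, norm_smul, norm_inv, norm_norm, inv_mul_cancel₀ hpos.ne']
      · show ‖x‖ • ‖x‖⁻¹ • x = x
        rw [smul_smul, mul_inv_cancel₀ hpos.ne', one_smul]
    · rintro ⟨⟨r, ω⟩, ⟨hr, hω⟩, rfl⟩
      have hr' : r₁ < r ∧ r < r₂ := hr
      have hω' : ‖ω‖ = 1 := mem_sphere_zero_iff_norm.1 hω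
      have hn : ‖r • ω‖ = r := by
        rw [norm_smul, hω', mul_one, Real.norm_of_nonneg (h1.trans hr'.1).le]
      show r₁ < ‖r • ω‖ ∧ ‖r • ω‖ < r₂
      rw [hn]
      exact hr'
  have hrank : 1 < Module.rank ℝ (E n) := by
    rw [← Module.finrank_eq_rank, finrank_euclideanSpace_fin]
    exact_mod_cast hn
  rw [h]
  refine IsConnected.image ?_ _ ?_
  · exact (isConnected_Ioo h12).prod (isConnected_sphere hrank 0 zero_le_one)
  · exact (continuous_fst.smul continuous_snd).continuousOn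

private theorem shelldom_frontier {r₁ r₂ : ℝ} (h1 : 0 < r₁) (h12 : r₁ < r₂)
    (ho : IsOpen {x : E n | r₁ < ‖x‖ ∧ ‖x‖ < r₂}) {x : E n} (hx : ‖x‖ = r₁ ∨ ‖x‖ = r₂) :
    x ∈ frontier {x : E n | r₁ < ‖x‖ ∧ ‖x‖ < r₂} := by
  rw [ho.frontier_eq]
  refine ⟨?_, ?_⟩
  · have hpos : 0 < ‖x‖ := by rcases hx with hx | hx <;> rw [hx] <;> linarith
    have hc : Filter.Tendsto (fun t : ℝ => t • x) (𝓝 1) (𝓝 x) := by
      have h2 : Continuous fun t : ℝ => t • x := by fun_prop
      have h3 := h2.tendsto 1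
      rwa [one_smul] at h3
    have hnorm : ∀ t : ℝ, 0 < t → ‖t • x‖ = t * ‖x‖ := fun t ht => by
      rw [norm_smul, Real.norm_of_nonneg ht.le]
    rcases hx with hx | hx
    · have hc' := hc.mono_left (nhdsWithin_le_nhds (s := Ioi (1 : ℝ)))
      refine mem_closure_of_tendsto hc' ?_
      have h4 : Ioo (1 : ℝ) (r₂ / r₁) ∈ 𝓝[>] (1 : ℝ) :=
        Ioo_mem_nhdsGT ((one_lt_div h1).2 h12)
      filter_upwards [h4] with t ht
      show r₁ < ‖t • x‖ ∧ ‖t • x‖ < r₂
      rw [hnorm t (by linarith [ht.1]), hx]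
      refine ⟨by nlinarith [ht.1], ?_⟩
      exact (lt_div_iff₀ h1).1 ht.2
    · have hc' := hc.mono_left (nhdsWithin_le_nhds (s := Iio (1 : ℝ)))
      refine mem_closure_of_tendsto hc' ?_
      have h2 : 0 < r₂ := h1.trans h12
      have h4 : Ioo (r₁ / r₂) (1 : ℝ) ∈ 𝓝[<] (1 : ℝ) :=
        Ioo_mem_nhdsLT ((div_lt_one h2).2 h12)
      filter_upwards [h4] with t ht
      show r₁ < ‖t • x‖ ∧ ‖t • x‖ < r₂
      have ht0 : 0 < t := lt_trans (div_pos h1 h2) ht.1
      rw [hnorm t ht0, hx]
      refine ⟨(div_lt_iff₀ h2).1 ht.1, by nlinarith [ht.2]⟩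
  · rintro ⟨h3, h4⟩
    rcases hx with hx | hx <;> linarith

private theorem shelldom_ae {R : ℝ} (hR : 0 < R) : ∀ᵐ x ∂(sphereMeasure n R), ‖x‖ = R := by
  rw [ae_iff]
  refine measure_mono_null ?_ (sphereMeasure_support n hR)
  intro x hx hx'
  exact hx (mem_sphere_zero_iff_norm.1 hx')

private theorem shelldom_divg_cont {X : E n → E n} (hX : ContDiff ℝ 1 X) : Continuous (divg X) := by
  unfold divg tr
  refine continuous_finsetSum _ fun i _ => ?_
  exact (EuclideanSpace.proj i : E n →L[ℝ] ℝ).continuous.comp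
    ((hX.continuous_fderiv one_ne_zero).clm_apply continuous_const)

private theorem shelldom_int {R : ℝ} (hR : 0 < R) {f : E n → ℝ} (hf : Continuous f) :
    Integrable f (sphereMeasure n R) := by
  haveI := sphereMeasure_finite n R
  obtain ⟨C, hC⟩ := (isCompact_sphere (0 : E n) R).exists_bound_of_continuousOn hf.continuousOn
  refine Integrable.mono' (integrable_const C) hf.aestronglyMeasurable ?_
  filter_upwards [shelldom_ae hR] with x hx
  exact hC x (mem_sphere_zero_iff_norm.2 hx)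

private theorem shelldom_vol (hn : 2 ≤ n) {r₁ r₂ : ℝ} (h1 : 0 < r₁) (h12 : r₁ < r₂) {f : E n → ℝ}
    (hf : Continuous f) : ∫ x in {x : E n | r₁ < ‖x‖ ∧ ‖x‖ < r₂}, f x =
      (∫ x in ball (0 : E n) r₂, f x) - ∫ x in ball (0 : E n) r₁, f x := by
  have hi : IntegrableOn f (closedBall (0 : E n) r₂) :=
    hf.continuousOn.integrableOn_compact (isCompact_closedBall _ _)
  have hu : ball (0 : E n) r₂ = {x : E n | r₁ < ‖x‖ ∧ ‖x‖ < r₂} ∪ closedBall (0 : E n) r₁ := by
    ext x
    rw [mem_ball_zero_iff, mem_union, mem_closedBall_zero_iff]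
    constructor
    · intro h
      rcases lt_or_ge r₁ ‖x‖ with h3 | h3
      · exact Or.inl ⟨h3, h⟩
      · exact Or.inr h3
    · rintro (h | h)
      · exact h.2
      · linarith
  have hd : Disjoint {x : E n | r₁ < ‖x‖ ∧ ‖x‖ < r₂} (closedBall (0 : E n) r₁) := by
    rw [Set.disjoint_left]
    rintro x ⟨h3, -⟩ h4
    rw [mem_closedBall_zero_iff] at h4
    linarith
  have hs1 : {x : E n | r₁ < ‖x‖ ∧ ‖x‖ < r₂} ⊆ closedBall (0 : E n) r₂ := fun x hx => by
    rw [mem_closedBall_zero_iff]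
    exact hx.2.le
  have h3 := setIntegral_union hd measurableSet_closedBall (hi.mono_set hs1)
    (hi.mono_set (closedBall_subset_closedBall h12.le))
  have h4 : ∫ x in closedBall (0 : E n) r₁, f x = ∫ x in ball (0 : E n) r₁, f x := by
    apply setIntegral_congr_set
    rw [← ball_union_sphere]
    have h5 : (sphere (0 : E n) r₁ : Set (E n)) =ᵐ[volume] (∅ : Set (E n)) :=
      ae_eq_empty.2 (Measure.addHaar_sphere_of_ne_zero volume (0 : E n) h1.ne')
    have h6 := (Filter.EventuallyEq.refl (ae (volume : Measure (E n)))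
      (ball (0 : E n) r₁)).union h5
    rwa [union_empty] at h6
  rw [hu, h3, h4]
  ring

/-- PROOF: as `exists_ring` in `A/RingB.lean` (there `n = 2`): the divergence theorem is the difference
of `gauss_ball` for the two radii; connectedness: the image of the sphere (connected for `n ≥ 2`) times
an interval. -/
theorem exists_shell (hn : 2 ≤ n) {r₁ r₂ : ℝ} (h1 : 0 < r₁) (h12 : r₁ < r₂) : ∃ D : Domain n,
    D.carrier = {x : E n | r₁ < ‖x‖ ∧ ‖x‖ < r₂} ∧
    D.surface = sphereMeasure n r₂ + sphereMeasure n r₁ ∧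
    (∀ x, ‖x‖ = r₂ → D.normal x = r₂⁻¹ • x) ∧ (∀ x, ‖x‖ = r₁ → D.normal x = -(r₁⁻¹ • x)) := by
  classical
  have h2 : 0 < r₂ := h1.trans h12
  have ho : IsOpen {x : E n | r₁ < ‖x‖ ∧ ‖x‖ < r₂} :=
    (isOpen_lt continuous_const continuous_norm).inter (isOpen_lt continuous_norm continuous_const)
  haveI f1 := sphereMeasure_finite n r₁
  haveI f2 := sphereMeasure_finite n r₂
  set N : E n → E n := fun x => if ‖x‖ < (r₁ + r₂) / 2 then -(r₁⁻¹ • x) else r₂⁻¹ • x with hN
  have hN2 : ∀ x, ‖x‖ = r₂ → N x = r₂⁻¹ • x := fun x hx => by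
    rw [hN]
    exact if_neg (by rw [hx]; linarith)
  have hN1 : ∀ x, ‖x‖ = r₁ → N x = -(r₁⁻¹ • x) := fun x hx => by
    rw [hN]
    exact if_pos (by rw [hx]; linarith)
  refine ⟨{ carrier := {x : E n | r₁ < ‖x‖ ∧ ‖x‖ < r₂}
            isOpen := ho
            isConnected := shelldom_conn hn h1 h12
            isBounded := (isBounded_ball (x := (0 : E n)) (r := r₂)).subset fun x hx => by
              rw [mem_ball_zero_iff]
              exact hx.2
            surface := sphereMeasure n r₂ + sphereMeasure n r₁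
            isFinite := inferInstance
            support := ?_
            normal := N
            measurable_normal := ?_
            norm_normal := ?_
            divergence := ?_ }, rfl, rfl, hN2, hN1⟩
  · rw [Measure.add_apply, add_eq_zero]
    constructor
    · refine measure_mono_null (compl_subset_compl.2 fun x hx => ?_)
        (sphereMeasure_support n h2)
      exact shelldom_frontier h1 h12 ho (Or.inr (mem_sphere_zero_iff_norm.1 hx))
    · refine measure_mono_null (compl_subset_compl.2 fun x hx => ?_)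
        (sphereMeasure_support n h1)
      exact shelldom_frontier h1 h12 ho (Or.inl (mem_sphere_zero_iff_norm.1 hx))
  · refine Measurable.ite (measurableSet_lt measurable_norm measurable_const) ?_ ?_
    · fun_prop
    · fun_prop
  · rw [ae_add_measure_iff]
    constructor
    · filter_upwards [shelldom_ae h2] with x hx
      rw [hN2 x hx, norm_smul, hx, Real.norm_of_nonneg (inv_nonneg.2 h2.le),
        inv_mul_cancel₀ h2.ne']
    · filter_upwards [shelldom_ae h1] with x hx
      rw [hN1 x hx, norm_neg, norm_smul, hx, Real.norm_of_nonneg (inv_nonneg.2 h1.le),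
        inv_mul_cancel₀ h1.ne']
  · intro X hX
    have c2 : Continuous fun x : E n => ⟪X x, r₂⁻¹ • x⟫ :=
      hX.continuous.inner (continuous_const_smul _)
    have c1 : Continuous fun x : E n => ⟪X x, r₁⁻¹ • x⟫ :=
      hX.continuous.inner (continuous_const_smul _)
    have e2 : (fun x => ⟪X x, N x⟫) =ᵐ[sphereMeasure n r₂] fun x => ⟪X x, r₂⁻¹ • x⟫ := by
      filter_upwards [shelldom_ae h2] with x hx
      rw [hN2 x hx]
    have e1 : (fun x => ⟪X x, N x⟫) =ᵐ[sphereMeasure n r₁] fun x => -⟪X x, r₁⁻¹ • x⟫ := by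
      filter_upwards [shelldom_ae h1] with x hx
      rw [hN1 x hx, inner_neg_right]
    rw [shelldom_vol hn h1 h12 (shelldom_divg_cont hX), gauss_ball (by omega) h2 hX,
      gauss_ball (by omega) h1 hX,
      integral_add_measure ((shelldom_int h2 c2).congr e2.symm)
        ((shelldom_int h1 c1).neg.congr e1.symm), integral_congr_ae e2, integral_congr_ae e1,
      integral_neg]
    ring

/-- PROOF: `Measure.addHaar_real_ball`, `addHaar_closedBall`. -/
theorem shell_vol (hn : 2 ≤ n) {r₁ r₂ : ℝ} (h1 : 0 < r₁) (h12 : r₁ < r₂) :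
    volume.real {x : E n | r₁ < ‖x‖ ∧ ‖x‖ < r₂} =
      volume.real (ball (0 : E n) 1) * (r₂ ^ n - r₁ ^ n) := by
  have h2 : 0 < r₂ := h1.trans h12
  have h3 := shelldom_vol hn h1 h12 (f := fun _ : E n => (1 : ℝ)) continuous_const
  have hb : ∀ r : ℝ, 0 < r → volume.real (ball (0 : E n) r) =
      r ^ n * volume.real (ball (0 : E n) 1) := by
    intro r hr
    have h4 := Measure.addHaar_ball_of_pos (volume : Measure (E n)) (0 : E n) hr
    rw [measureReal_def, h4, ENNReal.toReal_mul, ENNReal.toReal_ofReal (by positivity),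
      finrank_euclideanSpace_fin, ← measureReal_def]
  simp only [integral_const, smul_eq_mul, mul_one, measureReal_restrict_apply_univ] at h3
  rw [h3, hb r₂ h2, hb r₁ h1]
  ring

end Pool.Agent.RU
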