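import Pool.Agent.H.MP_1b807b_an.U.DefsU

/-! MP_1b807b_an, universal bound, module MeasQ: measurability of the quadratic form of the inverse -/

set_option autoImplicit false

namespace Pool.Agent.RU

open MeasureTheory Metric Set Filter Pool.Agent.RG
open scoped RealInnerProductSpace Topology NNReal ENNReal

variable {n : ℕ}

theorem measq_inverse : Measurable (ContinuousLinearMap.inverse : (E n →L[ℝ] E n) → (E n →L[ℝ] E n)) := by
  classical
  have h1 : (ContinuousLinearMap.inverse : (E n →L[ℝ] E n) → (E n →L[ℝ] E n)) =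
      {A : E n →L[ℝ] E n | IsUnit A}.piecewise Ring.inverse (fun _ => 0) := by
    funext A
    rw [← ContinuousLinearMap.ringInverse_eq_inverse]
    by_cases hA : IsUnit A
    · rw [Set.piecewise_eq_of_mem _ _ _ (show A ∈ {A : E n →L[ℝ] E n | IsUnit A} from hA)]
    · rw [Set.piecewise_eq_of_notMem _ _ _ (show A ∉ {A : E n →L[ℝ] E n | IsUnit A} from hA)]
      exact Ring.inverse_non_unit A hA
  rw [h1]
  refine ContinuousOn.measurable_piecewise ?_ continuousOn_const Units.isOpen.measurableSet
  intro A hA
  obtain ⟨u, rfl⟩ := hA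
  exact (NormedRing.inverse_continuousAt u).continuousWithinAt

/-- PROOF: `fderiv ℝ T` is measurable (`measurable_fderiv`), `ContinuousLinearMap.inverse` is
continuous on the open set of the maps with nonzero determinant and zero elsewhere. -/
theorem measurable_QQ (T : E n → E n) (hT : Continuous T) : Measurable (QQ T) := by
  have h1 : Measurable fun x => (fderiv ℝ T x).inverse := measq_inverse.comp (measurable_fderiv ℝ T)
  have h2 : Measurable fun p : (E n →L[ℝ] E n) × E n => p.1 p.2 :=
    isBoundedBilinearMap_apply.continuous.measurable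
  have h3 : Measurable fun x => (fderiv ℝ T x).inverse (T x) :=
    h2.comp (h1.prodMk hT.measurable)
  exact h3.inner hT.measurable

/-- PROOF: `measurableSet_of_differentiableAt`, continuity of the determinant. -/
theorem measurableSet_good {A : Set (E n)} (hA : MeasurableSet A) (T : E n → E n) :
    MeasurableSet (good A T) := by
  refine hA.inter ((measurableSet_of_differentiableAt ℝ T).inter ?_)
  have h1 : Measurable fun x => (fderiv ℝ T x).det :=
    ContinuousLinearMap.continuous_det.measurable.comp (measurable_fderiv ℝ T)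
  exact (measurableSet_singleton (0 : ℝ)).compl.preimage h1

/-- PROOF: `S = DT(x)` is symmetric and nonnegative with `det ≠ 0`, so positive definite; with
`w = S⁻¹ T x`, `⟨w, T x⟩ = ⟨w, S w⟩ ≥ 0`. -/
theorem QQ_nonneg {R K L : ℝ} {f : E n → ℝ} {Ω A : Set (E n)} {T : E n → E n} {φ : E n → ℝ}
    (h : IsTD n R K L f Ω A T φ) {x : E n} (hx : x ∈ good A T) : 0 ≤ QQ T x := by
  obtain ⟨-, hd, hdet⟩ := hx
  have hd' : DifferentiableAt ℝ T x := hd
  have hdet' : (fderiv ℝ T x).det ≠ 0 := hdet
  obtain ⟨e, he⟩ : ∃ e : E n ≃L[ℝ] E n, (e : E n →L[ℝ] E n) = fderiv ℝ T x :=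
    ⟨(fderiv ℝ T x).toContinuousLinearEquivOfDetNeZero hdet',
      (fderiv ℝ T x).coe_toContinuousLinearEquivOfDetNeZero hdet'⟩
  have h1 := h.nonneg x hd' ((fderiv ℝ T x).inverse (T x))
  have h2 : fderiv ℝ T x ((fderiv ℝ T x).inverse (T x)) = T x := by
    rw [← he, ContinuousLinearMap.inverse_equiv]
    exact e.apply_symm_apply (T x)
  rw [h2, real_inner_comm] at h1
  exact h1

end Pool.Agent.RU
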