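import Pool.Agent.H.MP_1b807b_an.U.EFunB
import Pool.Agent.H.MP_1b807b_an.U.MeasQ

/-! MP_1b807b_an, universal bound, module AreaU: area formula on the good set -/

set_option autoImplicit false

namespace Pool.Agent.RU

open MeasureTheory Metric Set Filter Pool.Agent.RG
open scoped RealInnerProductSpace Topology NNReal ENNReal

variable {n : ℕ}

theorem areau_deriv (A : Set (E n)) (T : E n → E n) :
    ∀ x ∈ good A T, HasFDerivWithinAt T (fderiv ℝ T x) (good A T) x := by
  intro x hx
  have hd : DifferentiableAt ℝ T x := hx.2.1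
  exact hd.hasFDerivAt.hasFDerivWithinAt

theorem areau_inj {R K L : ℝ} {f : E n → ℝ} {Ω A : Set (E n)} {T : E n → E n} {φ : E n → ℝ}
    (h : IsTD n R K L f Ω A T φ) : InjOn T (good A T) := by
  intro x hx y _ hxy
  have hd : DifferentiableAt ℝ T x := hx.2.1
  have hdet : (fderiv ℝ T x).det ≠ 0 := hx.2.2
  exact (inj_good h hd hdet hxy.symm).symm

/-- PROOF: `integral_image_eq_integral_abs_det_fderiv_smul` with `inj_good`. -/
theorem area_good {R K L : ℝ} {f : E n → ℝ} {Ω A : Set (E n)} {T : E n → E n} {φ : E n → ℝ}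
    (h : IsTD n R K L f Ω A T φ) (G : E n → ℝ) :
    ∫ ξ in T '' good A T, G ξ = ∫ x in good A T, |(fderiv ℝ T x).det| * G (T x) := by
  have h1 := integral_image_eq_integral_abs_det_fderiv_smul volume (measurableSet_good h.meas T)
    (areau_deriv A T) (areau_inj h) G
  simpa only [smul_eq_mul] using h1

/-- PROOF: `measurable_image_of_fderivWithin` with `inj_good`. -/
theorem measurableSet_image_good {R K L : ℝ} {f : E n → ℝ} {Ω A : Set (E n)}
    {T : E n → E n} {φ : E n → ℝ} (h : IsTD n R K L f Ω A T φ) :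
    MeasurableSet (T '' good A T) :=
  measurable_image_of_fderivWithin (measurableSet_good h.meas T) (areau_deriv A T) (areau_inj h)

/-- PROOF: `integrableOn_image_iff_integrableOn_abs_det_fderiv_smul`. -/
theorem integrable_good {R K L : ℝ} {f : E n → ℝ} {Ω A : Set (E n)} {T : E n → E n}
    {φ : E n → ℝ} (h : IsTD n R K L f Ω A T φ) {G : E n → ℝ}
    (hG : IntegrableOn G (T '' good A T)) :
    IntegrableOn (fun x => |(fderiv ℝ T x).det| * G (T x)) (good A T) := by
  have h1 := (integrableOn_image_iff_integrableOn_abs_det_fderiv_smul volume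
    (measurableSet_good h.meas T) (areau_deriv A T) (areau_inj h) G).1 hG
  simpa only [smul_eq_mul] using h1

/-- the good set has full measure in `A`. PROOF: Rademacher and `det`. -/
theorem good_full {R K L : ℝ} {f : E n → ℝ} {Ω A : Set (E n)} {T : E n → E n} {φ : E n → ℝ}
    (h : IsTD n R K L f Ω A T φ) : volume (A \ good A T) = 0 := by
  have h1 : ∀ᵐ x ∂(volume.restrict A), x ∈ good A T := by
    have hd : ∀ᵐ x ∂(volume.restrict A), DifferentiableAt ℝ T x :=
      ae_restrict_of_ae h.lip.ae_differentiableAt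
    filter_upwards [h.det, hd, ae_restrict_mem h.meas] with x h2 h3 h4
    refine ⟨h4, h3, ?_⟩
    intro h5
    have h6 : (fderiv ℝ T x).det = 0 := h5
    rw [h6, abs_zero, mul_zero] at h2
    linarith
  rw [ae_restrict_iff' h.meas, ae_iff] at h1
  refine measure_mono_null ?_ h1
  rintro x ⟨hx1, hx2⟩ hx3
  exact hx2 (hx3 hx1)

end Pool.Agent.RU
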