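import Pool.Agent.H.MP_1b807b_an.U.DefsU

/-! MP_1b807b_an, universal bound, module RadInt: a lower bound for the radial integral -/

set_option autoImplicit false

namespace Pool.Agent.RU

open MeasureTheory Metric Set Filter Pool.Agent.RG
open scoped RealInnerProductSpace Topology NNReal ENNReal

variable {n : ℕ}

theorem radint_polar {β c : ℝ} (hn : 2 ≤ n) :
    ∫ p in ball (0 : E n) β, 1 / (β ^ 2 - ‖p‖ ^ 2 + c) =
      sArea n * ∫ q in Ioo (0 : ℝ) β, q ^ (n - 1) * (1 / (β ^ 2 - q ^ 2 + c)) := by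
  have hne : NeZero n := ⟨by omega⟩
  have hfin : Module.finrank ℝ (E n) = n := by simp [E]
  have h1 : ∫ p in ball (0 : E n) β, 1 / (β ^ 2 - ‖p‖ ^ 2 + c) =
      ∫ p : E n, (Iio β).indicator (fun q : ℝ => 1 / (β ^ 2 - q ^ 2 + c)) ‖p‖ := by
    rw [← integral_indicator measurableSet_ball]
    refine integral_congr_ae (Eventually.of_forall fun p => ?_)
    by_cases h : ‖p‖ < β <;> simp [indicator, h]
  have hnt : Nontrivial (E n) := by
    apply Module.nontrivial_of_finrank_pos (R := ℝ)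
    rw [hfin]; omega
  rw [h1, integral_fun_norm_addHaar volume, hfin]
  have h2 : ∫ y in Ioi (0 : ℝ), y ^ (n - 1) •
      (Iio β).indicator (fun q : ℝ => 1 / (β ^ 2 - q ^ 2 + c)) y =
      ∫ q in Ioo (0 : ℝ) β, q ^ (n - 1) * (1 / (β ^ 2 - q ^ 2 + c)) := by
    have h3 : ∀ y : ℝ, y ^ (n - 1) •
        (Iio β).indicator (fun q : ℝ => 1 / (β ^ 2 - q ^ 2 + c)) y =
        (Iio β).indicator (fun q : ℝ => q ^ (n - 1) * (1 / (β ^ 2 - q ^ 2 + c))) y := by
      intro y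
      by_cases h : y < β <;> simp [indicator, h]
    simp_rw [h3]
    rw [setIntegral_indicator measurableSet_Iio, Ioi_inter_Iio]
  rw [h2, sArea, nsmul_eq_mul, smul_eq_mul]
  ring

theorem radint_cont {β c : ℝ} (hc : 0 < c) (hβ : 0 < β) (k : ℕ) :
    ContinuousOn (fun q : ℝ => q ^ k * (1 / (β ^ 2 - q ^ 2 + c))) (Icc 0 β) := by
  refine ContinuousOn.mul (by fun_prop) (ContinuousOn.div (by fun_prop) (by fun_prop) ?_)
  rintro q ⟨h0, h1⟩
  nlinarith

theorem radint_log {β c a : ℝ} (hc : 0 < c) (ha : 0 < a) (hβ : 0 < β) (hab : a ≤ β) :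
    ∫ q in Ioo a β, q ^ 1 * (1 / (β ^ 2 - q ^ 2 + c)) =
      1 / 2 * Real.log ((β ^ 2 - a ^ 2 + c) / c) := by
  have hpos : ∀ q ∈ Icc a β, 0 < β ^ 2 - q ^ 2 + c := by
    rintro q ⟨h0, h1⟩
    nlinarith
  rw [← integral_Ioc_eq_integral_Ioo, ← intervalIntegral.integral_of_le hab]
  have hd : ∀ q ∈ uIcc a β, HasDerivAt (fun q : ℝ => -(1 / 2) * Real.log (β ^ 2 - q ^ 2 + c))
      (q ^ 1 * (1 / (β ^ 2 - q ^ 2 + c))) q := by
    intro q hq
    rw [uIcc_of_le hab] at hq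
    have h1 := hpos q hq
    have h2 : HasDerivAt (fun q : ℝ => β ^ 2 - q ^ 2 + c) (-(2 * q)) q := by
      have h3 := ((hasDerivAt_pow 2 q).const_sub (β ^ 2)).add_const c
      simpa using h3
    have h4 := (h2.log h1.ne').const_mul (-(1 / 2) : ℝ)
    have h5 : -(1 / 2) * (-(2 * q) / (β ^ 2 - q ^ 2 + c)) = q ^ 1 * (1 / (β ^ 2 - q ^ 2 + c)) := by
      rw [pow_one]
      ring
    rw [h5] at h4
    exact h4
  rw [intervalIntegral.integral_eq_sub_of_hasDerivAt hd]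
  · have h1 := hpos a ⟨le_refl _, hab⟩
    rw [Real.log_div h1.ne' hc.ne']
    have h2 : β ^ 2 - β ^ 2 + c = c := by ring
    rw [h2]
    ring
  · apply ContinuousOn.intervalIntegrable
    rw [uIcc_of_le hab]
    exact (radint_cont hc hβ 1).mono (Icc_subset_Icc_left ha.le)

/-- PROOF: polar coordinates (`integral_fun_norm_addHaar`): the integral is
`sArea n ∫_0^β q^{n-1} / (β² - q² + c) dq ≥ sArea n ((1-δ) β)^{n-2} ∫_{(1-δ)β}^β q / (β² - q² + c) dq` and the last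
integral is `(1/2) log ((β² (1 - (1-δ)²) + c) / c) ≥ (1/2) log (δ β² / c)`. -/
theorem rad_int {β c δ : ℝ} (hn : 2 ≤ n) (hβ : 0 < β) (hc : 0 < c) (hδ : 0 < δ) (hδ1 : δ < 1) :
    sArea n * (((1 - δ) * β) ^ (n - 2) * (1 / 2 * Real.log (δ * β ^ 2 / c))) ≤
      ∫ p in ball (0 : E n) β, 1 / (β ^ 2 - ‖p‖ ^ 2 + c) := by
  set a : ℝ := (1 - δ) * β with ha_def
  have h1δ : 0 < 1 - δ := by linarith
  have ha : 0 < a := mul_pos h1δ hβ
  have hab : a ≤ β := by rw [ha_def]; nlinarith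
  have hs : 0 ≤ sArea n := by unfold sArea; positivity
  rw [radint_polar hn]
  refine mul_le_mul_of_nonneg_left ?_ hs
  have hpos : ∀ q ∈ Icc (0 : ℝ) β, 0 < β ^ 2 - q ^ 2 + c := by
    rintro q ⟨h0, h1⟩
    nlinarith
  have hI : ∀ k : ℕ, IntegrableOn (fun q : ℝ => q ^ k * (1 / (β ^ 2 - q ^ 2 + c))) (Ioo 0 β) :=
    fun k => ((radint_cont hc hβ k).integrableOn_Icc).mono_set Ioo_subset_Icc_self
  have hsub : Ioo a β ⊆ Ioo 0 β := Ioo_subset_Ioo_left ha.le
  calc a ^ (n - 2) * (1 / 2 * Real.log (δ * β ^ 2 / c))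
      ≤ a ^ (n - 2) * (1 / 2 * Real.log ((β ^ 2 - a ^ 2 + c) / c)) := by
        have h3 : δ * β ^ 2 ≤ β ^ 2 - a ^ 2 + c := by
          rw [ha_def]
          have h4 : β ^ 2 - ((1 - δ) * β) ^ 2 + c - δ * β ^ 2 = δ * (1 - δ) * β ^ 2 + c := by ring
          have h5 : 0 ≤ δ * (1 - δ) * β ^ 2 + c := by positivity
          linarith
        have h4 : 0 < δ * β ^ 2 / c := by positivity
        have h5 : δ * β ^ 2 / c ≤ (β ^ 2 - a ^ 2 + c) / c :=
          div_le_div_of_nonneg_right h3 hc.le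
        have h6 := Real.log_le_log h4 h5
        have h7 : 0 ≤ a ^ (n - 2) := by positivity
        exact mul_le_mul_of_nonneg_left (by linarith) h7
    _ = ∫ q in Ioo a β, a ^ (n - 2) * (q ^ 1 * (1 / (β ^ 2 - q ^ 2 + c))) := by
        rw [integral_const_mul, radint_log hc ha hβ hab]
    _ ≤ ∫ q in Ioo a β, q ^ (n - 1) * (1 / (β ^ 2 - q ^ 2 + c)) := by
        refine setIntegral_mono_on (((hI 1).mono_set hsub).const_mul _) ((hI _).mono_set hsub)
          measurableSet_Ioo ?_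
        rintro q ⟨h0, h1⟩
        have hq : 0 < q := lt_trans ha h0
        have h2 : 0 < β ^ 2 - q ^ 2 + c := hpos q ⟨hq.le, h1.le⟩
        have h3 : a ^ (n - 2) ≤ q ^ (n - 2) := pow_le_pow_left₀ ha.le h0.le _
        have h4 : q ^ (n - 1) = q ^ (n - 2) * q ^ 1 := by
          rw [← pow_add]; congr 1; omega
        rw [h4, mul_assoc]
        exact mul_le_mul_of_nonneg_right h3 (by positivity)
    _ ≤ ∫ q in Ioo 0 β, q ^ (n - 1) * (1 / (β ^ 2 - q ^ 2 + c)) := by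
        refine setIntegral_mono_set (hI _) ?_ (Eventually.of_forall hsub)
        refine (ae_restrict_iff' measurableSet_Ioo).2 (Eventually.of_forall ?_)
        rintro q ⟨h0, h1⟩
        have h2 : 0 < β ^ 2 - q ^ 2 + c := hpos q ⟨h0.le, h1.le⟩
        show 0 ≤ q ^ (n - 1) * (1 / (β ^ 2 - q ^ 2 + c))
        positivity

end Pool.Agent.RU
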