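import Pool.Agent.H.MP_1b807b_an.U.MonoB
import Pool.Agent.H.MP_1b807b_an.U.RadInt

/-! MP_1b807b_an, universal bound, module AsymU: the upper bound for large parameter -/

set_option autoImplicit false

namespace Pool.Agent.RU

open MeasureTheory Metric Set Filter Pool.Agent.RG
open scoped RealInnerProductSpace Topology NNReal ENNReal

variable {n : ℕ}

/-- the area of the unit sphere is positive -/
theorem asymu_sArea_pos (hn : 2 ≤ n) : 0 < sArea n := by
  unfold sArea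
  have h2 : (0 : ℝ) < n := by
    have : (2 : ℝ) ≤ n := by exact_mod_cast hn
    linarith
  refine mul_pos h2 ?_
  rw [measureReal_def]
  refine ENNReal.toReal_pos ?_ ?_
  · exact (measure_ball_pos volume (0 : E n) one_pos).ne'
  · exact measure_ball_lt_top.ne

/-- the numerical inequality -/
theorem asymu_real (m : ℕ) {s A e b t : ℝ} (hs : 0 < s) (hA : 0 < A) (he0 : 0 < e)
    (he1 : e < 1) (hb : 1 < b)
    (h : Real.log (Real.log b) - (((m : ℝ) + 1) * (Real.log e - Real.log (1 - e)) -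
      Real.log (((m : ℝ) + 2) * s / (2 * ((m : ℝ) + 1) * A))) ≤ e * ((m : ℝ) + 2) * Real.log b)
    (ht : 0 < t)
    (htn : t ^ (m + 1) = ((m : ℝ) + 2) * s * b ^ m * Real.log b / (2 * ((m : ℝ) + 1) * A)) :
    A * ((1 - e) * t) ^ (m + 1) ≤
      s * (((1 - e) * b) ^ m * (1 / 2 * Real.log (e * b ^ 2 / ((1 - e) * t)))) := by
  have hm : (0 : ℝ) ≤ (m : ℝ) := Nat.cast_nonneg m
  have hm1 : (0 : ℝ) < (m : ℝ) + 1 := by linarith
  have hb0 : 0 < b := by linarith
  have hlb : 0 < Real.log b := Real.log_pos hb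
  have h1e : 0 < 1 - e := by linarith
  have hC0 : 0 < ((m : ℝ) + 2) * s / (2 * ((m : ℝ) + 1) * A) := by positivity
  have hlogt : ((m : ℝ) + 1) * Real.log t =
      Real.log (((m : ℝ) + 2) * s / (2 * ((m : ℝ) + 1) * A)) + (m : ℝ) * Real.log b +
        Real.log (Real.log b) := by
    have h1 : Real.log (t ^ (m + 1)) = ((m : ℝ) + 1) * Real.log t := by
      rw [Real.log_pow]; push_cast; ring
    have h2 : t ^ (m + 1) = ((m : ℝ) + 2) * s / (2 * ((m : ℝ) + 1) * A) * b ^ m * Real.log b := by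
      rw [htn]; ring
    rw [← h1, h2, Real.log_mul (by positivity) hlb.ne', Real.log_mul hC0.ne' (by positivity),
      Real.log_pow]
  have hlg : Real.log (e * b ^ 2 / ((1 - e) * t)) =
      Real.log e + 2 * Real.log b - Real.log (1 - e) - Real.log t := by
    rw [Real.log_div (by positivity) (by positivity), Real.log_mul he0.ne' (by positivity),
      Real.log_mul h1e.ne' ht.ne', Real.log_pow]
    push_cast
    ring
  have key : (1 - e) * ((m : ℝ) + 2) * Real.log b ≤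
      ((m : ℝ) + 1) * Real.log (e * b ^ 2 / ((1 - e) * t)) := by
    rw [hlg]
    nlinarith [hlogt, h]
  have hL : A * ((1 - e) * t) ^ (m + 1) =
      (s * ((1 - e) * b) ^ m / (2 * ((m : ℝ) + 1))) * ((1 - e) * ((m : ℝ) + 2) * Real.log b) := by
    rw [mul_pow, htn, mul_pow, pow_succ (1 - e) m]
    field_simp
  have hR : s * (((1 - e) * b) ^ m * (1 / 2 * Real.log (e * b ^ 2 / ((1 - e) * t)))) =
      (s * ((1 - e) * b) ^ m / (2 * ((m : ℝ) + 1))) *
        (((m : ℝ) + 1) * Real.log (e * b ^ 2 / ((1 - e) * t))) := by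
    field_simp
  rw [hL, hR]
  exact mul_le_mul_of_nonneg_left key (by positivity)

/-- the condition on the parameter holds eventually -/
theorem asymu_eventually (C : ℝ) {k : ℝ} (hk : 0 < k) :
    ∀ᶠ b : ℝ in atTop, Real.log (Real.log b) - C ≤ k * Real.log b := by
  have h1 : ∀ᶠ y : ℝ in atTop, Real.log y - C ≤ k * y := by
    have h2 := (Real.isLittleO_log_id_atTop.bound (half_pos hk))
    filter_upwards [h2, eventually_ge_atTop (0 : ℝ), eventually_ge_atTop (-C / (k / 2))]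
      with y hy hy0 hyC
    simp only [id, Real.norm_eq_abs] at hy
    rw [abs_of_nonneg hy0] at hy
    have h3 := le_abs_self (Real.log y)
    have h4 : -C ≤ k / 2 * y := by
      rw [div_le_iff₀ (half_pos hk)] at hyC
      linarith
    linarith
  exact Real.tendsto_log_atTop.eventually h1

/-- PROOF: `μ = (1-ε) kap n A β`; `boundB` and `rad_int` with `c = μ/(n-1)`: it is enough that
`A ≤ ((n-1)/μ)^{n-1} sArea n ((1-δ)β)^{n-2} (1/2) log (δ β² (n-1)/μ)`. As
`((n-1)/μ)^{n-1} = (1-ε)^{-(n-1)} 2 (n-1) A / (n sArea n β^{n-2} log β)`, this is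
`n log β (1-ε)^{n-1} ≤ (n-1) (1-δ)^{n-2} log (δ β² (n-1)/μ)`, and `log (β²/μ) ~ (n/(n-1)) log β`:
`μ^{n-1} = const β^{n-2} log β`. (For `ε ≥ 1` use `0 < ε' < 1`; `kap ≥ 0`.) -/
theorem asym_upper (hn : 2 ≤ n) {A ε : ℝ} (hA : 0 < A) (hε : 0 < ε) : ∃ β₀ : ℝ, ∀ β ≥ β₀,
    ∀ D : Domain n, volume.real D.carrier = A →
      D.robin (-β) ≤ ((-β ^ 2 - (1 - ε) * kap n A β : ℝ) : EReal) := by
  obtain ⟨m, rfl⟩ : ∃ m, n = m + 2 := ⟨n - 2, by omega⟩
  have hs : 0 < sArea (m + 2) := asymu_sArea_pos hn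
  have hm : (0 : ℝ) ≤ (m : ℝ) := Nat.cast_nonneg m
  have hm1 : (0 : ℝ) < (m : ℝ) + 1 := by linarith
  have hcast : (((m + 2 : ℕ) : ℝ) - 1) = (m : ℝ) + 1 := by push_cast; ring
  obtain ⟨e, he0, he1, heε⟩ : ∃ e : ℝ, 0 < e ∧ e < 1 ∧ e ≤ ε :=
    ⟨min ε (1 / 2), lt_min hε (by norm_num), (min_le_right _ _).trans_lt (by norm_num),
      min_le_left _ _⟩
  have hev := asymu_eventually (((m : ℝ) + 1) * (Real.log e - Real.log (1 - e)) -
      Real.log (((m : ℝ) + 2) * sArea (m + 2) / (2 * ((m : ℝ) + 1) * A)))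
      (show 0 < e * ((m : ℝ) + 2) by positivity)
  obtain ⟨b₀, hb₀⟩ := (hev.and (eventually_gt_atTop (1 : ℝ))).exists_forall_of_atTop
  refine ⟨b₀, fun b hb D hD => ?_⟩
  obtain ⟨h1, hb1⟩ := hb₀ b hb
  have hb0 : 0 < b := by linarith
  have hlb : 0 < Real.log b := Real.log_pos hb1
  have h1e : 0 < 1 - e := by linarith
  -- the number `w` and its root
  obtain ⟨w, hw⟩ : ∃ w : ℝ, w = ((m : ℝ) + 2) * sArea (m + 2) * b ^ m * Real.log b /
    (2 * ((m : ℝ) + 1) * A) := ⟨_, rfl⟩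
  have hw0 : 0 < w := by rw [hw]; positivity
  obtain ⟨t, ht⟩ : ∃ t : ℝ, t = w ^ (1 / ((m : ℝ) + 1)) := ⟨_, rfl⟩
  have ht0 : 0 < t := by rw [ht]; exact Real.rpow_pos_of_pos hw0 _
  have htn : t ^ (m + 1) = w := by
    rw [ht, ← Real.rpow_natCast, ← Real.rpow_mul hw0.le]
    push_cast
    rw [one_div_mul_cancel hm1.ne', Real.rpow_one]
  have hkap : kap (m + 2) A b = ((m : ℝ) + 1) * t := by
    unfold kap
    rw [hcast, ht, hw]
    simp only [Nat.add_sub_cancel]
    push_cast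
    rfl
  have hkey := asymu_real m hs hA he0 he1 hb1 h1 ht0 (htn.trans hw)
  have hc : 0 < (1 - e) * t := mul_pos h1e ht0
  have hμ : 0 < (1 - e) * (((m : ℝ) + 1) * t) := by positivity
  have hri := rad_int hn hb0 hc he0 he1
  have hbd := boundB hn hb0 hμ D (by
    rw [hD, hcast]
    have e1 : ((m : ℝ) + 1) / ((1 - e) * (((m : ℝ) + 1) * t)) = ((1 - e) * t)⁻¹ := by
      field_simp
    have e2 : (1 - e) * (((m : ℝ) + 1) * t) / ((m : ℝ) + 1) = (1 - e) * t := by
      field_simp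
    have e3 : m + 2 - 1 = m + 1 := rfl
    rw [e1, e2, e3]
    have e4 : (∫ p in ball (0 : E (m + 2)) b,
        (((1 - e) * t)⁻¹) ^ (m + 1) / (b ^ 2 - ‖p‖ ^ 2 + (1 - e) * t)) =
        (((1 - e) * t)⁻¹) ^ (m + 1) *
          ∫ p in ball (0 : E (m + 2)) b, 1 / (b ^ 2 - ‖p‖ ^ 2 + (1 - e) * t) := by
      rw [← integral_const_mul]
      congr 1
      ext p
      rw [mul_one_div]
    rw [e4]
    have e5 : A = (((1 - e) * t)⁻¹) ^ (m + 1) * (A * ((1 - e) * t) ^ (m + 1)) := by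
      rw [inv_pow]
      have : ((1 - e) * t) ^ (m + 1) ≠ 0 := (pow_pos hc _).ne'
      field_simp
    calc A = (((1 - e) * t)⁻¹) ^ (m + 1) * (A * ((1 - e) * t) ^ (m + 1)) := e5
      _ ≤ _ := mul_le_mul_of_nonneg_left (hkey.trans hri) (by positivity))
  refine hbd.trans ?_
  rw [EReal.coe_le_coe_iff, hkap]
  have h5 : 0 < ((m : ℝ) + 1) * t := mul_pos hm1 ht0
  nlinarith

end Pool.Agent.RU
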