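import Pool.Agent.H.MP_1b807b_an.U.DefsU
import Pool.Agent.H.MP_1b807b_an.G.Limit

/-! MP_1b807b_an, universal bound, module BadVol: the bad set is small -/

set_option autoImplicit false

namespace Pool.Agent.RU

open MeasureTheory Metric Set Filter Pool.Agent.RG
open scoped RealInnerProductSpace Topology NNReal ENNReal

variable {n : ℕ}

private theorem badvol_tr_inner (S : E n →L[ℝ] E n) :
    tr S = ∑ i : Fin n, ⟪S (EuclideanSpace.single i 1), EuclideanSpace.single i (1 : ℝ)⟫ := by
  unfold tr
  refine Finset.sum_congr rfl (fun i _ => ?_)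
  rw [EuclideanSpace.inner_single_right]
  simp

private theorem badvol_tr_le (S : E n →L[ℝ] E n) : |tr S| ≤ n * ‖S‖ := by
  rw [badvol_tr_inner]
  refine (Finset.abs_sum_le_sum_abs _ _).trans ?_
  have h : ∀ i : Fin n,
      |⟪S (EuclideanSpace.single i 1), EuclideanSpace.single i (1 : ℝ)⟫| ≤ ‖S‖ := by
    intro i
    refine (abs_real_inner_le_norm _ _).trans ?_
    have h1 : ‖(EuclideanSpace.single i (1 : ℝ) : E n)‖ = 1 := by simp
    have h2 := S.le_opNorm (EuclideanSpace.single i 1)
    rw [h1, mul_one] at h2 ⊢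
    exact h2
  refine (Finset.sum_le_sum (fun i _ => h i)).trans ?_
  simp

private theorem badvol_tr_cont : Continuous (tr : (E n →L[ℝ] E n) → ℝ) := by
  unfold tr
  refine continuous_finset_sum _ fun i _ => ?_
  have h1 : Continuous fun A : E n →L[ℝ] E n => A (EuclideanSpace.single i 1) :=
    continuous_id.clm_apply continuous_const
  exact (EuclideanSpace.proj (𝕜 := ℝ) i).continuous.comp h1

/-- PROOF: `tr DT ≥ 0` almost everywhere (`nonneg` at the basis vectors, Rademacher) and `≥ K` on
`D \ A`; `Domain.divergence_lip` and `|⟨T, ν⟩| ≤ β`. -/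
theorem bad_vol {D : Domain n} {β K L : ℝ} (hβ : 0 < β) (hK : 0 < K) {f : E n → ℝ}
    {A : Set (E n)} {T : E n → E n} {φ : E n → ℝ} (h : IsTD n β K L f D.carrier A T φ) :
    K * volume.real (D.carrier \ A) ≤ β * D.perimeter := by
  haveI := D.isFinite
  have hDm : MeasurableSet D.carrier := D.isOpen.measurableSet
  have hDf : volume D.carrier < ⊤ := D.isBounded.measure_lt_top
  haveI : IsFiniteMeasure (volume.restrict D.carrier) := ⟨by simpa using hDf⟩
  have hTc : Continuous T := h.lip.continuous
  have hnn : ∀ x, 0 ≤ tr (fderiv ℝ T x) := by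
    intro x
    by_cases hd : DifferentiableAt ℝ T x
    · rw [badvol_tr_inner]
      exact Finset.sum_nonneg (fun i _ => h.nonneg x hd _)
    · rw [fderiv_zero_of_not_differentiableAt hd]
      simp [tr]
  have hbd : ∀ x, |tr (fderiv ℝ T x)| ≤ n * (K.toNNReal : ℝ) := by
    intro x
    refine (badvol_tr_le _).trans ?_
    exact mul_le_mul_of_nonneg_left (norm_fderiv_le_of_lipschitz ℝ h.lip) (Nat.cast_nonneg n)
  have hmeas : Measurable (fun x => tr (fderiv ℝ T x)) :=
    badvol_tr_cont.measurable.comp (measurable_fderiv ℝ T)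
  have hint : IntegrableOn (fun x => tr (fderiv ℝ T x)) D.carrier := by
    refine Integrable.of_bound hmeas.aestronglyMeasurable (n * (K.toNNReal : ℝ)) ?_
    exact ae_of_all _ (fun x => hbd x)
  have h1 : K * volume.real (D.carrier \ A) ≤ ∫ x in D.carrier \ A, tr (fderiv ℝ T x) := by
    have e1 : K * volume.real (D.carrier \ A) = ∫ x in D.carrier \ A, K := by
      rw [setIntegral_const, smul_eq_mul, mul_comm]
    rw [e1]
    have hm : MeasurableSet (D.carrier \ A) := hDm.diff h.meas
    have hfin : volume (D.carrier \ A) < ⊤ := (measure_mono diff_subset).trans_lt hDf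
    refine setIntegral_mono_ae_restrict (integrableOn_const hfin.ne)
      (hint.mono_set diff_subset) ?_
    have hb := ae_restrict_of_ae_restrict_of_subset (s := D.carrier \ A) diff_subset h.bad
    filter_upwards [hb, ae_restrict_mem hm] with x hx hxm
    exact hx hxm.2
  have h2 : ∫ x in D.carrier \ A, tr (fderiv ℝ T x) ≤ ∫ x in D.carrier, tr (fderiv ℝ T x) :=
    setIntegral_mono_set hint (ae_of_all _ hnn) (HasSubset.Subset.eventuallyLE diff_subset)
  have h3 := D.divergence_lip h.lip h.norm_le
  have h4 : ∫ x, ⟪T x, D.normal x⟫ ∂D.surface ≤ ∫ _x, β ∂D.surface := by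
    have hm : AEStronglyMeasurable (fun x => ⟪T x, D.normal x⟫) D.surface :=
      (hTc.measurable.inner D.measurable_normal).aestronglyMeasurable
    have hb : ∀ᵐ x ∂D.surface, |⟪T x, D.normal x⟫| ≤ β := by
      filter_upwards [D.norm_normal] with x hx
      refine (abs_real_inner_le_norm _ _).trans ?_
      rw [hx, mul_one]
      exact h.norm_le x
    refine integral_mono_ae (Integrable.of_bound hm β hb) (integrable_const β) ?_
    filter_upwards [hb] with x hx
    exact (le_abs_self _).trans hx
  have h5 : ∫ _x, β ∂D.surface = β * D.perimeter := by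
    rw [integral_const, smul_eq_mul, mul_comm]
    rfl
  calc K * volume.real (D.carrier \ A) ≤ ∫ x in D.carrier \ A, tr (fderiv ℝ T x) := h1
    _ ≤ ∫ x in D.carrier, tr (fderiv ℝ T x) := h2
    _ = ∫ x, ⟪T x, D.normal x⟫ ∂D.surface := h3
    _ ≤ ∫ _x, β ∂D.surface := h4
    _ = β * D.perimeter := h5

end Pool.Agent.RU
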