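import Pool.Agent.H.MP_1b807b_an.U.DefsU
import Pool.Agent.H.MP_1b807b_an.G.MatIneq

/-! MP_1b807b_an, universal bound, module CertA: the first certificate -/

set_option autoImplicit false

namespace Pool.Agent.RU

open MeasureTheory Metric Set Filter Pool.Agent.RG
open scoped RealInnerProductSpace Topology NNReal ENNReal

variable {n : ℕ}

theorem certa_eig {A : E n →L[ℝ] E n} (hs : (A : E n →ₗ[ℝ] E n).IsSymmetric)
    (hf : ∀ v, 0 ≤ ⟪A v, v⟫) :
    ∃ μ : Fin n → ℝ, (∀ i, 0 ≤ μ i) ∧ tr A = ∑ i, μ i ∧ A.det = ∏ i, μ i := by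
  have hfr : Module.finrank ℝ (E n) = n := finrank_euclideanSpace_fin
  set b := hs.eigenvectorBasis hfr with hb
  set μ := hs.eigenvalues hfr with hμ
  have hAb : ∀ i, A (b i) = μ i • b i := fun i => hs.apply_eigenvectorBasis hfr i
  have hbn : ∀ i, ‖b i‖ = 1 := fun i => b.orthonormal.1 i
  have hbi : ∀ i, ⟪b i, b i⟫ = (1 : ℝ) := fun i => by
    rw [real_inner_self_eq_norm_sq, hbn i, one_pow]
  refine ⟨μ, ?_, ?_, ?_⟩
  · intro i
    have h := hf (b i)
    rwa [hAb i, real_inner_smul_left, hbi i, mul_one] at h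
  · rw [tr_eq_trace, hs.trace_eq_sum_eigenvalues hfr]
    simp [hμ]
  · have := hs.det_eq_prod_eigenvalues hfr
    simpa [hμ, ContinuousLinearMap.det] using this

/-- PROOF: `c = 0`. For a symmetric nonnegative `S` with `det S ≠ 0`: `det S > 0` and
`tr S ≥ n (det S)^{1/n}` (eigenvalues, AM-GM `Real.inner_le_nnorm_mul_nnorm`/`Real.geom_mean_le_arith_mean`),
so `1 ≤ f det S` gives `(Λ - ‖ξ‖²)ⁿ ≤ nⁿ det S ≤ (tr S)ⁿ`, `tr S ≥ Λ - ‖ξ‖²`; the other terms are `≥ 0`. -/
theorem certA {β Λ : ℝ} (hn : 2 ≤ n) (hβ : 0 < β) (hΛ : β ^ 2 < Λ) :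
    IsCert n β Λ (fun ξ : E n => (n / (Λ - ‖ξ‖ ^ 2)) ^ n) 0 ((n / Λ) ^ n) := by
  have hΛ0 : 0 < Λ := lt_trans (by positivity) hΛ
  have hn0 : (0 : ℝ) < n := by
    have : 0 < n := by omega
    exact_mod_cast this
  have hs : ∀ ξ : E n, ‖ξ‖ ≤ β → 0 < Λ - ‖ξ‖ ^ 2 := by
    intro ξ hξ
    have h1 : ‖ξ‖ ^ 2 ≤ β ^ 2 := pow_le_pow_left₀ (norm_nonneg _) hξ 2
    linarith
  refine ⟨?_, ?_, ?_, le_rfl, ?_⟩
  · apply ContinuousOn.pow
    apply ContinuousOn.div continuousOn_const
    · exact continuousOn_const.sub (continuous_norm.continuousOn.pow 2)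
    · intro ξ hξ
      exact (hs ξ (by simpa using hξ)).ne'
  · positivity
  · intro ξ hξ
    have h1 := hs ξ hξ
    apply pow_le_pow_left₀ (by positivity)
    apply div_le_div_of_nonneg_left hn0.le h1
    have : 0 ≤ ‖ξ‖ ^ 2 := by positivity
    linarith
  · intro S hS hS0 hdet ξ hξ0 hξ h1
    obtain ⟨μ, h0, htr, hd⟩ := certa_eig hS hS0
    have hsp := hs ξ hξ
    have hpos : ∀ i, 0 < μ i := by
      intro i
      rcases (h0 i).eq_or_lt with h | h
      · exfalso
        apply hdet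
        rw [hd]
        exact Finset.prod_eq_zero (Finset.mem_univ i) h.symm
      · exact h
    have hdpos : 0 < S.det := by
      rw [hd]
      exact Finset.prod_pos (fun i _ => hpos i)
    set s := Λ - ‖ξ‖ ^ 2 with hsdef
    have hq : 0 < (n : ℝ) / s := by positivity
    -- the scaled eigenvalues
    have hprod : 1 ≤ ∏ i, (n / s * μ i) := by
      rw [Finset.prod_mul_distrib, Finset.prod_const, Finset.card_univ, Fintype.card_fin, ← hd]
      exact h1
    have hpos' : ∀ i, 0 < n / s * μ i := fun i => mul_pos hq (hpos i)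
    have hlog : 0 ≤ ∑ i, Real.log (n / s * μ i) := by
      rw [← Real.log_prod (fun i _ => (hpos' i).ne')]
      exact Real.log_nonneg hprod
    have hsum : (n : ℝ) ≤ ∑ i, (n / s * μ i) := by
      have h2 : ∀ i, Real.log (n / s * μ i) + 1 ≤ n / s * μ i := by
        intro i
        have := Real.log_le_sub_one_of_pos (hpos' i)
        linarith
      have h3 : ∑ i : Fin n, (Real.log (n / s * μ i) + 1) ≤ ∑ i, (n / s * μ i) :=
        Finset.sum_le_sum (fun i _ => h2 i)
      rw [Finset.sum_add_distrib] at h3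
      simp only [Finset.sum_const, Finset.card_univ, Fintype.card_fin, nsmul_eq_mul,
        mul_one] at h3
      linarith
    have htrs : s ≤ tr S := by
      rw [← Finset.mul_sum, ← htr] at hsum
      have h4 : (n : ℝ) / s * tr S = n * (tr S / s) := by ring
      rw [h4] at hsum
      have h5 : 1 ≤ tr S / s := by
        by_contra hc
        push Not at hc
        have : (n : ℝ) * (tr S / s) < n * 1 := mul_lt_mul_of_pos_left hc hn0
        linarith
      rwa [le_div_iff₀ hsp, one_mul] at h5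
    have h6 : 0 ≤ (tr S + ‖ξ‖ ^ 2 - Λ) / S.det := by
      apply div_nonneg _ hdpos.le
      linarith
    have h7 : 1 / S.det ≤ (n / s) ^ n := by
      rw [div_le_iff₀ hdpos]
      exact h1
    have h8 : 0 ≤ Λ * ((n / s) ^ n - 1 / S.det) :=
      mul_nonneg hΛ0.le (by linarith)
    simp only [zero_mul, mul_zero, add_zero]
    linarith

end Pool.Agent.RU
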