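import Pool.Agent.H.MP_1b807b_an.U.DefsU

/-! MP_1b807b_an, universal bound, module ScalU: the scalar inequality -/

set_option autoImplicit false

namespace Pool.Agent.RU

open MeasureTheory Metric Set Filter Pool.Agent.RG
open scoped RealInnerProductSpace Topology NNReal ENNReal

variable {n : ℕ}

/-- `1/z^k + k z ≥ k + 1` for `z > 0`. -/
theorem scalu_bern (k : ℕ) {z : ℝ} (hz : 0 < z) : (k : ℝ) + 1 ≤ 1 / z ^ k + k * z := by
  have h1 : 1 + (k : ℝ) * (1 / z - 1) ≤ (1 + (1 / z - 1)) ^ k := by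
    apply one_add_mul_le_pow
    have : 0 < 1 / z := by positivity
    linarith
  have h2 : (1 + (1 / z - 1)) ^ k = 1 / z ^ k := by
    rw [add_sub_cancel, div_pow, one_pow]
  have h3 : 2 ≤ 1 / z + z := by
    have : 1 / z + z - 2 = (z - 1) ^ 2 / z := by field_simp; ring
    have h4 : 0 ≤ (z - 1) ^ 2 / z := by positivity
    linarith
  have h5 : (0 : ℝ) ≤ k := Nat.cast_nonneg k
  rw [h2] at h1
  nlinarith

/-- The function `g`, nonnegative. -/
theorem scalu_g {N κ G y z : ℝ} (hN : 1 ≤ N) (hκ0 : 0 ≤ κ) (hκ1 : κ ≤ 1) (hG0 : 0 ≤ G)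
    (hG1 : G ≤ 1) (hy : 0 < y) (hb : N + 1 ≤ 1 / y + N * z) :
    0 ≤ 1 / y + N * (1 - G) * z - (G + N * (1 - G)) + κ * G * y - κ + (N + 1) * (1 - κ) / 2 := by
  have h3 : 2 ≤ 1 / y + y := by
    have : 1 / y + y - 2 = (y - 1) ^ 2 / y := by field_simp; ring
    have h4 : 0 ≤ (y - 1) ^ 2 / y := by positivity
    linarith
  have hy' : 0 < 1 / y := by positivity
  have e : 1 / y + N * (1 - G) * z - (G + N * (1 - G)) + κ * G * y - κ + (N + 1) * (1 - κ) / 2 =
      κ * (G * (1 / y + y - 2) + (1 - G) * (1 / y + N * z - (N + 1))) +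
      (1 - κ) * (G * (1 / y + (N - 1) / 2) +
        (1 - G) * ((1 / y + N * z - (N + 1)) + (1 + (N + 1) / 2))) := by ring
  rw [e]
  have a1 : 0 ≤ G * (1 / y + y - 2) := mul_nonneg hG0 (by linarith)
  have a2 : 0 ≤ (1 - G) * (1 / y + N * z - (N + 1)) := mul_nonneg (by linarith) (by linarith)
  have a3 : 0 ≤ G * (1 / y + (N - 1) / 2) := mul_nonneg hG0 (by linarith)
  have a4 : 0 ≤ (1 - G) * ((1 / y + N * z - (N + 1)) + (1 + (N + 1) / 2)) :=
    mul_nonneg (by linarith) (by linarith)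
  have b1 := mul_nonneg hκ0 (add_nonneg a1 a2)
  have b2 := mul_nonneg (sub_nonneg.2 hκ1) (add_nonneg a3 a4)
  linarith

/-- The core inequality. -/
theorem scalu_core {N B μ p m C s t d Q y z : ℝ} (hN : 1 ≤ N) (hB : 0 < B) (hμ : 0 < μ)
    (hp : 0 < p) (hpB : p ≤ B) (hC : 0 < C) (hm : m = B - p + μ / N) (hd : 0 < d) (hQ : 0 < Q)
    (hy : 0 < y) (hyQ : y = Q / p * m) (hs : m / y ≤ s) (ht : μ * z ≤ t)
    (hfd : 1 ≤ (C / m) * d) (hb : N + 1 ≤ 1 / y + N * z) :
    0 ≤ (s + t + p - (B + μ)) / d + 2 * ((C / (2 * B)) * (B - p)) * Q +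
      (C / (2 * B)) * ((N + 1) * (B - p) - 2 * p) + (B + μ) * (C / m - 1 / d) := by
  have hN0 : 0 < N := by linarith
  have hμN : 0 < μ / N := by positivity
  have hm0 : 0 < m := by rw [hm]; linarith
  have hBp : 0 ≤ B - p := by linarith
  have hWQ : 0 ≤ 2 * ((C / (2 * B)) * (B - p)) * Q := by positivity
  have hdinv : 0 < 1 / d := by positivity
  have hf : 0 < C / m := by positivity
  have hle : 1 / d ≤ C / m := by rwa [div_le_iff₀ hd]
  by_cases hX : B + μ ≤ s + t + p - (B + μ)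
  · -- first case
    have h1 : C ≤ (B + μ) * (C / m) := by
      have hmle : m ≤ B + μ := by
        have : μ / N ≤ μ := div_le_self hμ.le hN
        rw [hm]; linarith
      rw [← mul_div_assoc, le_div_iff₀ hm0]
      nlinarith
    have h2 : -C ≤ (C / (2 * B)) * ((N + 1) * (B - p) - 2 * p) := by
      have h3 : 0 ≤ (C / (2 * B)) * ((N + 1) * (B - p)) := by positivity
      have h4 : (C / (2 * B)) * (2 * p) ≤ C := by
        rw [div_mul_eq_mul_div, div_le_iff₀ (by positivity)]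
        nlinarith
      have h5 : (C / (2 * B)) * ((N + 1) * (B - p) - 2 * p) =
        (C / (2 * B)) * ((N + 1) * (B - p)) - (C / (2 * B)) * (2 * p) := by ring
      linarith
    have h6 : (B + μ) / d ≤ (s + t + p - (B + μ)) / d := by
      gcongr
    have h7 : (B + μ) * (C / m - 1 / d) = (B + μ) * (C / m) - (B + μ) / d := by ring
    linarith
  · -- second case
    have hX' : s + t + p - (B + μ) - (B + μ) < 0 := by linarith [not_le.1 hX]
    have h1 : (s + t + p - (B + μ) - (B + μ)) * (C / m) ≤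
        (s + t + p - (B + μ) - (B + μ)) * (1 / d) :=
      mul_le_mul_of_nonpos_left hle hX'.le
    have h2 : (s + t + p - (B + μ)) / d + (B + μ) * (C / m - 1 / d) =
        (B + μ) * (C / m) + (s + t + p - (B + μ) - (B + μ)) * (1 / d) := by ring
    have h3 : (C / m) * (s + t + p - (B + μ)) ≤
        (s + t + p - (B + μ)) / d + (B + μ) * (C / m - 1 / d) := by
      rw [h2]; linarith
    have h4 : (C / m) * (m / y + μ * z - (B + μ - p)) ≤ (C / m) * (s + t + p - (B + μ)) := by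
      apply mul_le_mul_of_nonneg_left _ hf.le
      linarith
    -- the function g
    have hκ0 : 0 ≤ p / B := by positivity
    have hκ1 : p / B ≤ 1 := by rw [div_le_one hB]; exact hpB
    have hG0 : 0 ≤ (B - p) / m := by positivity
    have hG1 : (B - p) / m ≤ 1 := by rw [div_le_one hm0, hm]; linarith
    have hg := scalu_g hN hκ0 hκ1 hG0 hG1 hy hb
    have hQe : Q = y * p / m := by
      rw [hyQ]; field_simp
    have hμm : μ = N * (m - (B - p)) := by
      rw [hm]; field_simp; ring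
    have e1 : (C / m) * (m / y + μ * z - (B + μ - p)) =
        C * (1 / y + N * (1 - (B - p) / m) * z - ((B - p) / m + N * (1 - (B - p) / m))) := by
      rw [hμm]; field_simp; ring
    have e2 : 2 * ((C / (2 * B)) * (B - p)) * Q = C * (p / B * ((B - p) / m) * y) := by
      rw [hQe]; field_simp
    have e3 : (C / (2 * B)) * ((N + 1) * (B - p) - 2 * p) =
        C * (- (p / B) + (N + 1) * (1 - p / B) / 2) := by
      field_simp; ring
    have h5 := mul_nonneg hC.le hg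
    have e4 : C * (1 / y + N * (1 - (B - p) / m) * z - ((B - p) / m + N * (1 - (B - p) / m)) +
        p / B * ((B - p) / m) * y - p / B + (N + 1) * (1 - p / B) / 2) =
        C * (1 / y + N * (1 - (B - p) / m) * z - ((B - p) / m + N * (1 - (B - p) / m))) +
        C * (p / B * ((B - p) / m) * y) + C * (- (p / B) + (N + 1) * (1 - p / B) / 2) := by ring
    rw [e4, ← e1, ← e2, ← e3] at h5
    linarith

/-- PROOF: STEP 3 (b) of the note, with `a = Q / q²`, `m = β² - q² + μ/(n-1)`, `C = ((n-1)/μ)^{n-1}`,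
`f = C / m`, `y = a m`, `y = z^{n-1}`: `s ≥ 1/a`, `t ≥ μ z`; two cases `s + t + q² - Λ ≥ Λ` or not;
`g` is affine in `κ = q²/β²` and then in `G₀ = (β² - q²)/m`. `1/z^{n-1} + (n-1) z ≥ n` is Bernoulli's
inequality. -/
theorem scal {β μ : ℝ} (hn : 2 ≤ n) (hβ : 0 < β) (hμ : 0 < μ) {q s t d Q : ℝ} (hq : 0 < q)
    (hqβ : q ≤ β) (hs : 0 < s) (ht : 0 < t) (hd : 0 < d) (hQ : 0 < Q) (h1 : q ^ 2 ≤ s * Q)
    (h2 : Q * d ≤ q ^ 2 * (t / (n - 1)) ^ (n - 1))
    (h3 : 1 ≤ (((n - 1 : ℝ) / μ) ^ (n - 1) / (β ^ 2 - q ^ 2 + μ / (n - 1))) * d) :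
    0 ≤ (s + t + q ^ 2 - (β ^ 2 + μ)) / d +
      2 * ((((n - 1 : ℝ) / μ) ^ (n - 1) / (2 * β ^ 2)) * (β ^ 2 - q ^ 2)) * Q +
      (((n - 1 : ℝ) / μ) ^ (n - 1) / (2 * β ^ 2)) * (n * (β ^ 2 - q ^ 2) - 2 * q ^ 2) +
      (β ^ 2 + μ) *
        ((((n - 1 : ℝ) / μ) ^ (n - 1) / (β ^ 2 - q ^ 2 + μ / (n - 1))) - 1 / d) := by
  obtain ⟨k, rfl⟩ : ∃ k, n = k + 1 := ⟨n - 1, by omega⟩
  have hk : 1 ≤ k := by omega
  have hkn : k + 1 - 1 = k := by omega
  have hcast : ((k + 1 : ℕ) : ℝ) - 1 = k := by push_cast; ring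
  have hcast2 : ((k + 1 : ℕ) : ℝ) = (k : ℝ) + 1 := by push_cast; ring
  rw [hkn, hcast] at h2 h3
  rw [hkn, hcast, hcast2]
  have hN : (1 : ℝ) ≤ k := by exact_mod_cast hk
  have hN0 : (0 : ℝ) < k := by linarith
  have hp : 0 < q ^ 2 := by positivity
  have hB : 0 < β ^ 2 := by positivity
  have hpB : q ^ 2 ≤ β ^ 2 := by gcongr
  set m : ℝ := β ^ 2 - q ^ 2 + μ / k with hm
  have hm0 : 0 < m := by
    have : 0 < μ / k := by positivity
    rw [hm]; linarith
  have hC : 0 < ((k : ℝ) / μ) ^ k := by positivity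
  have hy : 0 < Q / q ^ 2 * m := by positivity
  set y : ℝ := Q / q ^ 2 * m with hyd
  obtain ⟨z, hz, hzy⟩ : ∃ z : ℝ, 0 < z ∧ z ^ k = y := by
    refine ⟨y ^ ((k : ℝ)⁻¹), Real.rpow_pos_of_pos hy _, ?_⟩
    exact Real.rpow_inv_natCast_pow hy.le (by omega)
  have hsm : m / y ≤ s := by
    rw [div_le_iff₀ hy, hyd]
    have h5 : 1 ≤ s * (Q / q ^ 2) := by
      rw [← mul_div_assoc, le_div_iff₀ hp]; linarith
    calc m = 1 * m := by ring
      _ ≤ (s * (Q / q ^ 2)) * m := by gcongr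
      _ = s * (Q / q ^ 2 * m) := by ring
  have htz : μ * z ≤ t := by
    have h5 : (μ * z / k) ^ k ≤ (t / k) ^ k := by
      have h6 : Q / q ^ 2 * d ≤ (t / k) ^ k := by
        rw [div_mul_eq_mul_div, div_le_iff₀ hp]; linarith
      have h7 : (μ * z / k) ^ k ≤ Q / q ^ 2 * d := by
        have h8 : (μ * z / k) ^ k = y * (μ / k) ^ k := by
          rw [← hzy]
          rw [← mul_pow]; congr 1; ring
        rw [h8, hyd]
        have h9 : m * (μ / k) ^ k ≤ d := by
          have h10 : m ≤ ((k : ℝ) / μ) ^ k * d := by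
            rw [div_mul_eq_mul_div, le_div_iff₀ hm0] at h3
            linarith
          calc m * (μ / k) ^ k ≤ (((k : ℝ) / μ) ^ k * d) * (μ / k) ^ k := by gcongr
            _ = (((k : ℝ) / μ) * (μ / k)) ^ k * d := by rw [mul_pow]; ring
            _ = d := by
              have : ((k : ℝ) / μ) * (μ / k) = 1 := by field_simp
              rw [this, one_pow, one_mul]
        calc Q / q ^ 2 * m * (μ / k) ^ k = Q / q ^ 2 * (m * (μ / k) ^ k) := by ring
          _ ≤ Q / q ^ 2 * d := by gcongr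
      exact h7.trans h6
    have h11 : μ * z / k ≤ t / k :=
      le_of_pow_le_pow_left₀ (by omega) (by positivity) h5
    exact (div_le_div_iff_of_pos_right hN0).1 h11
  have hb : (k : ℝ) + 1 ≤ 1 / y + k * z := by
    rw [← hzy]; exact scalu_bern k hz
  exact scalu_core hN hB hμ hp hpB hC hm hd hQ hy hyd hsm htz h3 hb

end Pool.Agent.RU
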