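import Pool.Agent.H.MP_1b807b_an.U.MatDir
import Pool.Agent.H.MP_1b807b_an.U.ScalU

/-! MP_1b807b_an, universal bound, module CertB: the second certificate -/

set_option autoImplicit false

namespace Pool.Agent.RU

open MeasureTheory Metric Set Filter Pool.Agent.RG
open scoped RealInnerProductSpace Topology NNReal ENNReal

variable {n : ℕ}

/-- PROOF: `mat_dir` and `scal` (`⟨S⁻¹ ξ, ξ⟩ > 0` follows from `‖ξ‖² ≤ s ⟨S⁻¹ ξ, ξ⟩`). -/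
theorem certB {β μ : ℝ} (hn : 2 ≤ n) (hβ : 0 < β) (hμ : 0 < μ) :
    IsCert n β (β ^ 2 + μ)
      (fun ξ : E n => ((n - 1 : ℝ) / μ) ^ (n - 1) / (β ^ 2 - ‖ξ‖ ^ 2 + μ / (n - 1)))
      (((n - 1 : ℝ) / μ) ^ (n - 1) / (2 * β ^ 2))
      (((n - 1 : ℝ) / μ) ^ (n - 1) / (β ^ 2 + μ / (n - 1))) := by
  have hn1 : (0 : ℝ) < n - 1 := by
    have : (2 : ℝ) ≤ n := by exact_mod_cast hn
    linarith
  have hC : 0 < ((n - 1 : ℝ) / μ) ^ (n - 1) := pow_pos (div_pos hn1 hμ) _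
  have hm : 0 < μ / (n - 1) := div_pos hμ hn1
  have hden : ∀ ξ : E n, ‖ξ‖ ≤ β → 0 < β ^ 2 - ‖ξ‖ ^ 2 + μ / (n - 1) := by
    intro ξ hξ
    have h1 : ‖ξ‖ ^ 2 ≤ β ^ 2 := pow_le_pow_left₀ (norm_nonneg _) hξ 2
    linarith
  refine ⟨?_, ?_, ?_, ?_, ?_⟩
  · refine ContinuousOn.div continuousOn_const (by fun_prop) fun ξ hξ => ?_
    exact (hden ξ (mem_closedBall_zero_iff.1 hξ)).ne'
  · exact div_pos hC (by positivity)
  · intro ξ hξ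
    refine div_le_div_of_nonneg_left hC.le (hden ξ hξ) ?_
    have := sq_nonneg ‖ξ‖
    linarith
  · exact div_nonneg hC.le (by positivity)
  · intro S hs hp hd ξ hξ hξβ h3
    obtain ⟨hd0, s, t, hs0, ht0, htr, h1, h2⟩ := mat_dir hn hs hp hd hξ
    have hq : 0 < ‖ξ‖ := norm_pos_iff.2 hξ
    have hQ : 0 < ⟪S.inverse ξ, ξ⟫ := by
      have h4 : 0 < s * ⟪S.inverse ξ, ξ⟫ := (pow_pos hq 2).trans_le h1
      exact (mul_pos_iff_of_pos_left hs0).1 h4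
    have h4 := scal hn hβ hμ hq hξβ hs0 ht0 hd0 hQ h1 h2 h3
    rw [htr]
    exact h4

end Pool.Agent.RU
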