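import Pool.Agent.H.MP_1b807b_an.U.DefsU
import Pool.Agent.H.MP_1b807b_an.G.Limit

/-! MP_1b807b_an, universal bound, module RobinExp: the test function `e^φ` -/

set_option autoImplicit false

namespace Pool.Agent.RU

open MeasureTheory Metric Set Filter Pool.Agent.RG
open scoped RealInnerProductSpace Topology NNReal ENNReal

variable {n : ℕ}

private theorem robinexp_tr : Continuous (tr : (E n →L[ℝ] E n) → ℝ) := by
  unfold tr
  refine continuous_finsetSum _ fun i _ => ?_
  have h1 : Continuous fun A : E n →L[ℝ] E n => A (EuclideanSpace.single i 1) :=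
    continuous_id.clm_apply continuous_const
  exact (EuclideanSpace.proj (𝕜 := ℝ) i).continuous.comp h1

/-- the trace of the derivative of a product -/
private theorem robinexp_trmul (c : ℝ) (A : E n →L[ℝ] E n) (ℓ : E n →L[ℝ] ℝ) (v : E n)
    (w : E n) (hℓ : ∀ y, ℓ y = ⟪w, y⟫) :
    tr (c • A + ℓ.smulRight v) = c * tr A + ⟪w, v⟫ := by
  unfold tr
  have h1 : ∀ i : Fin n, ((c • A + ℓ.smulRight v) (EuclideanSpace.single i 1)) i =
      c * (A (EuclideanSpace.single i 1)) i + w i * v i := by
    intro i
    have h2 : ℓ (EuclideanSpace.single i 1) = w i := by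
      rw [hℓ, EuclideanSpace.inner_single_right]
      simp
    simp [h2]
  rw [Finset.sum_congr rfl fun i _ => h1 i, Finset.sum_add_distrib, ← Finset.mul_sum]
  congr 1
  rw [PiLp.inner_apply]
  refine Finset.sum_congr rfl fun i _ => ?_
  simp [mul_comm]

/-- PROOF: `u = e^φ` is `C¹` with `∇u = u T`. Let `S j` be the mollifications of `T`
(`exists_smooth`). The divergence theorem for the `C¹` field `u² S j` gives
`∫_D u² (2 ⟨T, S j⟩ + tr (D S j)) = ∫_{∂D} u² ⟨S j, ν⟩ ≤ β ∫_{∂D} u²`; let `j → ∞` (dominated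
convergence, as `Limit_vol`), so `β ∫_{∂D} u² ≥ ∫_D u² (2 ‖T‖² + tr DT)`, and
`∫_D |∇u|² = ∫_D u² ‖T‖²`. -/
theorem robin_le_exp (D : Domain n) {β : ℝ} (hβ : 0 < β) {K : ℝ≥0} {T : E n → E n}
    (hT : LipschitzWith K T) (hTR : ∀ x, ‖T x‖ ≤ β) {φ : E n → ℝ}
    (hφ : ∀ x, HasFDerivAt φ (innerSL ℝ (T x)) x) :
    D.robin (-β) ≤ ((-(∫ x in D.carrier, Real.exp (2 * φ x) * (tr (fderiv ℝ T x) + ‖T x‖ ^ 2)) /
      ∫ x in D.carrier, Real.exp (2 * φ x) : ℝ) : EReal) := by
  obtain ⟨S, hS1, hS2, hS3, hS4, hS5⟩ := exists_smooth hT hTR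
  have hfin : IsFiniteMeasure (volume.restrict D.carrier) :=
    ⟨by rw [Measure.restrict_apply_univ]; exact D.isBounded.measure_lt_top⟩
  have hfin' := D.isFinite
  have hφc : Continuous φ := continuous_iff_continuousAt.2 fun x => (hφ x).continuousAt
  have hφ1 : ContDiff ℝ 1 φ := by
    rw [contDiff_one_iff_fderiv]
    refine ⟨fun x => (hφ x).differentiableAt, ?_⟩
    have : fderiv ℝ φ = fun x => innerSL ℝ (T x) := funext fun x => (hφ x).fderiv
    rw [this]
    exact (innerSL ℝ (E := E n)).continuous.comp hT.continuous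
  have hu1 : ContDiff ℝ 1 (fun x => Real.exp (φ x)) := Real.contDiff_exp.comp hφ1
  have he1 : ContDiff ℝ 1 (fun x => Real.exp (2 * φ x)) :=
    Real.contDiff_exp.comp (contDiff_const.mul hφ1)
  have hec : Continuous (fun x => Real.exp (2 * φ x)) := he1.continuous
  have hsq : ∀ x, Real.exp (φ x) ^ 2 = Real.exp (2 * φ x) := by
    intro x
    rw [← Real.exp_nat_mul]
    norm_num
  have he' : ∀ x, HasFDerivAt (fun x => Real.exp (2 * φ x))
      ((Real.exp (2 * φ x) * 2) • innerSL ℝ (T x)) x := by
    intro x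
    have h1 := ((hφ x).const_mul 2).exp
    rw [smul_smul] at h1
    exact h1
  have hu' : ∀ x, HasFDerivAt (fun x => Real.exp (φ x))
      (Real.exp (φ x) • innerSL ℝ (T x)) x := fun x => (hφ x).exp
  -- a bound for the weight
  obtain ⟨C, hC⟩ := (D.isBounded.isCompact_closure).exists_bound_of_continuousOn
    (f := fun x => Real.exp (2 * φ x)) hec.continuousOn
  have hCn : ∀ x ∈ D.carrier, Real.exp (2 * φ x) ≤ C := by
    intro x hx
    have := hC x (subset_closure hx)
    rwa [Real.norm_of_nonneg (Real.exp_pos _).le] at this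
  obtain ⟨C', hC'⟩ : ∃ C' : ℝ, ∀ x ∈ frontier D.carrier, Real.exp (2 * φ x) ≤ C' := by
    refine ⟨C, fun x hx => ?_⟩
    have := hC x (frontier_subset_closure hx)
    rwa [Real.norm_of_nonneg (Real.exp_pos _).le] at this
  have hsupp : ∀ᵐ x ∂D.surface, x ∈ frontier D.carrier := D.support
  -- the divergence theorem
  have hdiv : ∀ j, ∫ x in D.carrier, Real.exp (2 * φ x) *
      (tr (fderiv ℝ (S j) x) + 2 * ⟪T x, S j x⟫) ≤
      β * ∫ x, Real.exp (2 * φ x) ∂D.surface := by
    intro j
    have h1 := D.divergence (fun x => Real.exp (2 * φ x) • S j x) (he1.smul (hS1 j))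
    have h2 : ∀ x, divg (fun x => Real.exp (2 * φ x) • S j x) x =
        Real.exp (2 * φ x) * (tr (fderiv ℝ (S j) x) + 2 * ⟪T x, S j x⟫) := by
      intro x
      have h3 : HasFDerivAt (fun x => Real.exp (2 * φ x) • S j x)
          (Real.exp (2 * φ x) • fderiv ℝ (S j) x +
            ((Real.exp (2 * φ x) * 2) • innerSL ℝ (T x)).smulRight (S j x)) x :=
        (he' x).smul (((hS1 j).differentiable one_ne_zero) x).hasFDerivAt
      unfold divg
      rw [h3.fderiv, robinexp_trmul _ _ _ _ ((Real.exp (2 * φ x) * 2) • T x)]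
      · rw [real_inner_smul_left]
        ring
      · intro y
        rw [real_inner_smul_left]
        simp
    simp_rw [h2] at h1
    rw [h1, ← integral_const_mul]
    have hint2 : Integrable (fun x => Real.exp (2 * φ x)) D.surface := by
      refine Integrable.of_bound hec.aestronglyMeasurable C' ?_
      filter_upwards [hsupp] with x hx
      rw [Real.norm_of_nonneg (Real.exp_pos _).le]
      exact hC' x hx
    refine integral_mono_ae ?_ (hint2.const_mul β) ?_
    · refine Integrable.of_bound (Measurable.aestronglyMeasurable ?_) (C' * β) ?_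
      · exact (hec.measurable.smul (hS1 j).continuous.measurable).inner D.measurable_normal
      · filter_upwards [hsupp, D.norm_normal] with x hx hx'
        refine (norm_inner_le_norm _ _).trans ?_
        rw [hx', mul_one, norm_smul, Real.norm_of_nonneg (Real.exp_pos _).le]
        exact mul_le_mul (hC' x hx) (hS2 j x) (norm_nonneg _)
          ((Real.exp_pos _).le.trans (hC' x hx))
    · filter_upwards [D.norm_normal] with x hx'
      show ⟪Real.exp (2 * φ x) • S j x, D.normal x⟫ ≤ β * Real.exp (2 * φ x)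
      refine (real_inner_le_norm _ _).trans ?_
      rw [hx', mul_one, norm_smul, Real.norm_of_nonneg (Real.exp_pos _).le, mul_comm β]
      exact mul_le_mul_of_nonneg_left (hS2 j x) (Real.exp_pos _).le
  -- the limit
  have hcomp : IsCompact (closedBall (0 : E n →L[ℝ] E n) K) := isCompact_closedBall _ _
  obtain ⟨C1, hC1⟩ := hcomp.exists_bound_of_continuousOn
    (f := (tr : (E n →L[ℝ] E n) → ℝ)) robinexp_tr.continuousOn
  have hC1' : ∀ A : E n →L[ℝ] E n, ‖A‖ ≤ K → |tr A| ≤ C1 := fun A hA =>
    hC1 A (by rw [mem_closedBall, dist_zero_right]; exact hA)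
  have hlim : Tendsto (fun j => ∫ x in D.carrier, Real.exp (2 * φ x) *
      (tr (fderiv ℝ (S j) x) + 2 * ⟪T x, S j x⟫)) atTop
      (𝓝 (∫ x in D.carrier, Real.exp (2 * φ x) *
      (tr (fderiv ℝ T x) + 2 * ‖T x‖ ^ 2))) := by
    refine tendsto_integral_of_dominated_convergence (fun _ => C * (C1 + 2 * (β * β)))
      (fun j => ?_) (integrable_const _) (fun j => ?_) ?_
    · refine Continuous.aestronglyMeasurable (hec.mul (Continuous.add ?_ ?_))
      · exact robinexp_tr.comp ((hS1 j).continuous_fderiv one_ne_zero)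
      · exact continuous_const.mul (hT.continuous.inner (hS1 j).continuous)
    · rw [ae_restrict_iff' D.isOpen.measurableSet]
      refine Eventually.of_forall fun x hx => ?_
      rw [norm_mul, Real.norm_of_nonneg (Real.exp_pos _).le]
      refine mul_le_mul (hCn x hx) ?_ (norm_nonneg _) ((Real.exp_pos _).le.trans (hCn x hx))
      refine (norm_add_le _ _).trans (add_le_add ?_ ?_)
      · exact hC1' _ (hS3 j x)
      · rw [norm_mul, Real.norm_of_nonneg (by norm_num : (0:ℝ) ≤ 2)]
        refine mul_le_mul_of_nonneg_left ?_ (by norm_num)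
        exact (norm_inner_le_norm _ _).trans (mul_le_mul (hTR x) (hS2 j x) (norm_nonneg _) hβ.le)
    · refine ae_restrict_of_ae ?_
      filter_upwards [hS5] with x hx
      refine Tendsto.const_mul _ (Tendsto.add ?_ ?_)
      · exact (robinexp_tr.tendsto _).comp hx
      · refine Tendsto.const_mul _ ?_
        rw [← real_inner_self_eq_norm_sq]
        exact tendsto_const_nhds.inner (hS4 x)
  have hmain := le_of_tendsto' hlim hdiv
  -- positivity
  have hpos : 0 < volume.real D.carrier := by
    rw [measureReal_def, ENNReal.toReal_pos_iff]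
    exact ⟨D.isOpen.measure_pos volume D.isConnected.nonempty, D.isBounded.measure_lt_top⟩
  have hinte : Integrable (fun x => Real.exp (2 * φ x)) (volume.restrict D.carrier) := by
    refine Integrable.of_bound hec.aestronglyMeasurable C ?_
    rw [ae_restrict_iff' D.isOpen.measurableSet]
    refine Eventually.of_forall fun x hx => ?_
    rw [Real.norm_of_nonneg (Real.exp_pos _).le]
    exact hCn x hx
  have hupos : 0 < ∫ x in D.carrier, Real.exp (2 * φ x) := by
    rw [integral_pos_iff_support_of_nonneg (fun x => (Real.exp_pos _).le) hinte]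
    have : Function.support (fun x => Real.exp (2 * φ x)) = univ := by
      ext x; simp [Function.mem_support]
    rw [this, Measure.restrict_apply_univ]
    exact D.isOpen.measure_pos volume D.isConnected.nonempty
  -- integrability of the two pieces
  have hmeasD : Measurable (fun x => fderiv ℝ T x) := measurable_fderiv ℝ T
  have hKf : ∀ x, ‖fderiv ℝ T x‖ ≤ K := fun x => norm_fderiv_le_of_lipschitz ℝ hT
  have hi1 : Integrable (fun x => Real.exp (2 * φ x) * (tr (fderiv ℝ T x) + ‖T x‖ ^ 2))
      (volume.restrict D.carrier) := by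
    refine Integrable.of_bound (Measurable.aestronglyMeasurable ?_) (C * (C1 + β ^ 2)) ?_
    · exact hec.measurable.mul ((robinexp_tr.measurable.comp hmeasD).add
        ((hT.continuous.norm.pow 2).measurable))
    · rw [ae_restrict_iff' D.isOpen.measurableSet]
      refine Eventually.of_forall fun x hx => ?_
      rw [norm_mul, Real.norm_of_nonneg (Real.exp_pos _).le]
      refine mul_le_mul (hCn x hx) ?_ (norm_nonneg _) ((Real.exp_pos _).le.trans (hCn x hx))
      refine (norm_add_le _ _).trans (add_le_add (hC1' _ (hKf x)) ?_)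
      rw [Real.norm_of_nonneg (by positivity)]
      exact pow_le_pow_left₀ (norm_nonneg _) (hTR x) 2
  have hi2 : Integrable (fun x => Real.exp (2 * φ x) * ‖T x‖ ^ 2)
      (volume.restrict D.carrier) := by
    refine Integrable.of_bound (Continuous.aestronglyMeasurable
      (hec.mul (hT.continuous.norm.pow 2))) (C * β ^ 2) ?_
    rw [ae_restrict_iff' D.isOpen.measurableSet]
    refine Eventually.of_forall fun x hx => ?_
    rw [norm_mul, Real.norm_of_nonneg (Real.exp_pos _).le]
    refine mul_le_mul (hCn x hx) ?_ (norm_nonneg _) ((Real.exp_pos _).le.trans (hCn x hx))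
    rw [Real.norm_of_nonneg (by positivity)]
    exact pow_le_pow_left₀ (norm_nonneg _) (hTR x) 2
  have hsplit : (∫ x in D.carrier, Real.exp (2 * φ x) * (tr (fderiv ℝ T x) + 2 * ‖T x‖ ^ 2)) =
      (∫ x in D.carrier, Real.exp (2 * φ x) * (tr (fderiv ℝ T x) + ‖T x‖ ^ 2)) +
      ∫ x in D.carrier, Real.exp (2 * φ x) * ‖T x‖ ^ 2 := by
    rw [← integral_add hi1 hi2]
    refine integral_congr_ae (Eventually.of_forall fun x => ?_)
    show _ = _
    ring
  -- the Rayleigh quotient
  have hray : D.rayleigh (-β) (fun x => Real.exp (φ x)) ≤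
      -(∫ x in D.carrier, Real.exp (2 * φ x) * (tr (fderiv ℝ T x) + ‖T x‖ ^ 2)) /
      ∫ x in D.carrier, Real.exp (2 * φ x) := by
    unfold Domain.rayleigh
    simp_rw [hsq]
    have h4 : ∀ x, ‖fderiv ℝ (fun x => Real.exp (φ x)) x‖ ^ 2 =
        Real.exp (2 * φ x) * ‖T x‖ ^ 2 := by
      intro x
      rw [(hu' x).fderiv, norm_smul, innerSL_apply_norm, mul_pow,
        Real.norm_of_nonneg (Real.exp_pos _).le, hsq]
    simp_rw [h4]
    refine div_le_div_of_nonneg_right ?_ hupos.le
    linarith
  refine le_trans (sInf_le ⟨fun x => Real.exp (φ x), hu1, ?_, rfl⟩) (EReal.coe_le_coe_iff.2 hray)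
  simp_rw [hsq]
  exact hupos

end Pool.Agent.RU
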