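import Pool.Agent.H.MP_1b807b_an.U.DefsU
import Pool.Agent.H.MP_1b807b_an.G.Push

/-! MP_1b807b_an, universal bound, module DetW: the determinant inequality (weighted version of G/Push) -/

set_option autoImplicit false

namespace Pool.Agent.RU

open MeasureTheory Metric Set Filter Pool.Agent.RG
open scoped RealInnerProductSpace Topology NNReal ENNReal

variable {n : ℕ}

private theorem detw_lintegral {μ : Measure (E n)} [IsFiniteMeasure μ]
    (f : BoundedContinuousFunction (E n) NNReal) (hf1 : ∀ x, f x ≤ 1) :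
    ∫⁻ x, (f x : ENNReal) ∂μ = ENNReal.ofReal (∫ x, (f x : ℝ) ∂μ) := by
  rw [ofReal_integral_eq_lintegral_ofReal]
  · refine lintegral_congr fun x => ?_
    rw [ENNReal.ofReal_coe_nnreal]
  · refine Integrable.of_bound (C := 1) ?_ ?_
    · exact (NNReal.continuous_coe.comp f.continuous).aestronglyMeasurable
    · refine Filter.Eventually.of_forall fun x => ?_
      rw [Real.norm_eq_abs, abs_of_nonneg (NNReal.coe_nonneg _)]
      exact_mod_cast hf1 x
  · exact Filter.Eventually.of_forall fun x => NNReal.coe_nonneg _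

private theorem detw_closed {μ ν : Measure (E n)} [IsFiniteMeasure μ] [IsFiniteMeasure ν]
    (h : ∀ χ : E n → ℝ, Continuous χ → (∀ ξ, 0 ≤ χ ξ) → ∫ x, χ x ∂μ ≤ ∫ x, χ x ∂ν)
    {F : Set (E n)} (hF : IsClosed F) : μ F ≤ ν F := by
  have hδ : ∀ j : ℕ, (0 : ℝ) < 1 / ((j : ℝ) + 1) := fun j => by positivity
  have hlim : Filter.Tendsto (fun j : ℕ => (1 : ℝ) / ((j : ℝ) + 1)) Filter.atTop (nhds 0) :=
    tendsto_one_div_add_atTop_nhds_zero_nat
  have h1 := tendsto_lintegral_thickenedIndicator_of_isClosed μ hF hδ hlim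
  have h2 := tendsto_lintegral_thickenedIndicator_of_isClosed ν hF hδ hlim
  refine le_of_tendsto_of_tendsto' h1 h2 fun j => ?_
  have hle : ∀ x, thickenedIndicator (hδ j) F x ≤ 1 := fun x => thickenedIndicator_le_one (hδ j) F x
  have e1 := detw_lintegral (μ := μ) (thickenedIndicator (hδ j) F) hle
  have e2 := detw_lintegral (μ := ν) (thickenedIndicator (hδ j) F) hle
  calc (∫⁻ x, (thickenedIndicator (hδ j) F x : ENNReal) ∂μ)
      = ENNReal.ofReal (∫ x, (thickenedIndicator (hδ j) F x : ℝ) ∂μ) := e1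
    _ ≤ ENNReal.ofReal (∫ x, (thickenedIndicator (hδ j) F x : ℝ) ∂ν) := by
        refine ENNReal.ofReal_le_ofReal (h _ ?_ ?_)
        · exact NNReal.continuous_coe.comp (thickenedIndicator (hδ j) F).continuous
        · exact fun x => NNReal.coe_nonneg _
    _ = ∫⁻ x, (thickenedIndicator (hδ j) F x : ENNReal) ∂ν := e2.symm

private theorem detw_meas {μ ν : Measure (E n)} [IsFiniteMeasure μ] [IsFiniteMeasure ν]
    (h : ∀ χ : E n → ℝ, Continuous χ → (∀ ξ, 0 ≤ χ ξ) → ∫ x, χ x ∂μ ≤ ∫ x, χ x ∂ν)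
    {C : Set (E n)} (hC : MeasurableSet C) : μ C ≤ ν C := by
  rw [hC.measure_eq_iSup_isClosed_of_ne_top (measure_ne_top μ C)]
  refine iSup_le fun F => iSup_le fun hFC => iSup_le fun hF => ?_
  exact (detw_closed h hF).trans (measure_mono hFC)

private theorem detw_rat {a d : ℝ} (ha : 0 ≤ a) (hd : 0 ≤ d) (h : a * d < 1) :
    ∃ p r : ℚ, a < p ∧ d < r ∧ (p : ℝ) * r < 1 := by
  set ε : ℝ := (1 - a * d) / (2 * (a + d + 1)) with hε
  have had : 0 ≤ a * d := mul_nonneg ha hd
  have h0 : 0 < ε := div_pos (by linarith) (by linarith)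
  have h1 : ε ≤ 1 := by
    rw [hε, div_le_one (by linarith)]
    linarith
  have h2 : ε * (a + d + 1) = (1 - a * d) / 2 := by
    rw [hε]
    have : a + d + 1 ≠ 0 := by linarith
    field_simp
  obtain ⟨p, hp1, hp2⟩ := exists_rat_btwn (show a < a + ε by linarith)
  obtain ⟨r, hr1, hr2⟩ := exists_rat_btwn (show d < d + ε by linarith)
  refine ⟨p, r, hp1, hr1, ?_⟩
  have h3 : (p : ℝ) * r ≤ (a + ε) * (d + ε) :=
    mul_le_mul hp2.le hr2.le (by linarith) (by linarith)
  nlinarith

/-- PROOF: as `one_le_det` in `G/Push.lean`: first `volume (A ∩ T ⁻¹' C) ≤ ∫⁻ ξ in C ∩ closedBall 0 R,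
ofReal (f ξ)` for measurable `C` (as `push_meas` there, with `ν` the measure with density `f`). If
`f (T x) |det| < 1` on a set of positive measure then for some rational `p, r > 0` with `p r < 1`
also `f (T x) < p` and `|det| < r` on a set `X ⊆ A` of positive measure, and
`|X| ≤ |A ∩ T⁻¹ C| ≤ p |C| = p |T(X)| ≤ p r |X|`, where `C` is a measurable hull of `T(X)`
intersected with `{ξ ∈ closedBall 0 R | f ξ < p}`. -/
theorem one_le_det_w {R : ℝ} {f : E n → ℝ} (hf : ContinuousOn f (closedBall (0 : E n) R))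
    (hf0 : ∀ ξ ∈ closedBall (0 : E n) R, 0 ≤ f ξ) {A : Set (E n)} (hA : MeasurableSet A)
    (hfin : volume A ≠ ⊤) {T : E n → E n} (hT : Continuous T) (hTR : ∀ x, ‖T x‖ ≤ R)
    (h : ∀ χ : E n → ℝ, Continuous χ → (∀ ξ, 0 ≤ χ ξ) →
      ∫ x in A, χ (T x) ≤ ∫ ξ in closedBall (0 : E n) R, f ξ * χ ξ) :
    ∀ᵐ x ∂(volume.restrict A), DifferentiableAt ℝ T x →
      1 ≤ f (T x) * |(fderiv ℝ T x).det| := by
  have hf1 : IsFiniteMeasure (volume.restrict A) :=
    ⟨by rw [Measure.restrict_apply_univ]; exact lt_top_iff_ne_top.2 hfin⟩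
  have hTB : ∀ x, T x ∈ closedBall (0 : E n) R := fun x => by
    rw [mem_closedBall_zero_iff]
    exact hTR x
  have hB : MeasurableSet (closedBall (0 : E n) R) := isClosed_closedBall.measurableSet
  obtain ⟨M, hM⟩ := (isCompact_closedBall (0 : E n) R).exists_bound_of_continuousOn hf
  have hfm : AEMeasurable (fun ξ => ENNReal.ofReal (f ξ))
      ((volume : Measure (E n)).restrict (closedBall (0 : E n) R)) :=
    (hf.aemeasurable hB).ennreal_ofReal
  -- the measure with the density `f`
  obtain ⟨ν, hν⟩ : ∃ ν : Measure (E n), ν =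
      ((volume : Measure (E n)).restrict (closedBall (0 : E n) R)).withDensity
        (fun ξ => ENNReal.ofReal (f ξ)) := ⟨_, rfl⟩
  have hf2 : IsFiniteMeasure ν := by
    rw [hν]
    refine isFiniteMeasure_withDensity ?_
    refine ne_top_of_le_ne_top (b := ENNReal.ofReal M * volume (closedBall (0 : E n) R)) ?_ ?_
    · exact ENNReal.mul_ne_top ENNReal.ofReal_ne_top measure_closedBall_lt_top.ne
    · rw [← setLIntegral_const]
      refine setLIntegral_mono' hB fun ξ hξ => ENNReal.ofReal_le_ofReal ?_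
      exact (le_abs_self _).trans (hM ξ hξ)
  have hνint : ∀ χ : E n → ℝ, ∫ ξ, χ ξ ∂ν = ∫ ξ in closedBall (0 : E n) R, f ξ * χ ξ := by
    intro χ
    rw [hν, integral_withDensity_eq_integral_toReal_smul₀ hfm
      (Filter.Eventually.of_forall fun ξ => ENNReal.ofReal_lt_top)]
    refine setIntegral_congr_fun hB fun ξ hξ => ?_
    show (ENNReal.ofReal (f ξ)).toReal • χ ξ = f ξ * χ ξ
    rw [ENNReal.toReal_ofReal (hf0 ξ hξ), smul_eq_mul]
  have hmeas : ∀ C : Set (E n), MeasurableSet C → volume (A ∩ T ⁻¹' C) ≤ ν C := by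
    intro C hC
    have h1 : ((volume.restrict A).map T) C ≤ ν C := by
      refine detw_meas ?_ hC
      intro χ hχ hχ0
      rw [integral_map hT.aemeasurable hχ.aestronglyMeasurable, hνint]
      exact h χ hχ hχ0
    rw [Measure.map_apply hT.measurable hC, Measure.restrict_apply (hT.measurable hC)] at h1
    rw [inter_comm]
    exact h1
  have hfT : Continuous fun x => f (T x) := hf.comp_continuous hT hTB
  let X : ℚ × ℚ → Set (E n) := fun q =>
    A ∩ ({x | DifferentiableAt ℝ T x} ∩ ({x | |(fderiv ℝ T x).det| < q.2} ∩ {x | f (T x) < q.1}))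
  have hXm : ∀ q, MeasurableSet (X q) := by
    intro q
    refine hA.inter ((measurableSet_of_differentiableAt ℝ T).inter (MeasurableSet.inter ?_ ?_))
    · have h1 : Measurable fun x => |(fderiv ℝ T x).det| :=
        (continuous_abs.comp ContinuousLinearMap.continuous_det).measurable.comp (measurable_fderiv ℝ T)
      exact measurableSet_lt h1 measurable_const
    · exact measurableSet_lt hfT.measurable measurable_const
  have hX0 : ∀ q : ℚ × ℚ, (q.1 : ℝ) * q.2 < 1 → volume (X q) = 0 := by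
    intro q hq
    have hXfin : volume (X q) ≠ ⊤ :=
      ne_top_of_le_ne_top hfin (measure_mono inter_subset_left)
    by_contra hne
    -- `p` and `r` are nonnegative
    obtain ⟨x0, hx0⟩ : (X q).Nonempty := nonempty_of_measure_ne_zero hne
    have hp0 : (0 : ℝ) ≤ q.1 := (hf0 _ (hTB x0)).trans hx0.2.2.2.le
    obtain ⟨U, hU, hU2⟩ := continuousOn_iff'.1 hf (Iio (q.1 : ℝ)) isOpen_Iio
    obtain ⟨C, hC⟩ : ∃ C : Set (E n), C = toMeasurable volume (T '' X q) ∩
      (U ∩ closedBall (0 : E n) R) := ⟨_, rfl⟩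
    have hCm : MeasurableSet C := by
      rw [hC]
      exact (measurableSet_toMeasurable _ _).inter (hU.measurableSet.inter hB)
    have h1 : volume (X q) ≤ ENNReal.ofReal (q.1 * q.2) * volume (X q) := by
      calc volume (X q) ≤ volume (A ∩ T ⁻¹' C) := by
            refine measure_mono fun x hx => ⟨hx.1, ?_⟩
            rw [mem_preimage, hC]
            refine ⟨subset_toMeasurable _ _ (mem_image_of_mem T hx), ?_⟩
            rw [← hU2]
            exact ⟨hx.2.2.2, hTB x⟩
        _ ≤ ν C := hmeas _ hCm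
        _ = ∫⁻ ξ in C, ENNReal.ofReal (f ξ) ∂(volume.restrict (closedBall (0 : E n) R)) := by
            rw [hν, withDensity_apply _ hCm]
        _ ≤ ∫⁻ _ in C, ENNReal.ofReal q.1 ∂(volume.restrict (closedBall (0 : E n) R)) := by
            refine setLIntegral_mono' hCm fun ξ hξ => ?_
            rw [hC] at hξ
            have h2 : ξ ∈ f ⁻¹' Iio (q.1 : ℝ) ∩ closedBall (0 : E n) R := by
              rw [hU2]
              exact hξ.2
            exact ENNReal.ofReal_le_ofReal (le_of_lt h2.1)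
        _ = ENNReal.ofReal q.1 * (volume.restrict (closedBall (0 : E n) R)) C := by
            rw [setLIntegral_const]
        _ ≤ ENNReal.ofReal q.1 * volume (T '' X q) := by
            refine mul_le_mul_right ?_ _
            refine (Measure.restrict_apply_le _ _).trans ?_
            rw [hC]
            exact (measure_mono inter_subset_left).trans (measure_toMeasurable _).le
        _ ≤ ENNReal.ofReal q.1 * ∫⁻ x in X q, ENNReal.ofReal |(fderiv ℝ T x).det| := by
            refine mul_le_mul_right ?_ _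
            refine addHaar_image_le_lintegral_abs_det_fderiv volume (hXm q) fun x hx => ?_
            exact (hx.2.1 : DifferentiableAt ℝ T x).hasFDerivAt.hasFDerivWithinAt
        _ ≤ ENNReal.ofReal q.1 * ∫⁻ _ in X q, ENNReal.ofReal q.2 := by
            refine mul_le_mul_right ?_ _
            refine setLIntegral_mono measurable_const fun x hx => ?_
            exact ENNReal.ofReal_le_ofReal (le_of_lt hx.2.2.1)
        _ = ENNReal.ofReal (q.1 * q.2) * volume (X q) := by
            rw [setLIntegral_const, ENNReal.ofReal_mul hp0, mul_assoc]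
    have h2 : ENNReal.ofReal (q.1 * q.2) < 1 := by
      rw [← ENNReal.ofReal_one]
      exact (ENNReal.ofReal_lt_ofReal_iff one_pos).2 hq
    have h3 : ENNReal.ofReal (q.1 * q.2) * volume (X q) < 1 * volume (X q) :=
      ENNReal.mul_lt_mul_left hne hXfin h2
    rw [one_mul] at h3
    exact absurd h1 (not_le.2 h3)
  have hall : ∀ᵐ x ∂(volume : Measure (E n)), ∀ q : ℚ × ℚ, (q.1 : ℝ) * q.2 < 1 → x ∉ X q := by
    rw [ae_all_iff]
    intro q
    by_cases hq : (q.1 : ℝ) * q.2 < 1
    · filter_upwards [measure_eq_zero_iff_ae_notMem.1 (hX0 q hq)] with x hx _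
      exact hx
    · exact Filter.Eventually.of_forall fun x hx => absurd hx hq
  rw [ae_restrict_iff' hA]
  filter_upwards [hall] with x hx hxA hd
  by_contra hlt
  rw [not_le] at hlt
  obtain ⟨p, r, hp, hr, hpr⟩ := detw_rat (hf0 _ (hTB x)) (abs_nonneg _) hlt
  exact hx (p, r) hpr ⟨hxA, hd, hr, hp⟩

end Pool.Agent.RU
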