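import Pool.Agent.H.MP_1b807b_an.U.DefsU
import Pool.Agent.H.MP_1b807b_an.G.MatIneq

/-! MP_1b807b_an, universal bound, module MatBad: the case of the eigenvalue `K` -/

set_option autoImplicit false

namespace Pool.Agent.RU

open MeasureTheory Metric Set Filter Pool.Agent.RG
open scoped RealInnerProductSpace Topology NNReal ENNReal

variable {n : ℕ}

/-- PROOF: as `mat_bad` in `G/MatIneq.lean`: the eigenvalues are in `[0, K]`, one of them is `K` and the
trace is their sum. -/
theorem tr_ge_of_eig {K : ℝ} (hK : 0 < K) {A : E n →L[ℝ] E n}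
    (hs : (A : E n →ₗ[ℝ] E n).IsSymmetric) (hf : ∀ v, ‖A v‖ ^ 2 ≤ K * ⟪A v, v⟫)
    (hd : (ContinuousLinearMap.id ℝ (E n) - K⁻¹ • A).det = 0) : K ≤ tr A := by
  have hfr : Module.finrank ℝ (E n) = n := finrank_euclideanSpace_fin
  set b := hs.eigenvectorBasis hfr with hb
  set μ := hs.eigenvalues hfr with hμ
  have hAb : ∀ i, A (b i) = μ i • b i := fun i => hs.apply_eigenvectorBasis hfr i
  have hbn : ∀ i, ‖b i‖ = 1 := fun i => b.orthonormal.1 i
  have hbi : ∀ i, ⟪b i, b i⟫ = (1 : ℝ) := fun i => by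
    rw [real_inner_self_eq_norm_sq, hbn i, one_pow]
  have hkey : ∀ i, μ i ^ 2 ≤ K * μ i := by
    intro i
    have h := hf (b i)
    rw [hAb i, norm_smul, hbn i, real_inner_smul_left, hbi i, mul_one, mul_one,
      Real.norm_eq_abs, sq_abs] at h
    exact h
  have h0 : ∀ i, 0 ≤ μ i := by
    intro i
    by_contra hc
    push Not at hc
    have h := hkey i
    have hne := hc.ne
    have h1 : 0 < μ i ^ 2 := by positivity
    have h2 : K * μ i ≤ 0 := mul_nonpos_of_nonneg_of_nonpos hK.le hc.le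
    linarith
  have htr : tr A = ∑ i, μ i := by
    rw [tr_eq_trace, hs.trace_eq_sum_eigenvalues hfr]
    simp [hμ]
  have hne : K ≠ 0 := hK.ne'
  obtain ⟨v, hv, hv0⟩ : ∃ v : E n, v ≠ 0 ∧
      (ContinuousLinearMap.id ℝ (E n) - K⁻¹ • A) v = 0 := by
    have hd' : LinearMap.det ((ContinuousLinearMap.id ℝ (E n) - K⁻¹ • A :
        E n →L[ℝ] E n) : E n →ₗ[ℝ] E n) = 0 := hd
    have hker := LinearMap.bot_lt_ker_of_det_eq_zero hd'
    obtain ⟨v, hv1, hv2⟩ := (Submodule.ne_bot_iff _).mp hker.ne'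
    exact ⟨v, hv2, hv1⟩
  have hAv : A v = K • v := by
    have h2 : v - K⁻¹ • A v = 0 := by simpa using hv0
    have h3 : v = K⁻¹ • A v := sub_eq_zero.mp h2
    have h4 := congrArg (fun z : E n => K • z) h3
    simp only [smul_smul, mul_inv_cancel₀ hne, one_smul] at h4
    exact h4.symm
  have heig : Module.End.HasEigenvalue (A : E n →ₗ[ℝ] E n) K := by
    refine Module.End.hasEigenvalue_of_hasEigenvector (x := v) ?_
    refine ⟨?_, hv⟩
    rw [Module.End.mem_eigenspace_iff]
    exact hAv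
  obtain ⟨j, hj⟩ := hs.exists_eigenvalues_eq hfr heig
  have hj' : μ j = K := by simpa [hμ] using hj
  rw [htr, ← hj']
  exact Finset.single_le_sum (f := μ) (fun i _ => h0 i) (Finset.mem_univ j)

end Pool.Agent.RU
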