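import Pool.Agent.H.MP_1b807b_an.U.DefsU

/-! MP_1b807b_an, universal bound, module MorGrad: the Moreau envelope is differentiable -/

set_option autoImplicit false

namespace Pool.Agent.RU

open MeasureTheory Metric Set Filter Pool.Agent.RG
open scoped RealInnerProductSpace Topology NNReal ENNReal

variable {n : ℕ}

/-- PROOF: with `y = x - K⁻¹ T x` (the proximal point) `mor K u x = u y + K/2 ‖x - y‖²`,
`T x` is a subgradient of `u` at `y` (`IsProx.subgrad`), so for all `x', z`: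
`u z + K/2 ‖x' - z‖² ≥ u y + ⟨T x, z - y⟩ + K/2 ‖x' - z‖² ≥ mor K u x + ⟨T x, x' - x⟩` (minimise in
`z`), the second claim; and `mor_le` with the point `y` gives
`mor K u x' ≤ mor K u x + ⟨T x, x' - x⟩ + K/2 ‖x' - x‖²`; so the first claim. -/
theorem mor_grad {R K : ℝ} (hR : 0 ≤ R) (hK : 0 < K) {u : E n → ℝ} (hc : ConvexOn ℝ univ u)
    (hu : ∀ y z, |u y - u z| ≤ R * ‖y - z‖) {T : E n → E n}
    (hprox : ∀ x, IsProx K u x (x - K⁻¹ • T x)) :
    (∀ x, HasFDerivAt (mor K u) (innerSL ℝ (T x)) x) ∧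
      ∀ x y, mor K u x + ⟪T x, y - x⟫ ≤ mor K u y := by
  have hT : ∀ x, K • (x - (x - K⁻¹ • T x)) = T x := by
    intro x
    rw [sub_sub_cancel, smul_smul, mul_inv_cancel₀ hK.ne', one_smul]
  refine ⟨fun x => ?_, fun x y => ?_⟩
  · have h1 := (hprox x).hasGradientAt hR hK hc hu
    rw [hT] at h1
    exact h1.hasFDerivAt
  · have hx := mor_eq (hprox x)
    have hy := mor_eq (hprox y)
    have h1 := (hprox x).subgrad hK hc (y - K⁻¹ • T y)
    have hTx := hT x
    rw [hx, hy]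
    generalize y - K⁻¹ • T y = y' at *
    generalize x - K⁻¹ • T x = p at *
    rw [← hTx]
    rw [real_inner_smul_left] at h1 ⊢
    have e2 : ‖(y - y') - (x - p)‖ ^ 2 =
        ‖y - y'‖ ^ 2 - 2 * ⟪y - y', x - p⟫ + ‖x - p‖ ^ 2 := norm_sub_sq_real _ _
    have e3 : ⟪x - p, y' - p⟫ + ⟪x - p, y - y'⟫ = ⟪x - p, y - x⟫ + ‖x - p‖ ^ 2 := by
      rw [← real_inner_self_eq_norm_sq, ← inner_add_right, ← inner_add_right]
      congr 1
      abel
    have e4 : ⟪y - y', x - p⟫ = ⟪x - p, y - y'⟫ := real_inner_comm _ _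
    have e5 : 0 ≤ ‖(y - y') - (x - p)‖ ^ 2 := sq_nonneg _
    rw [e2, e4] at e5
    nlinarith [mul_nonneg hK.le e5]

end Pool.Agent.RU
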