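import Pool.Agent.H.MP_1b807b_an.U.DefsU

/-! MP_1b807b_an, universal bound, module PushW: the one-sided Euler-Lagrange inequality (weighted version of G/Perturb) -/

set_option autoImplicit false

namespace Pool.Agent.RU

open MeasureTheory Metric Set Filter Pool.Agent.RG
open scoped RealInnerProductSpace Topology NNReal ENNReal

variable {n : ℕ}

private theorem pushw_cont {u : E n → ℝ} {R : ℝ} (hR : 0 ≤ R)
    (h : ∀ y z, |u y - u z| ≤ R * ‖y - z‖) : Continuous u := by
  have : LipschitzWith ⟨R, hR⟩ u := by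
    refine LipschitzWith.of_dist_le_mul fun y z => ?_
    rw [Real.dist_eq, dist_eq_norm]
    exact h y z
  exact this.continuous

/-- PROOF: copy of `push_le` in `G/Perturb.lean` with the weight `f` (the competitor is
`g + (1/(j+1)) χ`, which changes the first integral by `(1/(j+1)) ∫ f χ`). -/
theorem push_le_w {R K : ℝ} (hR : 0 < R) (hK : 0 < K) {Ω : Set (E n)} (hΩ : MeasurableSet Ω)
    (hb : Bornology.IsBounded Ω) {f : E n → ℝ} (hf : ContinuousOn f (closedBall (0 : E n) R))
    {g : E n → ℝ} (hg : Continuous g)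
    (hmin : ∀ h : E n → ℝ, Continuous h → FFw R K f Ω g ≤ FFw R K f Ω h)
    {T : E n → E n} (hT : Continuous T)
    (hprox : ∀ x, IsProx K (leg R g) x (x - K⁻¹ • T x))
    {χ : E n → ℝ} (hχ : Continuous χ) (h0 : ∀ ξ ∈ closedBall (0 : E n) R, 0 ≤ χ ξ) :
    ∫ x in Ω ∩ {x | DifferentiableAt ℝ (leg R g) (x - K⁻¹ • T x)}, χ (T x) ≤
      ∫ ξ in closedBall (0 : E n) R, f ξ * χ ξ := by
  set u : E n → ℝ := leg R g with hu
  set Y : E n → E n := fun x => x - K⁻¹ • T x with hY
  have hYc : Continuous Y := by fun_prop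
  set A : Set (E n) := Ω ∩ {x | DifferentiableAt ℝ u (x - K⁻¹ • T x)} with hA
  have hAm : MeasurableSet A := by
    refine hΩ.inter ?_
    exact hYc.measurable (measurableSet_of_differentiableAt ℝ u)
  set gj : ℕ → E n → ℝ := fun j ξ => g ξ + (1 / ((j : ℝ) + 1)) * χ ξ with hgj
  have hgjc : ∀ j, Continuous (gj j) := fun j => by
    simp only [hgj]; fun_prop
  have hε : ∀ j : ℕ, (0 : ℝ) < 1 / ((j : ℝ) + 1) := fun j => by positivity
  have hKT : ∀ x, K • (x - Y x) = T x := fun x => by
    simp only [hY, sub_sub_cancel, smul_smul, mul_inv_cancel₀ hK.ne', one_smul]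
  have huc : ConvexOn ℝ univ u := leg_convex hR.le hg
  have hul : ∀ y z, |u y - u z| ≤ R * ‖y - z‖ := leg_lip hR.le hg
  have hTb : ∀ x, T x ∈ closedBall (0 : E n) R := fun x => by
    rw [mem_closedBall_zero_iff, ← hKT x]
    exact (hprox x).norm_le hR.le hK huc hul
  have huj : ∀ j y z, |leg R (gj j) y - leg R (gj j) z| ≤ R * ‖y - z‖ := fun j =>
    leg_lip hR.le (hgjc j)
  have hint : ∀ F : E n → ℝ, Continuous F → IntegrableOn F Ω := fun F hF =>
    (hF.continuousOn.integrableOn_compact hb.isCompact_closure).mono_set subset_closure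
  have hucont : Continuous u := pushw_cont hR.le hul
  have hujc : ∀ j, Continuous (leg R (gj j)) := fun j => pushw_cont hR.le (huj j)
  have hmc : Continuous (mor K u) := pushw_cont hR.le (mor_lip hR.le hK huc hul)
  have hmjc : ∀ j, Continuous (mor K (leg R (gj j))) := fun j =>
    pushw_cont hR.le (mor_lip hR.le hK (leg_convex hR.le (hgjc j)) (huj j))
  -- the difference quotients
  set D : ℕ → E n → ℝ := fun j x => (u (Y x) - leg R (gj j) (Y x)) / (1 / ((j : ℝ) + 1)) with hD
  have hDc : ∀ j, Continuous (D j) := fun j => by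
    simp only [hD]
    exact ((hucont.comp hYc).sub ((hujc j).comp hYc)).div_const _
  have hD0 : ∀ j x, 0 ≤ D j x := fun j x => by
    refine div_nonneg (sub_nonneg.2 ?_) (hε j).le
    refine leg_anti hR.le hg (hgjc j) (fun ξ hξ => ?_) _
    simp only [hgj]
    have := mul_nonneg (hε j).le (h0 ξ hξ)
    linarith
  have hDle : ∀ j, ∫ x in Ω, D j x ≤ ∫ ξ in closedBall (0 : E n) R, f ξ * χ ξ := fun j => by
    have h1 := hmin (gj j) (hgjc j)
    unfold FFw at h1
    have hcb : ∀ F : E n → ℝ, Continuous F →
        IntegrableOn (fun ξ => f ξ * F ξ) (closedBall (0 : E n) R) := fun F hF =>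
      (hf.mul hF.continuousOn).integrableOn_compact (isCompact_closedBall _ _)
    have h2 : ∫ ξ in closedBall (0 : E n) R, f ξ * gj j ξ =
        (∫ ξ in closedBall (0 : E n) R, f ξ * g ξ) +
          (1 / ((j : ℝ) + 1)) * ∫ ξ in closedBall (0 : E n) R, f ξ * χ ξ := by
      have e1 : ∀ ξ, f ξ * gj j ξ = f ξ * g ξ + (1 / ((j : ℝ) + 1)) * (f ξ * χ ξ) := by
        intro ξ
        simp only [hgj]
        ring
      simp only [e1]
      rw [integral_add (hcb g hg) ((hcb χ hχ).const_mul _), integral_const_mul]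
    have h3 : ∫ x in Ω, (mor K u x - mor K (leg R (gj j)) x) =
        (∫ x in Ω, mor K u x) - ∫ x in Ω, mor K (leg R (gj j)) x :=
      integral_sub (hint _ hmc) (hint _ (hmjc j))
    have h4 : ∫ x in Ω, (u (Y x) - leg R (gj j) (Y x)) ≤
        ∫ x in Ω, (mor K u x - mor K (leg R (gj j)) x) := by
      refine integral_mono (hint _ ((hucont.comp hYc).sub ((hujc j).comp hYc)))
        (hint _ (hmc.sub (hmjc j))) fun x => ?_
      have h5 := mor_eq (hprox x)
      have h6 := mor_le hR.le hK (huj j) x (Y x)
      simp only [hY] at h5 h6 ⊢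
      linarith
    have h7 : ∫ x in Ω, D j x =
        (∫ x in Ω, (u (Y x) - leg R (gj j) (Y x))) / (1 / ((j : ℝ) + 1)) := by
      simp only [hD]
      exact integral_div _ _
    rw [h7, div_le_iff₀ (hε j)]
    nlinarith
  -- the truncated quotients
  obtain ⟨C, hC⟩ := (isCompact_closedBall (0 : E n) R).exists_bound_of_continuousOn
    hχ.continuousOn
  have hlim : Filter.Tendsto (fun j => ∫ x in A, min (D j x) (χ (T x))) Filter.atTop
      (nhds (∫ x in A, χ (T x))) := by
    have hfin : volume A < ⊤ := lt_of_le_of_lt (measure_mono inter_subset_left) hb.measure_lt_top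
    have : IsFiniteMeasure (volume.restrict A) := ⟨by simpa using hfin⟩
    refine tendsto_integral_of_dominated_convergence (fun _ => C) ?_ (integrable_const _) ?_ ?_
    · intro j
      exact ((hDc j).min (hχ.comp hT)).aestronglyMeasurable
    · intro j
      refine Filter.Eventually.of_forall fun x => ?_
      have h1 : 0 ≤ χ (T x) := h0 _ (hTb x)
      have h2 : ‖χ (T x)‖ ≤ C := hC _ (hTb x)
      rw [Real.norm_of_nonneg h1] at h2
      rw [Real.norm_of_nonneg (le_min (hD0 j x) h1)]
      exact (min_le_right _ _).trans h2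
    · refine (ae_restrict_iff' hAm).2 (Filter.Eventually.of_forall fun x hx => ?_)
      obtain ⟨ξ, hξ, h1⟩ := leg_attained hR.le hg (Y x)
      have hTξ : T x = ξ := by
        refine leg_subgrad hR.le hg hx.2 hξ h1 fun z => ?_
        have := (hprox x).subgrad hK huc z
        have h2 := hKT x
        simp only [hY] at h2
        rw [h2] at this
        exact this
      have hdan := fun η (hη : (0 : ℝ) < η) => leg_danskin hR.le hg hχ hx.2 hξ h1 hη
      rw [Metric.tendsto_atTop]
      intro η hη
      have hten : Filter.Tendsto (fun j : ℕ => 1 / ((j : ℝ) + 1)) Filter.atTop (nhdsWithin 0 (Ioi 0)) := by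
        refine tendsto_nhdsWithin_iff.2 ⟨tendsto_one_div_add_atTop_nhds_zero_nat, ?_⟩
        exact Filter.Eventually.of_forall fun j => hε j
      have hev := hten.eventually (hdan (η / 2) (half_pos hη))
      obtain ⟨J, hJ⟩ := Filter.eventually_atTop.1 hev
      refine ⟨J, fun j hj => ?_⟩
      have h3 := hJ j hj
      have h4 : χ (T x) - η / 2 ≤ D j x := by
        simp only [hD]
        rw [le_div_iff₀ (hε j), hTξ, mul_comm]
        exact h3
      rw [Real.dist_eq, abs_lt]
      constructor
      · have : χ (T x) - η / 2 ≤ min (D j x) (χ (T x)) := le_min h4 (by linarith)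
        linarith
      · have := min_le_right (D j x) (χ (T x))
        linarith
  have hle : ∫ x in A, χ (T x) ≤ ∫ ξ in closedBall (0 : E n) R, f ξ * χ ξ := by
    refine le_of_tendsto hlim (Filter.Eventually.of_forall fun j => ?_)
    have hDi : IntegrableOn (D j) Ω := hint _ (hDc j)
    calc ∫ x in A, min (D j x) (χ (T x)) ≤ ∫ x in A, D j x := by
          refine integral_mono ?_ (hDi.mono_set inter_subset_left) fun x => min_le_left _ _
          exact (hint _ ((hDc j).min (hχ.comp hT))).mono_set inter_subset_left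
      _ ≤ ∫ x in Ω, D j x :=
          setIntegral_mono_set hDi (Filter.Eventually.of_forall fun x => hD0 j x)
            (Filter.Eventually.of_forall fun x hx => hx.1)
      _ ≤ _ := hDle j
  exact hle

end Pool.Agent.RU
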