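import Pool.Agent.H.MP_1b807b_an.U.DefsU

/-! MP_1b807b_an, universal bound, module SurjU: the gradient takes every value of the closed ball -/

set_option autoImplicit false

namespace Pool.Agent.RU

open MeasureTheory Metric Set Filter Pool.Agent.RG
open scoped RealInnerProductSpace Topology NNReal ENNReal

variable {n : ℕ}

/-- PROOF: `leg_attained`: `leg L₀ u₀ ξ = ⟨ξ, y⟩ - u₀ y` with `‖y‖ ≤ L₀`; then
`leg L₀ u₀ η ≥ leg L₀ u₀ ξ + ⟨η - ξ, y⟩` (`le_leg`), so `u = leg R (leg L₀ u₀)` has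
`u y = ⟨ξ, y⟩ - leg L₀ u₀ ξ` and `u z ≥ u y + ⟨ξ, z - y⟩`. By `IsProx.of_subgrad` the proximal point of
`x = y + K⁻¹ ξ` is `y`; `IsProx.unique` gives `T x = ξ`. -/
theorem surj_T {R K L₀ : ℝ} (hR : 0 < R) (hK : 0 < K) (hL₀ : 0 ≤ L₀) {u₀ : E n → ℝ}
    (hu₀ : Continuous u₀) {T : E n → E n}
    (hprox : ∀ x, IsProx K (leg R (leg L₀ u₀)) x (x - K⁻¹ • T x)) {ξ : E n} (hξ : ‖ξ‖ ≤ R) :
    ∃ x, ‖x‖ ≤ L₀ + R / K ∧ T x = ξ := by
  have hg : Continuous (leg L₀ u₀ : E n → ℝ) := by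
    have h : LipschitzWith ⟨L₀, hL₀⟩ (leg L₀ u₀ : E n → ℝ) := by
      apply LipschitzWith.of_dist_le_mul
      intro y z
      rw [Real.dist_eq, dist_eq_norm]
      exact leg_lip hL₀ hu₀ y z
    exact h.continuous
  obtain ⟨y, hy, h1⟩ := leg_attained hL₀ hu₀ ξ
  have hyn : ‖y‖ ≤ L₀ := mem_closedBall_zero_iff.1 hy
  have hξm : ξ ∈ closedBall (0 : E n) R := mem_closedBall_zero_iff.2 hξ
  have hc := leg_convex (n := n) hR.le hg
  -- the value of `u` at `y`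
  have h2 : leg R (leg L₀ u₀) y ≤ ⟪ξ, y⟫ - leg L₀ u₀ ξ := by
    obtain ⟨η, hη, h3⟩ := leg_attained hR.le hg y
    have h4 := le_leg (R := L₀) hu₀ η hy
    have h5 : ⟪η, y⟫ = ⟪y, η⟫ := real_inner_comm _ _
    have h6 : ⟪ξ, y⟫ = ⟪y, ξ⟫ := real_inner_comm _ _
    linarith
  have hKK : K • ((y + K⁻¹ • ξ) - y) = ξ := by
    rw [add_sub_cancel_left, smul_smul, mul_inv_cancel₀ hK.ne', one_smul]
  have h7 : IsProx K (leg R (leg L₀ u₀)) (y + K⁻¹ • ξ) y := by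
    apply IsProx.of_subgrad hK
    intro z
    rw [hKK]
    have h8 := le_leg hg z hξm
    have h9 : ⟪ξ, z - y⟫ = ⟪ξ, z⟫ - ⟪ξ, y⟫ := inner_sub_right _ _ _
    linarith
  have h10 := h7.unique hK hc (hprox (y + K⁻¹ • ξ))
  refine ⟨y + K⁻¹ • ξ, ?_, ?_⟩
  · refine (norm_add_le _ _).trans ?_
    rw [norm_smul, norm_inv, Real.norm_of_nonneg hK.le]
    have h11 : K⁻¹ * ‖ξ‖ ≤ R / K := by
      rw [div_eq_inv_mul]
      exact mul_le_mul_of_nonneg_left hξ (inv_nonneg.2 hK.le)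
    linarith
  · have h12 : K⁻¹ • T (y + K⁻¹ • ξ) = K⁻¹ • ξ := by
      have h13 : y + K⁻¹ • T (y + K⁻¹ • ξ) = y + K⁻¹ • ξ := by
        nth_rewrite 1 [h10]
        exact sub_add_cancel _ _
      exact add_left_cancel h13
    have h14 := congrArg (fun v => K • v) h12
    simpa only [smul_smul, mul_inv_cancel₀ hK.ne', one_smul] using h14

end Pool.Agent.RU
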