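import Pool.Agent.H.MP_1b807b_an.U.KantW
import Pool.Agent.H.MP_1b807b_an.U.PushW
import Pool.Agent.H.MP_1b807b_an.U.DetW
import Pool.Agent.H.MP_1b807b_an.U.MorGrad
import Pool.Agent.H.MP_1b807b_an.U.SurjU
import Pool.Agent.H.MP_1b807b_an.U.MatBad
import Pool.Agent.H.MP_1b807b_an.G.Degen
import Pool.Agent.H.MP_1b807b_an.G.Hess

/-! MP_1b807b_an, universal bound, module TransU: existence of the transport data -/

set_option autoImplicit false

namespace Pool.Agent.RU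

open MeasureTheory Metric Set Filter Pool.Agent.RG
open scoped RealInnerProductSpace Topology NNReal ENNReal

variable {n : ℕ}

private theorem transu_cont {u : E n → ℝ} {R : ℝ} (hR : 0 ≤ R)
    (h : ∀ y z, |u y - u z| ≤ R * ‖y - z‖) : Continuous u := by
  have : LipschitzWith ⟨R, hR⟩ u := by
    refine LipschitzWith.of_dist_le_mul fun y z => ?_
    rw [Real.dist_eq, dist_eq_norm]
    exact h y z
  exact this.continuous

/-- PROOF: as `exists_transport` in `G/Transport.lean`: `g = leg (ρ + R/K) u₀` from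
`exists_min_FFw`, `u = leg R g`, `φ = mor K u`, `T x = K (x - prox x)`, `A = Ω ∩ {u differentiable at
x - K⁻¹ T x}`; `T_lip`, `T_symm`, `T_firm`, `mor_grad`, `push_le_w`, `one_le_det_w`, `det_eq_zero`,
`tr_ge_of_eig`, `surj_T` (`ρ + R/K + R/K ≤ ρ + 2 R`). -/
theorem exists_TD {R K : ℝ} (hR : 0 < R) (hK : 1 ≤ K) {Ω : Set (E n)} (ho : IsOpen Ω)
    {ρ : ℝ} (hρ0 : 0 ≤ ρ) (hρ : Ω ⊆ closedBall 0 ρ) {f : E n → ℝ}
    (hf : ContinuousOn f (closedBall (0 : E n) R)) (hf0 : ∀ ξ ∈ closedBall (0 : E n) R, 0 ≤ f ξ)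
    (hm : ∫ ξ in closedBall (0 : E n) R, f ξ = volume.real Ω) :
    ∃ (A : Set (E n)) (T : E n → E n) (φ : E n → ℝ), IsTD n R K (ρ + 2 * R) f Ω A T φ := by
  have hK0 : 0 < K := lt_of_lt_of_le one_pos hK
  have hb : Bornology.IsBounded Ω := isBounded_closedBall.subset hρ
  have hL0 : 0 ≤ ρ + R / K := by positivity
  obtain ⟨u₀, hu₀, hmin⟩ := exists_min_FFw hR hK0 ho.measurableSet hρ0 hρ hf hf0 hm
  set g : E n → ℝ := leg (ρ + R / K) u₀ with hg_def
  have hg : Continuous g := transu_cont hL0 (leg_lip hL0 hu₀)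
  set u : E n → ℝ := leg R g with hu_def
  have hc : ConvexOn ℝ univ u := leg_convex hR.le hg
  have hu : ∀ y z, |u y - u z| ≤ R * ‖y - z‖ := leg_lip hR.le hg
  choose Y hY using fun x => exists_prox hR.le hK0 hu x
  set T : E n → E n := fun x => K • (x - Y x) with hT_def
  have hTY : ∀ x, x - K⁻¹ • T x = Y x := by
    intro x
    simp only [hT_def, smul_smul, inv_mul_cancel₀ hK0.ne', one_smul]
    abel
  have hprox : ∀ x, IsProx K u x (x - K⁻¹ • T x) := by
    intro x; rw [hTY]; exact hY x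
  have hlip : LipschitzWith K.toNNReal T := T_lip hK0 hc hprox
  have hTc : Continuous T := hlip.continuous
  have hTR : ∀ x, ‖T x‖ ≤ R := fun x => (hY x).norm_le hR.le hK0 hc hu
  set A : Set (E n) := Ω ∩ {x | DifferentiableAt ℝ u (x - K⁻¹ • T x)} with hA_def
  have hYc : Continuous fun x => x - K⁻¹ • T x := by
    have h1 : Continuous fun x => K⁻¹ • T x := (continuous_const_smul K⁻¹).comp hTc
    exact continuous_id.sub h1
  have hAm : MeasurableSet A :=
    ho.measurableSet.inter (hYc.measurable (measurableSet_of_differentiableAt ℝ u))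
  have hpush : ∀ χ : E n → ℝ, Continuous χ → (∀ ξ ∈ closedBall (0 : E n) R, 0 ≤ χ ξ) →
      ∫ x in A, χ (T x) ≤ ∫ ξ in closedBall (0 : E n) R, f ξ * χ ξ := fun χ hχ h0 =>
    push_le_w hR hK0 ho.measurableSet hb hf hg hmin hTc hprox hχ h0
  have hAfin : volume A ≠ ⊤ :=
    ((measure_mono inter_subset_left).trans_lt hb.measure_lt_top).ne
  have hdet := one_le_det_w hf hf0 hAm hAfin hTc hTR
    (fun χ hχ h0 => hpush χ hχ fun ξ _ => h0 ξ)
  have hdeg := det_eq_zero hR hK0 hc hu hTc hprox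
  have hdiff : ∀ᵐ x : E n, DifferentiableAt ℝ T x := hlip.ae_differentiableAt
  obtain ⟨hgrad, hconv⟩ := mor_grad hR.le hK0 hc hu hprox
  refine ⟨A, T, mor K u, ⟨hlip, hTR, hgrad, hconv, ?_, ?_, hAm, inter_subset_left, ?_, ?_, ?_⟩⟩
  · exact fun x hx => T_symm hR hK0 hc hu hprox hx
  · intro x hx v
    have h1 := T_firm hK0 hc hprox hx v
    have h2 : 0 ≤ K * ⟪fderiv ℝ T x v, v⟫ := (sq_nonneg _).trans h1
    exact nonneg_of_mul_nonneg_right h2 hK0
  · filter_upwards [hdet, ae_restrict_of_ae (s := A) hdiff] with x h1 h2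
    exact h1 h2
  · rw [ae_restrict_iff' ho.measurableSet]
    filter_upwards [hdeg, hdiff] with x h2 h3 hx hxA
    have hs := T_symm hR hK0 hc hu hprox h3
    have hf' : ∀ v, ‖fderiv ℝ T x v‖ ^ 2 ≤ K * ⟪fderiv ℝ T x v, v⟫ := T_firm hK0 hc hprox h3
    have hnd : ¬ DifferentiableAt ℝ u (x - K⁻¹ • T x) := fun h => hxA ⟨hx, h⟩
    exact tr_ge_of_eig hK0 hs hf' (h2 h3 hnd)
  · intro ξ hξ
    obtain ⟨x, hx, hTx⟩ := surj_T hR hK0 hL0 hu₀ hprox hξ
    refine ⟨x, hx.trans ?_, hTx⟩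
    have : R / K ≤ R := div_le_self hR.le hK
    linarith

end Pool.Agent.RU
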