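import Pool.Agent.H.MP_1b807b_an.U.CombU
import Pool.Agent.H.MP_1b807b_an.U.TransU
import Pool.Agent.H.MP_1b807b_an.U.RobinExp
import Pool.Agent.H.MP_1b807b_an.U.BadVol

/-! MP_1b807b_an, universal bound, module CertRobin: a certificate bounds the eigenvalue -/

set_option autoImplicit false

namespace Pool.Agent.RU

open MeasureTheory Metric Set Filter Pool.Agent.RG
open scoped RealInnerProductSpace Topology NNReal ENNReal

variable {n : ℕ}

private theorem certrobin_tr_cont : Continuous (tr : (E n →L[ℝ] E n) → ℝ) := by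
  unfold tr
  fun_prop

private theorem certrobin_tr_bdd {K : ℝ≥0} {T : E n → E n} (hT : LipschitzWith K T) (x : E n) :
    |tr (fderiv ℝ T x)| ≤ n * K := by
  unfold tr
  calc |∑ i : Fin n, (fderiv ℝ T x (EuclideanSpace.single i 1)) i|
      ≤ ∑ i : Fin n, |(fderiv ℝ T x (EuclideanSpace.single i 1)) i| :=
        Finset.abs_sum_le_sum_abs _ _
    _ ≤ ∑ _i : Fin n, (K : ℝ) := by
        refine Finset.sum_le_sum fun i _ => ?_
        have h1 : |(fderiv ℝ T x (EuclideanSpace.single i 1)) i| ≤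
            ‖fderiv ℝ T x (EuclideanSpace.single i 1)‖ := by
          rw [← Real.norm_eq_abs]
          exact PiLp.norm_apply_le _ i
        have h2 := (fderiv ℝ T x).le_opNorm (EuclideanSpace.single i 1)
        have h3 : ‖(EuclideanSpace.single i 1 : E n)‖ = 1 := by simp
        rw [h3, mul_one] at h2
        exact h1.trans (h2.trans (norm_fderiv_le_of_lipschitz ℝ hT))
    _ = n * K := by simp

private theorem certrobin_tr_meas (T : E n → E n) : Measurable fun x => tr (fderiv ℝ T x) :=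
  certrobin_tr_cont.measurable.comp (measurable_fderiv ℝ T)

/-- upper bound of the potential -/
private theorem certrobin_up {R K L : ℝ} {f : E n → ℝ} {Ω A : Set (E n)} {T : E n → E n}
    {φ : E n → ℝ} (h : IsTD n R K L f Ω A T φ) (x : E n) : φ x ≤ φ 0 + R * ‖x‖ := by
  have h1 := h.conv x 0
  rw [zero_sub, inner_neg_right] at h1
  have h2 : ⟪T x, x⟫ ≤ ‖T x‖ * ‖x‖ := real_inner_le_norm _ _
  have h3 : ‖T x‖ * ‖x‖ ≤ R * ‖x‖ := mul_le_mul_of_nonneg_right (h.norm_le x) (norm_nonneg _)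
  linarith

/-- lower bound of the potential -/
private theorem certrobin_low {R K L : ℝ} {f : E n → ℝ} {Ω A : Set (E n)} {T : E n → E n}
    {φ : E n → ℝ} (h : IsTD n R K L f Ω A T φ) (x : E n) : φ 0 - R * ‖x‖ ≤ φ x := by
  have h1 := h.conv 0 x
  rw [sub_zero] at h1
  have h2 : |⟪T 0, x⟫| ≤ ‖T 0‖ * ‖x‖ := abs_real_inner_le_norm _ _
  have h3 : ‖T 0‖ * ‖x‖ ≤ R * ‖x‖ := mul_le_mul_of_nonneg_right (h.norm_le 0) (norm_nonneg _)
  have h4 := (abs_le.1 h2).1
  linarith

/-- the bound for one value of the parameter -/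
private theorem certrobin_step {β Λ c f₀ K ρ : ℝ} (hn : 2 ≤ n) (hβ : 0 < β) (hΛ : 0 < Λ)
    {f : E n → ℝ} (hc : IsCert n β Λ f c f₀) (D : Domain n)
    (hm : ∫ ξ in closedBall (0 : E n) β, f ξ = volume.real D.carrier) (hρ0 : 0 ≤ ρ)
    (hρ : D.carrier ⊆ closedBall 0 ρ) (hK1 : 1 ≤ K) (hKΛ : Λ ≤ K) :
    D.robin (-β) ≤ ((-Λ + Real.exp (2 * β * (ρ + 2 * β + ρ)) / volume.real D.carrier *
      ((c * n * β ^ 2 / f₀ + Λ) * (β * D.perimeter)) / K : ℝ) : EReal) := by
  obtain ⟨A, T, φ, h⟩ := exists_TD hβ hK1 D.isOpen hρ0 hρ hc.cont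
    (fun ξ hξ => hc.pos.le.trans (hc.le ξ (mem_closedBall_zero_iff.1 hξ))) hm
  have hK0 : 0 < K := lt_of_lt_of_le one_pos hK1
  obtain ⟨L, hL⟩ : ∃ L, L = ρ + 2 * β := ⟨_, rfl⟩
  rw [← hL] at h ⊢
  have hρL : ρ ≤ L := by rw [hL]; linarith
  have hΩL : D.carrier ⊆ closedBall 0 L := hρ.trans (closedBall_subset_closedBall hρL)
  have hM : ∀ x, ‖x‖ ≤ L → Real.exp (2 * φ x) ≤ Real.exp (2 * (φ 0 + β * L)) := by
    intro x hx
    refine Real.exp_le_exp.2 (mul_le_mul_of_nonneg_left ?_ (by norm_num))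
    exact (certrobin_up h x).trans (by linarith [mul_le_mul_of_nonneg_left hx hβ.le])
  have hG := comb hn hβ hΛ hKΛ hc D.isOpen hΩL h hm hM
  have hbad := bad_vol hβ hK0 h
  have hrob := robin_le_exp D hβ h.lip h.norm_le h.grad
  -- integrability
  have hfin : volume D.carrier ≠ ⊤ := D.isBounded.measure_lt_top.ne
  have hφc : Continuous φ := continuous_iff_continuousAt.2 fun x => (h.grad x).continuousAt
  have hec : Continuous fun x => Real.exp (2 * φ x) := by fun_prop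
  have hTc : Continuous T := h.lip.continuous
  have hei : IntegrableOn (fun x => Real.exp (2 * φ x)) D.carrier :=
    (hec.continuousOn.integrableOn_compact (isCompact_closedBall 0 ρ)).mono_set hρ
  have hFi : IntegrableOn (fun x => Real.exp (2 * φ x) * (tr (fderiv ℝ T x) + ‖T x‖ ^ 2))
      D.carrier := by
    refine Measure.integrableOn_of_bounded
      (M := Real.exp (2 * (φ 0 + β * L)) * (n * K.toNNReal + β ^ 2)) hfin ?_ ?_
    · exact (hec.measurable.mul ((certrobin_tr_meas T).add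
        (hTc.norm.pow 2).measurable)).aestronglyMeasurable
    · refine (ae_restrict_iff' D.isOpen.measurableSet).2 (Eventually.of_forall fun x hx => ?_)
      rw [Real.norm_eq_abs, abs_mul, abs_of_pos (Real.exp_pos _)]
      refine mul_le_mul (hM x (mem_closedBall_zero_iff.1 (hΩL hx))) ?_ (abs_nonneg _)
        (Real.exp_pos _).le
      refine (abs_add_le _ _).trans (add_le_add (certrobin_tr_bdd h.lip x) ?_)
      rw [abs_of_nonneg (sq_nonneg _)]
      exact pow_le_pow_left₀ (norm_nonneg _) (h.norm_le x) 2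
  have hsplit : ∫ x in D.carrier, Real.exp (2 * φ x) * (tr (fderiv ℝ T x) + ‖T x‖ ^ 2 - Λ) =
      (∫ x in D.carrier, Real.exp (2 * φ x) * (tr (fderiv ℝ T x) + ‖T x‖ ^ 2)) -
        Λ * ∫ x in D.carrier, Real.exp (2 * φ x) := by
    rw [← integral_const_mul, ← integral_sub hFi (hei.const_mul Λ)]
    refine integral_congr_ae (Eventually.of_forall fun x => ?_)
    show _ = _ - _
    ring
  -- the volume and the normalisation
  have hV : 0 < volume.real D.carrier := by
    obtain ⟨x, hx⟩ := D.isConnected.nonempty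
    exact ENNReal.toReal_pos (D.isOpen.measure_pos volume ⟨x, hx⟩).ne' hfin
  have hN1 : Real.exp (2 * (φ 0 - β * ρ)) * volume.real D.carrier ≤
      ∫ x in D.carrier, Real.exp (2 * φ x) := by
    have h1 : ∫ _x in D.carrier, Real.exp (2 * (φ 0 - β * ρ)) =
        Real.exp (2 * (φ 0 - β * ρ)) * volume.real D.carrier := by
      rw [setIntegral_const, smul_eq_mul, mul_comm]
    rw [← h1]
    refine setIntegral_mono_on (integrableOn_const hfin) hei D.isOpen.measurableSet
      fun x hx => ?_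
    refine Real.exp_le_exp.2 (mul_le_mul_of_nonneg_left ?_ (by norm_num))
    have h2 : ‖x‖ ≤ ρ := mem_closedBall_zero_iff.1 (hρ hx)
    exact le_trans (by linarith [mul_le_mul_of_nonneg_left h2 hβ.le]) (certrobin_low h x)
  have hN : 0 < ∫ x in D.carrier, Real.exp (2 * φ x) :=
    lt_of_lt_of_le (mul_pos (Real.exp_pos _) hV) hN1
  refine hrob.trans (EReal.coe_le_coe_iff.2 ?_)
  rw [hsplit] at hG
  obtain ⟨I, hI⟩ : ∃ I, I = ∫ x in D.carrier,
    Real.exp (2 * φ x) * (tr (fderiv ℝ T x) + ‖T x‖ ^ 2) := ⟨_, rfl⟩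
  obtain ⟨N, hNe⟩ : ∃ N, N = ∫ x in D.carrier, Real.exp (2 * φ x) := ⟨_, rfl⟩
  rw [← hI, ← hNe] at hG
  rw [← hNe] at hN hN1
  rw [← hI, ← hNe, div_le_iff₀ hN]
  have hC0 : 0 ≤ c * n * β ^ 2 / f₀ + Λ := by
    have := hc.c_nonneg
    have := hc.pos
    positivity
  have hP0 : 0 ≤ D.perimeter := measureReal_nonneg
  have hexp : Real.exp (2 * (φ 0 + β * L)) =
      Real.exp (2 * β * (L + ρ)) * Real.exp (2 * (φ 0 - β * ρ)) := by
    rw [← Real.exp_add]
    congr 1
    ring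
  have hbad' : volume.real (D.carrier \ A) ≤ β * D.perimeter / K := by
    rw [le_div_iff₀ hK0]
    linarith
  have hmain : Real.exp (2 * (φ 0 + β * L)) * (c * n * β ^ 2 / f₀ + Λ) *
      volume.real (D.carrier \ A) ≤ Real.exp (2 * β * (L + ρ)) / volume.real D.carrier *
      ((c * n * β ^ 2 / f₀ + Λ) * (β * D.perimeter)) / K * N := by
    have h1 : Real.exp (2 * (φ 0 + β * L)) * (c * n * β ^ 2 / f₀ + Λ) *
        volume.real (D.carrier \ A) ≤ Real.exp (2 * (φ 0 + β * L)) *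
        (c * n * β ^ 2 / f₀ + Λ) * (β * D.perimeter / K) :=
      mul_le_mul_of_nonneg_left hbad' (mul_nonneg (Real.exp_pos _).le hC0)
    have h2 : 0 ≤ Real.exp (2 * β * (L + ρ)) / volume.real D.carrier *
        ((c * n * β ^ 2 / f₀ + Λ) * (β * D.perimeter)) / K := by positivity
    have h3 := mul_le_mul_of_nonneg_left hN1 h2
    refine h1.trans (le_trans (le_of_eq ?_) h3)
    rw [hexp]
    field_simp
  linarith

/-- PROOF: `D ⊆ closedBall 0 ρ`, `L = ρ + 2 β`. For `K ≥ max 1 Λ` take the transport data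
(`exists_TD`). With `M = e^{2 (φ 0 + β L)}` one has `e^{2φ} ≤ M` on `closedBall 0 L` and
`e^{2φ} ≥ e^{2 (φ 0 - β ρ)}` on `D` (`‖T‖ ≤ β`), so `M / ∫_D e^{2φ} ≤ e^{2β(L+ρ)} / |D|`. `comb`, `bad_vol` and
`robin_le_exp` give `robin ≤ -Λ + C / K` with `C` independent of `K`; let `K → ∞`. -/
theorem cert_robin {β Λ c f₀ : ℝ} (hn : 2 ≤ n) (hβ : 0 < β) (hΛ : 0 < Λ) {f : E n → ℝ}
    (hc : IsCert n β Λ f c f₀) (D : Domain n)
    (hm : ∫ ξ in closedBall (0 : E n) β, f ξ = volume.real D.carrier) :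
    D.robin (-β) ≤ ((-Λ : ℝ) : EReal) := by
  obtain ⟨ρ1, hρ1⟩ := D.isBounded.subset_closedBall 0
  have hρ : D.carrier ⊆ closedBall 0 (max ρ1 0) :=
    hρ1.trans (closedBall_subset_closedBall (le_max_left _ _))
  obtain ⟨C, hC⟩ : ∃ C, C = Real.exp (2 * β * (max ρ1 0 + 2 * β + max ρ1 0)) /
    volume.real D.carrier * ((c * n * β ^ 2 / f₀ + Λ) * (β * D.perimeter)) := ⟨_, rfl⟩
  by_contra hlt
  rw [not_le] at hlt
  obtain ⟨r, hr1, hr2⟩ := EReal.lt_iff_exists_real_btwn.1 hlt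
  have hr : -Λ < r := EReal.coe_lt_coe_iff.1 hr1
  have hrΛ : 0 < r + Λ := by linarith
  have h1 := certrobin_step (K := max (max 1 Λ) (C / (r + Λ))) hn hβ hΛ hc D hm
    (le_max_right ρ1 0) hρ ((le_max_left _ _).trans (le_max_left _ _))
    ((le_max_right _ _).trans (le_max_left _ _))
  rw [← hC] at h1
  have hK0 : 0 < max (max 1 Λ) (C / (r + Λ)) :=
    lt_of_lt_of_le one_pos ((le_max_left _ _).trans (le_max_left _ _))
  have h2 : -Λ + C / max (max 1 Λ) (C / (r + Λ)) ≤ r := by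
    have h3 : C / max (max 1 Λ) (C / (r + Λ)) ≤ r + Λ := by
      rw [div_le_iff₀ hK0, mul_comm, ← div_le_iff₀ hrΛ]
      exact le_max_right _ _
    linarith
  exact absurd (h1.trans (EReal.coe_le_coe_iff.2 h2)) (not_le.2 hr2)

end Pool.Agent.RU
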