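import Pool.Agent.H.MP_1b807b_an.U.RayU

/-! MP_1b807b_an, universal bound, module CombU: the main inequality for one transport -/

set_option autoImplicit false

namespace Pool.Agent.RU

open MeasureTheory Metric Set Filter Pool.Agent.RG
open scoped RealInnerProductSpace Topology NNReal ENNReal

variable {n : ℕ}

private theorem combu_det_pos {S : E n →L[ℝ] E n} (hs : (S : E n →ₗ[ℝ] E n).IsSymmetric)
    (hp : ∀ v, 0 ≤ ⟪S v, v⟫) (hd : S.det ≠ 0) : 0 < S.det := by
  have hfr : Module.finrank ℝ (E n) = n := finrank_euclideanSpace_fin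
  have h1 : S.det = ∏ i, hs.eigenvalues hfr i := by
    have := hs.det_eq_prod_eigenvalues hfr
    simpa [ContinuousLinearMap.det] using this
  have h0 : ∀ i, 0 ≤ hs.eigenvalues hfr i := by
    intro i
    have h2 := hp (hs.eigenvectorBasis hfr i)
    have h3 : S (hs.eigenvectorBasis hfr i) =
        hs.eigenvalues hfr i • hs.eigenvectorBasis hfr i := hs.apply_eigenvectorBasis hfr i
    rw [h3, real_inner_smul_left, real_inner_self_eq_norm_sq,
      (hs.eigenvectorBasis hfr).orthonormal.1 i, one_pow, mul_one] at h2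
    exact h2
  exact lt_of_le_of_ne (h1 ▸ Finset.prod_nonneg fun i _ => h0 i) hd.symm

private theorem combu_point {D w M q t s F Λ c β N : ℝ} (hD : 0 < D) (hw : 0 ≤ w) (hwM : w ≤ M)
    (hΛ : 0 ≤ Λ) (hF : 1 ≤ F * D)
    (hk : 0 ≤ (t + s - Λ) / D + 2 * (c * (β ^ 2 - s)) * q + c * (N * (β ^ 2 - s) - 2 * s) +
      Λ * (F - 1 / D)) :
    -(c * (w * D * (2 * (β ^ 2 - s) * q))) - c * (D * ((N * (β ^ 2 - s) - 2 * s) * w)) -
      Λ * M * (D * F - 1) ≤ w * (t + s - Λ) := by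
  have h1 := mul_nonneg (mul_nonneg hw hD.le) hk
  have h2 : w * D * ((t + s - Λ) / D + 2 * (c * (β ^ 2 - s)) * q +
      c * (N * (β ^ 2 - s) - 2 * s) + Λ * (F - 1 / D)) =
      w * (t + s - Λ) + c * (w * D * (2 * (β ^ 2 - s) * q)) +
        c * (D * ((N * (β ^ 2 - s) - 2 * s) * w)) + Λ * w * (D * F - 1) := by
    field_simp
  have h4 : 0 ≤ D * F - 1 := by linarith [mul_comm F D]
  have h3 : Λ * w * (D * F - 1) ≤ Λ * M * (D * F - 1) := by
    have h5 : Λ * w ≤ Λ * M := mul_le_mul_of_nonneg_left hwM hΛ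
    exact mul_le_mul_of_nonneg_right h5 h4
  linarith

private theorem combu_continuous_tr : Continuous (tr : (E n →L[ℝ] E n) → ℝ) := by
  unfold tr
  fun_prop

private theorem combu_tr_bdd {K : ℝ≥0} {T : E n → E n} (hT : LipschitzWith K T) (x : E n) :
    |tr (fderiv ℝ T x)| ≤ n * K := by
  unfold tr
  calc |∑ i : Fin n, (fderiv ℝ T x (EuclideanSpace.single i 1)) i|
      ≤ ∑ i : Fin n, |(fderiv ℝ T x (EuclideanSpace.single i 1)) i| :=
        Finset.abs_sum_le_sum_abs _ _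
    _ ≤ ∑ _i : Fin n, (K : ℝ) := by
        refine Finset.sum_le_sum fun i _ => ?_
        have h1 : |(fderiv ℝ T x (EuclideanSpace.single i 1)) i| ≤
            ‖fderiv ℝ T x (EuclideanSpace.single i 1)‖ := by
          rw [← Real.norm_eq_abs]
          exact PiLp.norm_apply_le _ i
        have h2 := (fderiv ℝ T x).le_opNorm (EuclideanSpace.single i 1)
        have h3 : ‖(EuclideanSpace.single i 1 : E n)‖ = 1 := by simp
        rw [h3, mul_one] at h2
        exact h1.trans (h2.trans (norm_fderiv_le_of_lipschitz ℝ hT))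
    _ = n * K := by simp

private theorem combu_tr_meas (T : E n → E n) : Measurable fun x => tr (fderiv ℝ T x) :=
  combu_continuous_tr.measurable.comp (measurable_fderiv ℝ T)

/-- the bounds for the potential term -/
private theorem combu_om {β s e M N : ℝ} (hN : 2 ≤ N) (hs : 0 ≤ s) (hsβ : s ≤ β ^ 2)
    (he : 0 ≤ e) (heM : e ≤ M) :
    -(N * β ^ 2 * M) ≤ (N * (β ^ 2 - s) - 2 * s) * e ∧
      (N * (β ^ 2 - s) - 2 * s) * e ≤ N * β ^ 2 * M := by
  have h0 : 0 ≤ N * β ^ 2 := by positivity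
  have h1 : 0 ≤ (N * (β ^ 2 - s) - 2 * s) + N * β ^ 2 := by
    nlinarith [mul_nonneg (by linarith : (0 : ℝ) ≤ N) (sub_nonneg.2 hsβ),
      mul_nonneg (by linarith : (0 : ℝ) ≤ N - 2) (hs.trans hsβ)]
  have h2 : 0 ≤ N * β ^ 2 - (N * (β ^ 2 - s) - 2 * s) := by
    nlinarith [mul_nonneg (by linarith : (0 : ℝ) ≤ N) hs]
  have h3 := mul_nonneg h0 (sub_nonneg.2 heM)
  have h4 := mul_nonneg h1 he
  have h5 := mul_nonneg h2 he
  constructor <;> nlinarith

/-- PROOF: STEP 5 of the note. On `good A T`, for `T x ≠ 0` (the exceptional set has at most one point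
by `inj_good`), `key` for `S = DT(x)`, `ξ = T x` (`det S > 0` for a symmetric nonnegative `S` with
`det S ≠ 0`, the product of the eigenvalues), multiplied by `e^{2φ} det S`:
`e^{2φ} (tr DT + ‖T‖² - Λ) ≥ - c e^{2φ} |det| 2 (β² - ‖T‖²) QQ - |det| ω(T) e^{2φ} - Λ e^{2φ} (f(T) |det| - 1)`,
`ω(ξ) = c (n (β² - ‖ξ‖²) - 2 ‖ξ‖²)`. Integrate: `ray_ineq` (times `c`), `area_good` with `EE_eq` for the
`ω`-term, `f(T) |det| - 1 ≥ 0` and `area_good` for `f`:
`∫_{good} e^{2φ}(tr DT + ‖T‖² - Λ) ≥ ∫_{ball \ T(good)} ω EE - Λ M (∫_{T(good)} f - |good|)`, and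
`|ω| ≤ c n β²` (as `n ≥ 2`), `f ≥ f₀`, `EE ≤ M`, `∫_{ball \ T(good)} f + ∫_{T(good)} f = |Ω|`,
`|good| = |A|`. On `Ω \ A` the integrand is `≥ e^{2φ} (K - Λ) ≥ 0`. -/
theorem comb {β Λ K L c f₀ M : ℝ} (hn : 2 ≤ n) (hβ : 0 < β) (hΛ : 0 < Λ) (hK : Λ ≤ K)
    {f : E n → ℝ} (hc : IsCert n β Λ f c f₀) {Ω A : Set (E n)} (ho : IsOpen Ω)
    (hΩ : Ω ⊆ closedBall 0 L) {T : E n → E n} {φ : E n → ℝ} (h : IsTD n β K L f Ω A T φ)
    (hm : ∫ ξ in closedBall (0 : E n) β, f ξ = volume.real Ω)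
    (hM : ∀ x, ‖x‖ ≤ L → Real.exp (2 * φ x) ≤ M) :
    -(M * (c * n * β ^ 2 / f₀ + Λ) * volume.real (Ω \ A)) ≤
      ∫ x in Ω, Real.exp (2 * φ x) * (tr (fderiv ℝ T x) + ‖T x‖ ^ 2 - Λ) := by
  have hnE : Nontrivial (E n) :=
    Module.nontrivial_of_finrank_pos (R := ℝ) (by rw [finrank_euclideanSpace_fin]; omega)
  obtain ⟨x₀, hx₀, -⟩ := h.surj 0 (by rw [norm_zero]; exact hβ.le)
  have hM0 : 0 < M := lt_of_lt_of_le (Real.exp_pos _) (hM x₀ hx₀)
  have hc0 := hc.c_nonneg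
  have hf0 := hc.pos
  have hn' : (2 : ℝ) ≤ n := by exact_mod_cast hn
  -- the sets
  have hΩm : MeasurableSet Ω := ho.measurableSet
  have hΩfin : volume Ω ≠ ⊤ := ((measure_mono hΩ).trans_lt measure_closedBall_lt_top).ne
  have hGm : MeasurableSet (good A T) := measurableSet_good h.meas T
  have hGA : good A T ⊆ A := inter_subset_left
  have hGΩ : good A T ⊆ Ω := hGA.trans h.sub
  have hGfin : volume (good A T) ≠ ⊤ := measure_ne_top_of_subset hGΩ hΩfin
  have hTm : MeasurableSet (T '' good A T) := measurableSet_image_good h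
  have hTB : T '' good A T ⊆ closedBall (0 : E n) β := by
    rintro _ ⟨x, -, rfl⟩
    rw [mem_closedBall_zero_iff]
    exact h.norm_le x
  have hTc : Continuous T := h.lip.continuous
  have hφc : Continuous φ := continuous_iff_continuousAt.2 fun x => (h.grad x).continuousAt
  have hBfin : volume (closedBall (0 : E n) β) ≠ ⊤ := measure_closedBall_lt_top.ne
  have hDfin : volume (closedBall (0 : E n) β \ T '' good A T) ≠ ⊤ :=
    measure_ne_top_of_subset sdiff_subset hBfin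
  have hDm : MeasurableSet (closedBall (0 : E n) β \ T '' good A T) :=
    measurableSet_closedBall.diff hTm
  -- volumes
  have hVG : volume.real (good A T) = volume.real A := by
    have h1 : volume.real (A \ good A T) = volume.real A - volume.real (good A T) :=
      measureReal_sdiff hGA hGm (measure_ne_top_of_subset h.sub hΩfin)
    have h2 : volume.real (A \ good A T) = 0 := by
      rw [measureReal_def, good_full h]
      rfl
    linarith
  have hV : volume.real (Ω \ A) = volume.real Ω - volume.real (good A T) := by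
    rw [measureReal_sdiff h.sub h.meas hΩfin, hVG]
  -- the potential term
  obtain ⟨ω, hω⟩ : ∃ ω : E n → ℝ, ω = fun ξ => (n * (β ^ 2 - ‖ξ‖ ^ 2) - 2 * ‖ξ‖ ^ 2) *
      EE L T φ ξ := ⟨_, rfl⟩
  have hωm : Measurable ω := by
    rw [hω]
    exact (Continuous.measurable (by fun_prop)).mul (measurable_EE h)
  have hωb : ∀ ξ ∈ closedBall (0 : E n) β, -(n * β ^ 2 * M) ≤ ω ξ ∧ ω ξ ≤ n * β ^ 2 * M := by
    intro ξ hξ
    rw [mem_closedBall_zero_iff] at hξ
    have h3 : ‖ξ‖ ^ 2 ≤ β ^ 2 := pow_le_pow_left₀ (norm_nonneg ξ) hξ 2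
    rw [hω]
    exact combu_om hn' (by positivity) h3 (EE_nonneg L T φ ξ) (EE_le hM0.le hM ξ)
  have hωi : IntegrableOn ω (closedBall (0 : E n) β) := by
    refine Measure.integrableOn_of_bounded (M := n * β ^ 2 * M) hBfin
      hωm.aestronglyMeasurable ?_
    rw [ae_restrict_iff' measurableSet_closedBall]
    refine Filter.Eventually.of_forall fun ξ hξ => ?_
    rw [Real.norm_eq_abs, abs_le]
    exact hωb ξ hξ
  have hfi : IntegrableOn f (closedBall (0 : E n) β) :=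
    hc.cont.integrableOn_compact (isCompact_closedBall 0 β)
  -- the three terms
  obtain ⟨hI1, hray⟩ := ray_ineq hβ h hΩ
  have hI2 := integrable_good h (G := ω) (hωi.mono_set hTB)
  have hA2 := area_good h ω
  have hI3 := integrable_good h (G := f) (hfi.mono_set hTB)
  have hA3 := area_good h f
  have hball : ∫ ξ in ball (0 : E n) β, (n * (β ^ 2 - ‖ξ‖ ^ 2) - 2 * ‖ξ‖ ^ 2) * EE L T φ ξ =
      ∫ ξ in closedBall (0 : E n) β, ω ξ := by
    rw [hω]
    refine setIntegral_congr_set ?_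
    refine ae_eq_of_subset_of_measure_ge ball_subset_closedBall ?_
      measurableSet_ball.nullMeasurableSet hBfin
    rw [Measure.addHaar_closedBall_eq_addHaar_ball]
  rw [hball] at hray
  have hdet : ∀ᵐ x ∂volume, x ∈ good A T → 1 ≤ f (T x) * |(fderiv ℝ T x).det| := by
    filter_upwards [(ae_restrict_iff' h.meas).1 h.det] with x hx hxG
    exact hx (hGA hxG)
  have h0 : ∀ᵐ x ∂volume, x ∈ good A T → T x ≠ 0 := by
    have hs : {x | x ∈ good A T ∧ T x = 0}.Subsingleton := by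
      rintro x ⟨hx, hx0⟩ y ⟨hy, hy0⟩
      exact inj_good h hy.2.1 hy.2.2 (by rw [hx0, hy0])
    have hz : volume {x | x ∈ good A T ∧ T x = 0} = 0 := hs.measure_zero volume
    filter_upwards [measure_eq_zero_iff_ae_notMem.1 hz] with x hx h1 h2
    exact hx ⟨h1, h2⟩
  -- the integrand
  obtain ⟨F, hF⟩ : ∃ F : E n → ℝ, F = fun x => Real.exp (2 * φ x) *
      (tr (fderiv ℝ T x) + ‖T x‖ ^ 2 - Λ) := ⟨_, rfl⟩
  have hFm : Measurable F := by
    rw [hF]
    have h1 : Measurable fun x => Real.exp (2 * φ x) := Continuous.measurable (by fun_prop)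
    have h2 : Measurable fun x => ‖T x‖ ^ 2 := Continuous.measurable (by fun_prop)
    exact h1.mul (((combu_tr_meas T).add h2).sub_const Λ)
  have hFi : IntegrableOn F Ω := by
    refine Measure.integrableOn_of_bounded (M := M * (n * K.toNNReal + β ^ 2 + Λ)) hΩfin
      hFm.aestronglyMeasurable ?_
    rw [ae_restrict_iff' hΩm]
    refine Filter.Eventually.of_forall fun x hx => ?_
    have hxL : ‖x‖ ≤ L := by simpa using hΩ hx
    have h1 := hM x hxL
    have h2 := combu_tr_bdd h.lip x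
    have h3 : ‖T x‖ ^ 2 ≤ β ^ 2 := pow_le_pow_left₀ (norm_nonneg _) (h.norm_le x) 2
    have h4 : 0 ≤ ‖T x‖ ^ 2 := by positivity
    rw [hF, Real.norm_eq_abs]
    show |Real.exp (2 * φ x) * (tr (fderiv ℝ T x) + ‖T x‖ ^ 2 - Λ)| ≤ _
    rw [abs_mul, abs_of_pos (Real.exp_pos _)]
    refine mul_le_mul h1 ?_ (abs_nonneg _) hM0.le
    rw [abs_le] at h2 ⊢
    constructor <;> linarith [h2.1, h2.2]
  have hpt : (fun x => -(c * (Real.exp (2 * φ x) * |(fderiv ℝ T x).det| *
      (2 * (β ^ 2 - ‖T x‖ ^ 2) * QQ T x))) - c * (|(fderiv ℝ T x).det| * ω (T x)) -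
      Λ * M * (|(fderiv ℝ T x).det| * f (T x) - 1)) ≤ᵐ[volume.restrict (good A T)] F := by
    rw [Filter.EventuallyLE, ae_restrict_iff' hGm]
    filter_upwards [h0, hdet] with x hx0 hxd hxG
    have hd : DifferentiableAt ℝ T x := hxG.2.1
    have hdet' : (fderiv ℝ T x).det ≠ 0 := hxG.2.2
    have hpos := combu_det_pos (h.symm x hd) (h.nonneg x hd) hdet'
    have habs : |(fderiv ℝ T x).det| = (fderiv ℝ T x).det := abs_of_pos hpos
    have hxL : ‖x‖ ≤ L := by simpa using hΩ (hGΩ hxG)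
    have h1 := hxd hxG
    rw [habs] at h1
    have hk := hc.key (fderiv ℝ T x) (h.symm x hd) (h.nonneg x hd) hdet' (T x) (hx0 hxG)
      (h.norm_le x) h1
    have hp := combu_point hpos (Real.exp_nonneg (2 * φ x)) (hM x hxL) hΛ.le h1 hk
    rw [hω, hF, habs]
    show _ ≤ Real.exp (2 * φ x) * (tr (fderiv ℝ T x) + ‖T x‖ ^ 2 - Λ)
    simp only [EE_eq h hd hdet' hxL]
    exact hp
  have hone : IntegrableOn (fun _ : E n => (1 : ℝ)) (good A T) := integrableOn_const hGfin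
  have e1 : ∫ x in good A T, (-(c * (Real.exp (2 * φ x) * |(fderiv ℝ T x).det| *
      (2 * (β ^ 2 - ‖T x‖ ^ 2) * QQ T x))) - c * (|(fderiv ℝ T x).det| * ω (T x)) -
      Λ * M * (|(fderiv ℝ T x).det| * f (T x) - 1)) =
      -(c * ∫ x in good A T, Real.exp (2 * φ x) * |(fderiv ℝ T x).det| *
      (2 * (β ^ 2 - ‖T x‖ ^ 2) * QQ T x)) -
      c * (∫ x in good A T, |(fderiv ℝ T x).det| * ω (T x)) -
      Λ * M * ((∫ x in good A T, |(fderiv ℝ T x).det| * f (T x)) -
        volume.real (good A T)) := by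
    have i1 := (hI1.const_mul c).neg
    have i2 := hI2.const_mul c
    have i3 := (hI3.sub hone).const_mul (Λ * M)
    have s1 := integral_sub (i1.sub i2) i3
    have s2 := integral_sub i1 i2
    have s3 := integral_sub hI3 hone
    simp only [Pi.sub_apply, Pi.neg_apply] at s1 s2 s3
    rw [integral_neg, integral_const_mul, integral_const_mul] at s2
    rw [s2, integral_const_mul, s3, setIntegral_const, smul_eq_mul, mul_one] at s1
    exact s1
  have e2 : ∫ x in good A T, (-(c * (Real.exp (2 * φ x) * |(fderiv ℝ T x).det| *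
      (2 * (β ^ 2 - ‖T x‖ ^ 2) * QQ T x))) - c * (|(fderiv ℝ T x).det| * ω (T x)) -
      Λ * M * (|(fderiv ℝ T x).det| * f (T x) - 1)) ≤ ∫ x in good A T, F x := by
    refine setIntegral_mono_ae_restrict ?_ (hFi.mono_set hGΩ) hpt
    exact (((hI1.const_mul c).neg).sub (hI2.const_mul c)).sub
      ((hI3.sub hone).const_mul (Λ * M))
  -- the complement of the good set
  have e3 : 0 ≤ ∫ x in Ω \ good A T, F x := by
    refine setIntegral_nonneg_of_ae_restrict ?_
    rw [Filter.EventuallyLE, ae_restrict_iff' (hΩm.diff hGm)]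
    filter_upwards [(ae_restrict_iff' hΩm).1 h.bad,
      measure_eq_zero_iff_ae_notMem.1 (good_full h)] with x hx1 hx2 hx
    have hxA : x ∉ A := fun hxA => hx2 ⟨hxA, hx.2⟩
    have h1 := hx1 hx.1 hxA
    rw [hF]
    show 0 ≤ Real.exp (2 * φ x) * (tr (fderiv ℝ T x) + ‖T x‖ ^ 2 - Λ)
    refine mul_nonneg (Real.exp_nonneg _) ?_
    have h4 : 0 ≤ ‖T x‖ ^ 2 := by positivity
    linarith
  have e4 : ∫ x in Ω \ good A T, F x = (∫ x in Ω, F x) - ∫ x in good A T, F x :=
    setIntegral_sdiff hGm hFi hGΩ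
  -- the gradient space
  have e5 : ∫ ξ in closedBall (0 : E n) β \ T '' good A T, ω ξ =
      (∫ ξ in closedBall (0 : E n) β, ω ξ) - ∫ ξ in T '' good A T, ω ξ :=
    setIntegral_sdiff hTm hωi hTB
  have e6 : ∫ ξ in closedBall (0 : E n) β \ T '' good A T, f ξ =
      (∫ ξ in closedBall (0 : E n) β, f ξ) - ∫ ξ in T '' good A T, f ξ :=
    setIntegral_sdiff hTm hfi hTB
  have e7 : -(n * β ^ 2 * M) * volume.real (closedBall (0 : E n) β \ T '' good A T) ≤
      ∫ ξ in closedBall (0 : E n) β \ T '' good A T, ω ξ :=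
    setIntegral_ge_of_const_le_real hDm hDfin (fun ξ hξ => (hωb ξ hξ.1).1)
      (hωi.mono_set sdiff_subset)
  have e8 : f₀ * volume.real (closedBall (0 : E n) β \ T '' good A T) ≤
      ∫ ξ in closedBall (0 : E n) β \ T '' good A T, f ξ := by
    refine setIntegral_ge_of_const_le_real hDm hDfin (fun ξ hξ => hc.le ξ ?_)
      (hfi.mono_set sdiff_subset)
    exact mem_closedBall_zero_iff.1 hξ.1
  have e9 : volume.real (good A T) ≤ ∫ x in good A T, |(fderiv ℝ T x).det| * f (T x) := by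
    have h1 : ∫ x in good A T, (1 : ℝ) ≤ ∫ x in good A T, |(fderiv ℝ T x).det| * f (T x) := by
      refine setIntegral_mono_ae_restrict hone hI3 ?_
      rw [Filter.EventuallyLE, ae_restrict_iff' hGm]
      filter_upwards [hdet] with x hx hxG
      have := hx hxG
      rw [mul_comm] at this
      exact this
    rwa [setIntegral_const, smul_eq_mul, mul_one] at h1
  -- the conclusion
  obtain ⟨X, hX⟩ : ∃ X : ℝ, X = volume.real (closedBall (0 : E n) β \ T '' good A T) :=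
    ⟨_, rfl⟩
  obtain ⟨V, hVd⟩ : ∃ V : ℝ, V = volume.real (Ω \ A) := ⟨_, rfl⟩
  obtain ⟨a1, ha1⟩ : ∃ a1 : ℝ, a1 = ∫ x in good A T, Real.exp (2 * φ x) *
      |(fderiv ℝ T x).det| * (2 * (β ^ 2 - ‖T x‖ ^ 2) * QQ T x) := ⟨_, rfl⟩
  have hX0 : 0 ≤ X := hX ▸ measureReal_nonneg
  rw [← hF]
  rw [← hA2, ← hA3, ← ha1] at e1
  rw [← hA3] at e9
  rw [e1] at e2
  rw [← ha1] at hray
  rw [← hVd] at hV ⊢
  rw [← hX] at e7 e8
  obtain ⟨b1, hb1⟩ : ∃ b1 : ℝ, b1 = ∫ ξ in closedBall (0 : E n) β, ω ξ := ⟨_, rfl⟩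
  obtain ⟨b2, hb2⟩ : ∃ b2 : ℝ, b2 = ∫ ξ in T '' good A T, ω ξ := ⟨_, rfl⟩
  obtain ⟨b3, hb3⟩ : ∃ b3 : ℝ, b3 = ∫ ξ in T '' good A T, f ξ := ⟨_, rfl⟩
  obtain ⟨g, hg⟩ : ∃ g : ℝ, g = volume.real (good A T) := ⟨_, rfl⟩
  obtain ⟨Y, hY⟩ : ∃ Y : ℝ, Y = ∫ x in Ω, F x := ⟨_, rfl⟩
  rw [e4] at e3
  rw [e5] at e7
  rw [e6, hm] at e8
  rw [← hb1] at hray e7
  rw [← hb2] at e2 e7
  rw [← hb3] at e2 e8 e9
  rw [← hg] at e2 e9 hV
  rw [← hY] at e3 ⊢
  have k1 : f₀ * X ≤ V := by linarith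
  have k2 : X ≤ V / f₀ := by
    rw [le_div_iff₀ hf0]
    linarith [mul_comm f₀ X]
  have k3 : b3 - g ≤ V := by
    have := mul_nonneg hf0.le hX0
    linarith
  have k4 : c * a1 ≤ -(c * b1) := by
    have := mul_le_mul_of_nonneg_left hray hc0
    linarith
  have k5 : c * (-(n * β ^ 2 * M) * X) ≤ c * (b1 - b2) := mul_le_mul_of_nonneg_left e7 hc0
  have k6 : c * (n * β ^ 2 * M) * X ≤ c * (n * β ^ 2 * M) * (V / f₀) :=
    mul_le_mul_of_nonneg_left k2 (by positivity)
  have k7 : Λ * M * (b3 - g) ≤ Λ * M * V := mul_le_mul_of_nonneg_left k3 (by positivity)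
  have k8 : M * (c * n * β ^ 2 / f₀ + Λ) * V =
      c * (n * β ^ 2 * M) * (V / f₀) + Λ * M * V := by
    field_simp
  rw [k8]
  nlinarith

end Pool.Agent.RU
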