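import Pool.Agent.H.MP_1b807b_an.G.Leg
import Pool.Agent.H.MP_1b807b_an.G.Mor
import Pool.Agent.H.MP_1b807b_an.G.GaussBall

/-! MP_1b807b_an, universal bound, module DefsU: definitions -/

set_option autoImplicit false

namespace Pool.Agent.RU

open MeasureTheory Metric Set Filter Pool.Agent.RG
open scoped RealInnerProductSpace Topology NNReal ENNReal

variable {n : ℕ}

/-- the functional of the dual transport problem with the density `f` on the ball -/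
noncomputable def FFw (R K : ℝ) (f : E n → ℝ) (Ω : Set (E n)) (g : E n → ℝ) : ℝ :=
  (∫ ξ in closedBall (0 : E n) R, f ξ * g ξ) + ∫ x in Ω, mor K (leg R g) x

/-- the transport data: `T` is the gradient of the convex function `φ`, `A ⊆ Ω` is the good set -/
structure IsTD (n : ℕ) (R K L : ℝ) (f : E n → ℝ) (Ω A : Set (E n)) (T : E n → E n)
    (φ : E n → ℝ) : Prop where
  lip : LipschitzWith K.toNNReal T
  norm_le : ∀ x, ‖T x‖ ≤ R
  grad : ∀ x, HasFDerivAt φ (innerSL ℝ (T x)) x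
  conv : ∀ x y, φ x + ⟪T x, y - x⟫ ≤ φ y
  symm : ∀ x, DifferentiableAt ℝ T x → (fderiv ℝ T x : E n →ₗ[ℝ] E n).IsSymmetric
  nonneg : ∀ x, DifferentiableAt ℝ T x → ∀ v, 0 ≤ ⟪fderiv ℝ T x v, v⟫
  meas : MeasurableSet A
  sub : A ⊆ Ω
  det : ∀ᵐ x ∂(volume.restrict A), 1 ≤ f (T x) * |(fderiv ℝ T x).det|
  bad : ∀ᵐ x ∂(volume.restrict Ω), x ∉ A → K ≤ tr (fderiv ℝ T x)
  surj : ∀ ξ, ‖ξ‖ ≤ R → ∃ x, ‖x‖ ≤ L ∧ T x = ξ

/-- the quadratic form of the inverse of `DT(x)` at `T x` -/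
noncomputable def QQ (T : E n → E n) (x : E n) : ℝ :=
  ⟪(fderiv ℝ T x).inverse (T x), T x⟫

/-- the points of `A` where `T` is differentiable with an invertible derivative -/
def good (A : Set (E n)) (T : E n → E n) : Set (E n) :=
  A ∩ ({x | DifferentiableAt ℝ T x} ∩ {x | (fderiv ℝ T x).det ≠ 0})

/-- the weight `e^{2φ}` as a function of the gradient -/
noncomputable def EE (L : ℝ) (T : E n → E n) (φ : E n → ℝ) (ξ : E n) : ℝ :=
  sSup {c : ℝ | ∃ x : E n, ‖x‖ ≤ L ∧ T x = ξ ∧ c = Real.exp (2 * φ x)}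

/-- A certificate for the value `Λ` with density `f` and potential `c (β² - ‖ξ‖²)`. -/
structure IsCert (n : ℕ) (β Λ : ℝ) (f : E n → ℝ) (c f₀ : ℝ) : Prop where
  cont : ContinuousOn f (closedBall (0 : E n) β)
  pos : 0 < f₀
  le : ∀ ξ, ‖ξ‖ ≤ β → f₀ ≤ f ξ
  c_nonneg : 0 ≤ c
  key : ∀ S : E n →L[ℝ] E n, (S : E n →ₗ[ℝ] E n).IsSymmetric → (∀ v, 0 ≤ ⟪S v, v⟫) →
    S.det ≠ 0 → ∀ ξ : E n, ξ ≠ 0 → ‖ξ‖ ≤ β → 1 ≤ f ξ * S.det →
    0 ≤ (tr S + ‖ξ‖ ^ 2 - Λ) / S.det + 2 * (c * (β ^ 2 - ‖ξ‖ ^ 2)) * ⟪S.inverse ξ, ξ⟫ +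
      c * (n * (β ^ 2 - ‖ξ‖ ^ 2) - 2 * ‖ξ‖ ^ 2) + Λ * (f ξ - 1 / S.det)

/-- the area of the unit sphere of `ℝⁿ` -/
noncomputable def sArea (n : ℕ) : ℝ := n * volume.real (ball (0 : E n) 1)

/-- the coefficient of the two-term asymptotics -/
noncomputable def kap (n : ℕ) (A β : ℝ) : ℝ :=
  (n - 1) * (n * sArea n * β ^ (n - 2) * Real.log β / (2 * (n - 1) * A)) ^ (1 / ((n : ℝ) - 1))

end Pool.Agent.RU
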