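import Pool.Agent.H.MP_1b807b_an.U.EFunB

/-! MP_1b807b_an, universal bound, module DiffQ: the difference quotient of the weight along a ray -/

set_option autoImplicit false

namespace Pool.Agent.RU

open MeasureTheory Metric Set Filter Pool.Agent.RG
open scoped RealInnerProductSpace Topology NNReal ENNReal

variable {n : ℕ}

/-- the points over `(1 + t) T x` tend to `x`. PROOF: compactness of the ball, continuity of `T` and
`inj_good`. -/
theorem fib_tendsto {R K L : ℝ} {f : E n → ℝ} {Ω A : Set (E n)} {T : E n → E n} {φ : E n → ℝ}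
    (h : IsTD n R K L f Ω A T φ) {x : E n} (hd : DifferentiableAt ℝ T x)
    (hdet : (fderiv ℝ T x).det ≠ 0) {δ : ℝ} (hδ : 0 < δ) :
    ∃ t₀ : ℝ, 0 < t₀ ∧ ∀ t : ℝ, 0 < t → t < t₀ → ∀ z : E n, ‖z‖ ≤ L → T z = (1 + t) • T x →
      ‖z - x‖ < δ := by
  have hc : Continuous fun z : E n => ‖T z - T x‖ := (h.lip.continuous.sub continuous_const).norm
  have hK : IsCompact (closedBall (0 : E n) L ∩ {z : E n | δ ≤ ‖z - x‖}) :=
    (isCompact_closedBall _ _).inter_right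
      (isClosed_le continuous_const (continuous_id.sub continuous_const).norm)
  by_cases hne : (closedBall (0 : E n) L ∩ {z : E n | δ ≤ ‖z - x‖}).Nonempty
  · obtain ⟨z0, hz0, hmin⟩ := hK.exists_isMinOn hne hc.continuousOn
    have hpos : 0 < ‖T z0 - T x‖ := by
      rw [norm_pos_iff, sub_ne_zero]
      intro he
      have h1 := inj_good h hd hdet he
      have h2 : δ ≤ ‖z0 - x‖ := hz0.2
      rw [h1, sub_self, norm_zero] at h2
      linarith
    refine ⟨‖T z0 - T x‖ / (‖T x‖ + 1), by positivity, ?_⟩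
    intro t ht0 ht z hz hTz
    by_contra hcon
    push Not at hcon
    have hzC : z ∈ closedBall (0 : E n) L ∩ {z : E n | δ ≤ ‖z - x‖} := by
      refine ⟨?_, hcon⟩
      rwa [mem_closedBall, dist_zero_right]
    have h3 : ‖T z0 - T x‖ ≤ ‖T z - T x‖ := hmin hzC
    have h4 : T z - T x = t • T x := by
      rw [hTz, add_smul, one_smul]
      abel
    rw [h4, norm_smul, Real.norm_eq_abs, abs_of_pos ht0] at h3
    have h5 : t * (‖T x‖ + 1) < ‖T z0 - T x‖ := (lt_div_iff₀ (by positivity)).1 ht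
    nlinarith [norm_nonneg (T x)]
  · refine ⟨1, one_pos, ?_⟩
    intro t _ _ z hz _
    by_contra hcon
    push Not at hcon
    refine hne ⟨z, ?_, hcon⟩
    rwa [mem_closedBall, dist_zero_right]

/-- PROOF: let `z` be a point over `(1 + t) T x` (`surj`). Then `EE ((1+t) T x) ≥ e^{2φ z}`,
`φ z ≥ φ x + ⟨T x, z - x⟩`, `z - x → 0` (`fib_tendsto`) and `t T x = T z - T x = DT(x) (z - x) +
o(‖z - x‖)`; as `DT(x)` is invertible, `z - x = t (DT(x))⁻¹ T x + o(t)`. `EE_eq`, and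
`e^{2 b} - e^{2 a} ≥ 2 e^{2 a} (b - a)`. -/
theorem diff_q {R K L : ℝ} {f : E n → ℝ} {Ω A : Set (E n)} {T : E n → E n} {φ : E n → ℝ}
    (h : IsTD n R K L f Ω A T φ) {x : E n} (hd : DifferentiableAt ℝ T x)
    (hdet : (fderiv ℝ T x).det ≠ 0) (hx : ‖x‖ ≤ L) (hT : ‖T x‖ < R) {ε : ℝ} (hε : 0 < ε) :
    ∀ᶠ t in 𝓝[>] (0 : ℝ), EE L T φ (T x) + t * (2 * Real.exp (2 * φ x) * QQ T x - ε) ≤
      EE L T φ ((1 + t) • T x) := by
  set C : ℝ := Real.exp (2 * φ x) with hC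
  have hCpos : 0 < C := Real.exp_pos _
  set D : E n →L[ℝ] E n := fderiv ℝ T x with hD
  set e : E n ≃L[ℝ] E n := D.toContinuousLinearEquivOfDetNeZero hdet with he
  have heD : (e : E n →L[ℝ] E n) = D := D.coe_toContinuousLinearEquivOfDetNeZero hdet
  have hinv : D.inverse = (e.symm : E n →L[ℝ] E n) := by
    rw [← heD, ContinuousLinearMap.inverse_equiv]
  set N : ℝ := ‖(e.symm : E n →L[ℝ] E n)‖ with hN
  have hN0 : 0 ≤ N := norm_nonneg _
  have hNle : ∀ v : E n, ‖e.symm v‖ ≤ N * ‖v‖ := fun v =>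
    (e.symm : E n →L[ℝ] E n).le_opNorm v
  set η : ℝ := min (1 / (2 * (N + 1))) (ε / (4 * C * (N ^ 2 * ‖T x‖ ^ 2 + 1))) with hη
  have hηpos : 0 < η := by
    refine lt_min (by positivity) ?_
    have : 0 < N ^ 2 * ‖T x‖ ^ 2 + 1 := by positivity
    positivity
  have hη1 : N * η ≤ 1 / 2 := by
    have h1 : η ≤ 1 / (2 * (N + 1)) := min_le_left _ _
    have h2 : η * (2 * (N + 1)) ≤ 1 := (le_div_iff₀ (by positivity)).1 h1
    nlinarith
  have hη2 : 4 * C * (N ^ 2 * ‖T x‖ ^ 2) * η ≤ ε := by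
    have h1 : η ≤ ε / (4 * C * (N ^ 2 * ‖T x‖ ^ 2 + 1)) := min_le_right _ _
    have h2 : η * (4 * C * (N ^ 2 * ‖T x‖ ^ 2 + 1)) ≤ ε := (le_div_iff₀ (by positivity)).1 h1
    nlinarith [mul_pos hηpos hCpos]
  have hlit : ∀ᶠ z in 𝓝 x, ‖T z - T x - D (z - x)‖ ≤ η * ‖z - x‖ :=
    hd.hasFDerivAt.isLittleO.def hηpos
  obtain ⟨δ, hδ, hδ'⟩ := Metric.eventually_nhds_iff.1 hlit
  obtain ⟨t₀, ht₀, hfib⟩ := fib_tendsto h hd hdet hδ
  have hev1 : ∀ᶠ t in 𝓝[>] (0 : ℝ), 0 < t := eventually_mem_nhdsWithin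
  have hev2 : ∀ᶠ t in 𝓝[>] (0 : ℝ), t < t₀ :=
    mem_nhdsWithin_of_mem_nhds (Iio_mem_nhds ht₀)
  have hev3 : ∀ᶠ t in 𝓝[>] (0 : ℝ), ‖(1 + t) • T x‖ < R := by
    have hc : Continuous fun t : ℝ => ‖(1 + t) • T x‖ := by fun_prop
    have h0 : ‖(1 + (0 : ℝ)) • T x‖ < R := by
      rw [add_zero, one_smul]
      exact hT
    have h1 : ∀ᶠ t in 𝓝 (0 : ℝ), ‖(1 + t) • T x‖ < R :=
      hc.continuousAt.eventually_lt continuousAt_const h0
    exact h1.filter_mono nhdsWithin_le_nhds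
  filter_upwards [hev1, hev2, hev3] with t ht0 htt ht3
  obtain ⟨z, hzL, hTz⟩ := h.surj ((1 + t) • T x) ht3.le
  have hzx : ‖z - x‖ < δ := hfib t ht0 htt z hzL hTz
  have hr : ‖T z - T x - D (z - x)‖ ≤ η * ‖z - x‖ := by
    refine hδ' ?_
    rw [dist_eq_norm]
    exact hzx
  have hdiff : T z - T x = t • T x := by
    rw [hTz, add_smul, one_smul]
    abel
  set r : E n := T z - T x - D (z - x) with hrdef
  have hzx2 : z - x = t • e.symm (T x) - e.symm r := by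
    have h1 : e (z - x) = t • T x - r := by
      have h2 : e (z - x) = D (z - x) := by
        rw [← heD]
        rfl
      rw [h2, hrdef, hdiff]
      abel
    have h3 : z - x = e.symm (e (z - x)) := (e.symm_apply_apply _).symm
    rw [h3, h1, map_sub, map_smul]
  have hz1 : ‖z - x‖ ≤ 2 * t * N * ‖T x‖ := by
    have h1 : ‖z - x‖ ≤ t * (N * ‖T x‖) + N * (η * ‖z - x‖) := by
      calc ‖z - x‖ = ‖t • e.symm (T x) - e.symm r‖ := by rw [← hzx2]
        _ ≤ ‖t • e.symm (T x)‖ + ‖e.symm r‖ := norm_sub_le _ _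
        _ ≤ t * (N * ‖T x‖) + N * (η * ‖z - x‖) := by
            refine add_le_add ?_ ?_
            · rw [norm_smul, Real.norm_eq_abs, abs_of_pos ht0]
              exact mul_le_mul_of_nonneg_left (hNle _) ht0.le
            · exact (hNle r).trans (mul_le_mul_of_nonneg_left hr hN0)
    have h2 : N * (η * ‖z - x‖) ≤ 1 / 2 * ‖z - x‖ := by
      rw [← mul_assoc]
      exact mul_le_mul_of_nonneg_right hη1 (norm_nonneg _)
    linarith
  have hin : t * QQ T x - 2 * t * N ^ 2 * ‖T x‖ ^ 2 * η ≤ ⟪T x, z - x⟫ := by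
    have h1 : ⟪T x, z - x⟫ = t * QQ T x - ⟪T x, e.symm r⟫ := by
      have h2 : QQ T x = ⟪e.symm (T x), T x⟫ := by
        unfold QQ
        rw [← hD, hinv]
        rfl
      rw [hzx2, inner_sub_right, real_inner_smul_right, h2, real_inner_comm]
    have h3 : ⟪T x, e.symm r⟫ ≤ ‖T x‖ * (N * (η * (2 * t * N * ‖T x‖))) := by
      refine (real_inner_le_norm _ _).trans ?_
      refine mul_le_mul_of_nonneg_left ?_ (norm_nonneg _)
      refine (hNle r).trans (mul_le_mul_of_nonneg_left ?_ hN0)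
      exact hr.trans (mul_le_mul_of_nonneg_left hz1 hηpos.le)
    have h4 : ‖T x‖ * (N * (η * (2 * t * N * ‖T x‖))) = 2 * t * N ^ 2 * ‖T x‖ ^ 2 * η := by
      ring
    rw [h1]
    linarith
  have hphi : φ x + ⟪T x, z - x⟫ ≤ φ z := h.conv x z
  have hEx : EE L T φ (T x) = C := EE_eq h hd hdet hx
  have hEz : Real.exp (2 * φ z) ≤ EE L T φ ((1 + t) • T x) := by
    rw [← hTz]
    exact le_EE h hzL
  have hexp : C * (1 + 2 * ⟪T x, z - x⟫) ≤ Real.exp (2 * φ z) := by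
    have h1 : Real.exp (2 * φ z) = C * Real.exp (2 * φ z - 2 * φ x) := by
      rw [hC, ← Real.exp_add]
      congr 1
      ring
    rw [h1]
    refine mul_le_mul_of_nonneg_left ?_ hCpos.le
    have h2 := Real.add_one_le_exp (2 * φ z - 2 * φ x)
    linarith
  rw [hEx]
  refine le_trans ?_ (hexp.trans hEz)
  have h5 : 2 * C * (t * QQ T x - 2 * t * N ^ 2 * ‖T x‖ ^ 2 * η) ≤ 2 * C * ⟪T x, z - x⟫ :=
    mul_le_mul_of_nonneg_left hin (by positivity)
  have h6 : t * (4 * C * (N ^ 2 * ‖T x‖ ^ 2) * η) ≤ t * ε :=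
    mul_le_mul_of_nonneg_left hη2 ht0.le
  have h7 : C + t * (2 * C * QQ T x - ε) = C + 2 * C * (t * QQ T x) - t * ε := by ring
  have h8 : C * (1 + 2 * ⟪T x, z - x⟫) = C + 2 * C * ⟪T x, z - x⟫ := by ring
  have h9 : 2 * C * (t * QQ T x - 2 * t * N ^ 2 * ‖T x‖ ^ 2 * η) =
      2 * C * (t * QQ T x) - t * (4 * C * (N ^ 2 * ‖T x‖ ^ 2) * η) := by ring
  rw [h7, h8]
  rw [h9] at h5
  linarith

end Pool.Agent.RU
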