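import Pool.Agent.H.MP_1b807b_an.U.DefsU

/-! MP_1b807b_an, universal bound, module EFunA: the weight in gradient space, I -/

set_option autoImplicit false

namespace Pool.Agent.RU

open MeasureTheory Metric Set Filter Pool.Agent.RG
open scoped RealInnerProductSpace Topology NNReal ENNReal

variable {n : ℕ}

/-- PROOF: the supremum over the empty set is `0`, the others are positive. -/
theorem EE_nonneg (L : ℝ) (T : E n → E n) (φ : E n → ℝ) (ξ : E n) : 0 ≤ EE L T φ ξ := by
  refine Real.sSup_nonneg ?_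
  rintro c ⟨x, _, _, rfl⟩
  exact (Real.exp_pos _).le

/-- PROOF: `csSup_le` (or the empty set). -/
theorem EE_le {L : ℝ} {T : E n → E n} {φ : E n → ℝ} {M : ℝ} (hM0 : 0 ≤ M)
    (hM : ∀ x, ‖x‖ ≤ L → Real.exp (2 * φ x) ≤ M) (ξ : E n) : EE L T φ ξ ≤ M := by
  refine Real.sSup_le ?_ hM0
  rintro c ⟨x, hx, _, rfl⟩
  exact hM x hx

theorem efuna_cont {R K L : ℝ} {f : E n → ℝ} {Ω A : Set (E n)} {T : E n → E n} {φ : E n → ℝ}
    (h : IsTD n R K L f Ω A T φ) : Continuous fun x => Real.exp (2 * φ x) := by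
  have h1 : Continuous φ := continuous_iff_continuousAt.2 fun x => (h.grad x).continuousAt
  exact Real.continuous_exp.comp (continuous_const.mul h1)

theorem efuna_bdd {R K L : ℝ} {f : E n → ℝ} {Ω A : Set (E n)} {T : E n → E n} {φ : E n → ℝ}
    (h : IsTD n R K L f Ω A T φ) : ∃ M, ∀ x : E n, ‖x‖ ≤ L → Real.exp (2 * φ x) ≤ M := by
  obtain ⟨M, hM⟩ := (isCompact_closedBall (0 : E n) L).bddAbove_image (efuna_cont h).continuousOn
  refine ⟨M, fun x hx => hM ⟨x, ?_, rfl⟩⟩
  rwa [mem_closedBall, dist_zero_right]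

/-- PROOF: `φ` is continuous, so the set is bounded on the compact ball. -/
theorem le_EE {R K L : ℝ} {f : E n → ℝ} {Ω A : Set (E n)} {T : E n → E n} {φ : E n → ℝ}
    (h : IsTD n R K L f Ω A T φ) {x : E n} (hx : ‖x‖ ≤ L) :
    Real.exp (2 * φ x) ≤ EE L T φ (T x) := by
  obtain ⟨M, hM⟩ := efuna_bdd h
  refine le_csSup ⟨M, ?_⟩ ⟨x, hx, rfl, rfl⟩
  rintro c ⟨y, hy, _, rfl⟩
  exact hM y hy

/-- PROOF: `{ξ | c ≤ EE ξ}` is everything for `c ≤ 0`; for `c > 0` it is the image under `T` of the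
compact set of the `x` with `‖x‖ ≤ L`, `e^{2φ x} ≥ c` (the supremum over a nonempty fibre is
attained), so it is closed; `measurable_of_Ici`. -/
theorem measurable_EE {R K L : ℝ} {f : E n → ℝ} {Ω A : Set (E n)} {T : E n → E n}
    {φ : E n → ℝ} (h : IsTD n R K L f Ω A T φ) : Measurable (EE L T φ) := by
  have hc := efuna_cont h
  have hT : Continuous T := h.lip.continuous
  have hK : IsCompact {x : E n | ‖x‖ ≤ L} := by
    have h1 : {x : E n | ‖x‖ ≤ L} = closedBall (0 : E n) L := by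
      ext x
      rw [mem_closedBall, dist_zero_right]
      rfl
    rw [h1]
    exact isCompact_closedBall _ _
  refine measurable_of_Ici fun c => ?_
  rcases le_or_gt c 0 with hc0 | hc0
  · have h1 : EE L T φ ⁻¹' Ici c = univ :=
      eq_univ_of_forall fun ξ => hc0.trans (EE_nonneg L T φ ξ)
    rw [h1]
    exact MeasurableSet.univ
  · have h1 : EE L T φ ⁻¹' Ici c =
        T '' ({x : E n | ‖x‖ ≤ L} ∩ {x | c ≤ Real.exp (2 * φ x)}) := by
      ext ξ
      constructor
      · intro hξ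
        have hξ' : c ≤ EE L T φ ξ := hξ
        have hne : ({x : E n | ‖x‖ ≤ L} ∩ {x | T x = ξ}).Nonempty := by
          by_contra hemp
          have h2 : {c : ℝ | ∃ x : E n, ‖x‖ ≤ L ∧ T x = ξ ∧ c = Real.exp (2 * φ x)} = ∅ := by
            refine eq_empty_of_forall_notMem ?_
            rintro d ⟨x, hx, hx', _⟩
            exact hemp ⟨x, hx, hx'⟩
          have h3 : EE L T φ ξ = 0 := by
            unfold EE
            rw [h2, Real.sSup_empty]
          linarith
        have hcomp : IsCompact ({x : E n | ‖x‖ ≤ L} ∩ {x | T x = ξ}) :=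
          hK.inter_right (isClosed_eq hT continuous_const)
        obtain ⟨x0, hx0, hmax⟩ := hcomp.exists_isMaxOn hne hc.continuousOn
        refine ⟨x0, ⟨hx0.1, hξ'.trans ?_⟩, hx0.2⟩
        refine Real.sSup_le ?_ (Real.exp_pos _).le
        rintro d ⟨x, hx, hx', rfl⟩
        exact hmax ⟨hx, hx'⟩
      · rintro ⟨x, ⟨hx, hx'⟩, rfl⟩
        exact le_trans hx' (le_EE h hx)
    rw [h1]
    exact ((hK.inter_right (isClosed_le continuous_const hc)).image hT).isClosed.measurableSet

end Pool.Agent.RU
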