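import Pool.Agent.H.MP_1b807b_an.U.DefsU

/-! MP_1b807b_an, universal bound, module FibU: the fibre of a good point is a single point -/

set_option autoImplicit false

namespace Pool.Agent.RU

open MeasureTheory Metric Set Filter Pool.Agent.RG
open scoped RealInnerProductSpace Topology NNReal ENNReal

variable {n : ℕ}

/-- if `f` is constant on the segment from `x` to `x + v` then its derivative kills `v` -/
private theorem fibu_aux1 {f : E n → E n} {x v : E n} (hf : DifferentiableAt ℝ f x)
    (hc : ∀ t : ℝ, 0 ≤ t → t ≤ 1 → f (x + t • v) = f x) : fderiv ℝ f x v = 0 := by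
  have h1 : HasDerivAt (fun t : ℝ => f (x + t • v)) (fderiv ℝ f x v) 0 := by
    have h2 : HasDerivAt (fun t : ℝ => x + t • v) v 0 := by
      simpa using ((hasDerivAt_id (0 : ℝ)).smul_const v).const_add x
    have h3 : HasFDerivAt f (fderiv ℝ f x) (x + (0 : ℝ) • v) := by
      simpa using hf.hasFDerivAt
    exact h3.comp_hasDerivAt (0 : ℝ) h2
  have h4 : HasDerivWithinAt (fun t : ℝ => f (x + t • v)) (fderiv ℝ f x v) (Icc 0 1) 0 :=
    h1.hasDerivWithinAt
  have h5 : HasDerivWithinAt (fun t : ℝ => f (x + t • v)) 0 (Icc 0 1) 0 := by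
    refine (hasDerivWithinAt_const (0 : ℝ) (Icc (0 : ℝ) 1) (f x)).congr ?_ ?_
    · intro t ht
      exact hc t ht.1 ht.2
    · simp
  have hu : UniqueDiffWithinAt ℝ (Icc (0 : ℝ) 1) 0 :=
    (uniqueDiffOn_Icc (by norm_num)) 0 (by simp)
  exact hu.eq_deriv _ h4 h5

/-- PROOF: if `T x' = T x` then `T` is constant on the segment from `x` to `x'`: by `conv` the points
`z` with `T z = T x` are the minimum points of the convex function `z ↦ φ z - ⟨T x, z⟩` (if `z` is a
minimum point then its derivative `T z - T x` vanishes), which form a convex set. So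
`DT(x) (x' - x) = 0` (as `degen_fderiv_zero` in `G/Degen.lean`) and `x' = x`. -/
theorem inj_good {R K L : ℝ} {f : E n → ℝ} {Ω A : Set (E n)} {T : E n → E n} {φ : E n → ℝ}
    (h : IsTD n R K L f Ω A T φ) {x x' : E n} (hd : DifferentiableAt ℝ T x)
    (hdet : (fderiv ℝ T x).det ≠ 0) (he : T x' = T x) : x' = x := by
  set v : E n := x' - x with hv
  have hxx : φ x' = φ x + ⟪T x, v⟫ := by
    have h1 := h.conv x x'
    have h2 := h.conv x' x
    rw [he] at h2
    have h3 : (x - x' : E n) = -v := by rw [hv]; abel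
    rw [h3, inner_neg_right] at h2
    rw [← hv] at h1
    linarith
  have hconst : ∀ t : ℝ, 0 ≤ t → t ≤ 1 → T (x + t • v) = T x := by
    intro t h0 h1
    set z : E n := x + t • v with hz
    have hzx : (x - z : E n) = -(t • v) := by rw [hz]; abel
    have hzx' : (x' - z : E n) = (1 - t) • v := by
      have : (x' : E n) = x + v := by rw [hv]; abel
      rw [this, hz, sub_smul, one_smul]
      abel
    have hxz : (z - x : E n) = t • v := by rw [hz]; abel
    have a1 := h.conv x z
    have a2 := h.conv z x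
    have a3 := h.conv z x'
    rw [hxz, inner_smul_right] at a1
    rw [hzx, inner_neg_right, inner_smul_right] at a2
    rw [hzx', inner_smul_right] at a3
    have hφz : φ z = φ x + t * ⟪T x, v⟫ := by
      refine le_antisymm ?_ a1
      have b2 := mul_le_mul_of_nonneg_left a2 (by linarith : 0 ≤ 1 - t)
      have b3 := mul_le_mul_of_nonneg_left a3 h0
      rw [hxx] at b3
      nlinarith [b2, b3]
    have hmin : IsLocalMin (fun y => φ y - ⟪T x, y⟫) z := by
      refine Filter.Eventually.of_forall fun y => ?_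
      have c1 := h.conv x y
      have c2 : ⟪T x, y - x⟫ = ⟪T x, y⟫ - ⟪T x, x⟫ := inner_sub_right _ _ _
      have c3 : ⟪T x, z⟫ = ⟪T x, x⟫ + t * ⟪T x, v⟫ := by
        rw [hz, inner_add_right, inner_smul_right]
      show φ z - ⟪T x, z⟫ ≤ φ y - ⟪T x, y⟫
      rw [c3, hφz]
      rw [c2] at c1
      linarith
    have hder : HasFDerivAt (fun y => φ y - ⟪T x, y⟫) (innerSL ℝ (T z) - innerSL ℝ (T x)) z := by
      have d1 := h.grad z
      have d2 : HasFDerivAt (fun y : E n => ⟪T x, y⟫) (innerSL ℝ (T x)) z :=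
        (innerSL ℝ (T x)).hasFDerivAt
      exact d1.sub d2
    have h0' := hmin.hasFDerivAt_eq_zero hder
    have h2 : innerSL ℝ (T z) (T z - T x) - innerSL ℝ (T x) (T z - T x) = 0 := by
      have := congrArg (fun g : E n →L[ℝ] ℝ => g (T z - T x)) h0'
      simpa using this
    simp only [innerSL_apply_apply] at h2
    rw [← inner_sub_left] at h2
    exact sub_eq_zero.mp (inner_self_eq_zero.mp h2)
  have h3 : fderiv ℝ T x v = 0 := fibu_aux1 hd hconst
  have h4 : v = 0 := by
    have h5 : LinearMap.ker ((fderiv ℝ T x : E n →L[ℝ] E n) : E n →ₗ[ℝ] E n) = ⊥ := by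
      have h6 : IsUnit (LinearMap.det ((fderiv ℝ T x : E n →L[ℝ] E n) : E n →ₗ[ℝ] E n)) :=
        isUnit_iff_ne_zero.mpr hdet
      exact (LinearMap.isUnit_iff_ker_eq_bot _).mp ((LinearMap.isUnit_iff_isUnit_det _).mpr h6)
    exact (LinearMap.ker_eq_bot'.mp h5) _ h3
  exact sub_eq_zero.mp h4

end Pool.Agent.RU
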