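import Pool.Agent.H.MP_1b807b_an.U.EFunA
import Pool.Agent.H.MP_1b807b_an.U.FibU

/-! MP_1b807b_an, universal bound, module EFunB: the weight in gradient space, II -/

set_option autoImplicit false

namespace Pool.Agent.RU

open MeasureTheory Metric Set Filter Pool.Agent.RG
open scoped RealInnerProductSpace Topology NNReal ENNReal

variable {n : ℕ}

/-- `φ` is nondecreasing along rays of gradients. PROOF: by `conv` at `x` and at `x'`, added,
`⟨T x' - T x, x' - x⟩ ≥ 0`, i.e. `(lam - 1) ⟨T x, x' - x⟩ ≥ 0`; then `conv` at `x`. -/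
theorem phi_ray {R K L : ℝ} {f : E n → ℝ} {Ω A : Set (E n)} {T : E n → E n} {φ : E n → ℝ}
    (h : IsTD n R K L f Ω A T φ) {x x' : E n} {lam : ℝ} (h1 : 1 < lam)
    (he : T x' = lam • T x) : φ x ≤ φ x' := by
  have a1 := h.conv x x'
  have a2 := h.conv x' x
  have a3 : ⟪T x', x - x'⟫ = -(lam * ⟪T x, x' - x⟫) := by
    rw [he, real_inner_smul_left, ← neg_sub x' x, inner_neg_right]
    ring
  have a4 : 0 ≤ ⟪T x, x' - x⟫ := by
    by_contra hn
    push Not at hn
    nlinarith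
  linarith

/-- PROOF: `surj` gives a point over `lam • ξ`; `phi_ray`; `le_EE`. -/
theorem EE_ray {R K L : ℝ} {f : E n → ℝ} {Ω A : Set (E n)} {T : E n → E n} {φ : E n → ℝ}
    (h : IsTD n R K L f Ω A T φ) {ξ : E n} {lam : ℝ} (h1 : 1 ≤ lam) (hR : ‖lam • ξ‖ ≤ R) :
    EE L T φ ξ ≤ EE L T φ (lam • ξ) := by
  rcases h1.eq_or_lt with h1 | h1
  · rw [← h1, one_smul]
  refine Real.sSup_le ?_ (EE_nonneg L T φ _)
  rintro c ⟨x, hx, hx', rfl⟩
  obtain ⟨x', hx1, hx2⟩ := h.surj (lam • ξ) hR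
  have h2 : T x' = lam • T x := by rw [hx2, hx']
  have h3 := phi_ray h h1 h2
  have h4 := le_EE h hx1
  rw [hx2] at h4
  refine le_trans (Real.exp_le_exp.2 ?_) h4
  linarith

/-- PROOF: `inj_good`: the fibre is the single point `x`. -/
theorem EE_eq {R K L : ℝ} {f : E n → ℝ} {Ω A : Set (E n)} {T : E n → E n} {φ : E n → ℝ}
    (h : IsTD n R K L f Ω A T φ) {x : E n} (hd : DifferentiableAt ℝ T x)
    (hdet : (fderiv ℝ T x).det ≠ 0) (hx : ‖x‖ ≤ L) : EE L T φ (T x) = Real.exp (2 * φ x) := by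
  refine le_antisymm (Real.sSup_le ?_ (Real.exp_pos _).le) (le_EE h hx)
  rintro c ⟨y, _, hy, rfl⟩
  rw [inj_good h hd hdet hy]

end Pool.Agent.RU
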