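import Pool.Agent.H.MP_1b807b_an.U.DefsU

/-! MP_1b807b_an, universal bound, module KantW: existence of a minimiser (the weighted version of G/KantMin) -/

set_option autoImplicit false

namespace Pool.Agent.RU

open MeasureTheory Metric Set Filter Pool.Agent.RG
open scoped RealInnerProductSpace Topology NNReal ENNReal

variable {n : ℕ}

private theorem kantw_cont_of_lip {L : ℝ} {u : E n → ℝ}
    (hu : ∀ y z, |u y - u z| ≤ L * ‖y - z‖) : Continuous u := by
  have h : LipschitzWith (Real.toNNReal L) u := by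
    refine LipschitzWith.of_dist_le_mul fun y z => ?_
    rw [Real.dist_eq, dist_eq_norm]
    refine (hu y z).trans ?_
    exact mul_le_mul_of_nonneg_right (Real.le_coe_toNNReal L) (norm_nonneg _)
  exact h.continuous

private theorem kantw_cont_leg {R : ℝ} (hR : 0 ≤ R) {g : E n → ℝ} (hg : Continuous g) :
    Continuous (leg R g) := kantw_cont_of_lip (leg_lip hR hg)

private theorem kantw_cont_mor {R K : ℝ} (hR : 0 ≤ R) (hK : 0 < K) {g : E n → ℝ}
    (hg : Continuous g) : Continuous (mor K (leg R g)) :=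
  kantw_cont_of_lip (mor_lip hR hK (leg_convex hR hg) (leg_lip hR hg))

private theorem kantw_integrableOn {Ω : Set (E n)} (hb : Bornology.IsBounded Ω)
    {f : E n → ℝ} (hf : Continuous f) : IntegrableOn f Ω := by
  obtain ⟨r, hr⟩ := hb.subset_closedBall (0 : E n)
  exact (hf.continuousOn.integrableOn_compact (isCompact_closedBall (0 : E n) r)).mono_set hr

private theorem kantw_integrableOn_mul {R : ℝ} {f g : E n → ℝ}
    (hf : ContinuousOn f (closedBall (0 : E n) R)) (hg : Continuous g) :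
    IntegrableOn (fun ξ => f ξ * g ξ) (closedBall (0 : E n) R) :=
  (hf.mul hg.continuousOn).integrableOn_compact (isCompact_closedBall (0 : E n) R)

private theorem kantw_finite {Ω : Set (E n)} (hb : Bornology.IsBounded Ω) :
    volume Ω ≠ ⊤ := hb.measure_lt_top.ne

private theorem kantw_FF_sub_le {R K : ℝ} (hR : 0 ≤ R) (hK : 0 < K) {Ω : Set (E n)}
    (hb : Bornology.IsBounded Ω) {f : E n → ℝ} (hf : ContinuousOn f (closedBall (0 : E n) R))
    (hf0 : ∀ ξ ∈ closedBall (0 : E n) R, 0 ≤ f ξ) {M : ℝ}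
    (hM : ∀ ξ ∈ closedBall (0 : E n) R, f ξ ≤ M) {g h : E n → ℝ} (hg : Continuous g)
    (hh : Continuous h) {C : ℝ}
    (hC : ∀ ξ ∈ closedBall (0 : E n) R, |g ξ - h ξ| ≤ C) :
    |FFw R K f Ω g - FFw R K f Ω h| ≤
      C * (M * volume.real (closedBall (0 : E n) R) + volume.real Ω) := by
  have hbB : Bornology.IsBounded (closedBall (0 : E n) R) := isBounded_closedBall
  have e1 : (∫ ξ in closedBall (0 : E n) R, f ξ * g ξ) -
      ∫ ξ in closedBall (0 : E n) R, f ξ * h ξ =
      ∫ ξ in closedBall (0 : E n) R, (f ξ * g ξ - f ξ * h ξ) :=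
    (integral_sub (kantw_integrableOn_mul hf hg) (kantw_integrableOn_mul hf hh)).symm
  have e2 : (∫ x in Ω, mor K (leg R g) x) - ∫ x in Ω, mor K (leg R h) x =
      ∫ x in Ω, (mor K (leg R g) x - mor K (leg R h) x) :=
    (integral_sub (kantw_integrableOn hb (kantw_cont_mor hR hK hg))
      (kantw_integrableOn hb (kantw_cont_mor hR hK hh))).symm
  have b1 : ‖∫ ξ in closedBall (0 : E n) R, (f ξ * g ξ - f ξ * h ξ)‖ ≤
      (M * C) * volume.real (closedBall (0 : E n) R) := by
    refine norm_setIntegral_le_of_norm_le_const (kantw_finite hbB).lt_top ?_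
    intro ξ hξ
    rw [Real.norm_eq_abs, ← mul_sub, abs_mul, abs_of_nonneg (hf0 ξ hξ)]
    exact mul_le_mul (hM ξ hξ) (hC ξ hξ) (abs_nonneg _) ((hf0 ξ hξ).trans (hM ξ hξ))
  have b2 : ‖∫ x in Ω, (mor K (leg R g) x - mor K (leg R h) x)‖ ≤ C * volume.real Ω := by
    refine norm_setIntegral_le_of_norm_le_const (kantw_finite hb).lt_top ?_
    intro x _
    rw [Real.norm_eq_abs]
    exact mor_sub_le hR hK (leg_lip hR hg) (leg_lip hR hh)
      (fun y => leg_sub_le hR hg hh hC y) x
  have e3 : FFw R K f Ω g - FFw R K f Ω h =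
      (∫ ξ in closedBall (0 : E n) R, (f ξ * g ξ - f ξ * h ξ)) +
        ∫ x in Ω, (mor K (leg R g) x - mor K (leg R h) x) := by
    rw [← e1, ← e2]
    unfold FFw
    ring
  have e4 : C * (M * volume.real (closedBall (0 : E n) R) + volume.real Ω) =
      (M * C) * volume.real (closedBall (0 : E n) R) + C * volume.real Ω := by ring
  rw [e3, e4, ← Real.norm_eq_abs]
  exact (norm_add_le _ _).trans (add_le_add b1 b2)

private theorem kantw_mor_sub_const {R K : ℝ} (hR : 0 ≤ R) (hK : 0 < K) {u : E n → ℝ}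
    (hu : ∀ y z, |u y - u z| ≤ R * ‖y - z‖) (c : ℝ) (x : E n) :
    mor K (fun y => u y - c) x = mor K u x - c := by
  obtain ⟨y, hy⟩ := exists_prox hR hK hu x
  have hy' : IsProx K (fun y => u y - c) x y := by
    intro z
    have := hy z
    show u y - c + K / 2 * ‖x - y‖ ^ 2 ≤ u z - c + K / 2 * ‖x - z‖ ^ 2
    linarith
  rw [mor_eq hy', mor_eq hy]
  ring

private theorem kantw_FF_add_const {R K : ℝ} (hR : 0 ≤ R) (hK : 0 < K) {Ω : Set (E n)}
    (hb : Bornology.IsBounded Ω) {f : E n → ℝ} (hf : ContinuousOn f (closedBall (0 : E n) R))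
    (hm : ∫ ξ in closedBall (0 : E n) R, f ξ = volume.real Ω)
    {g : E n → ℝ} (hg : Continuous g) (c : ℝ) :
    FFw R K f Ω (fun ξ => g ξ + c) = FFw R K f Ω g := by
  have hfi : IntegrableOn f (closedBall (0 : E n) R) :=
    hf.integrableOn_compact (isCompact_closedBall (0 : E n) R)
  have e1 : ∫ ξ in closedBall (0 : E n) R, f ξ * (g ξ + c) =
      (∫ ξ in closedBall (0 : E n) R, f ξ * g ξ) + volume.real Ω * c := by
    have : ∀ ξ, f ξ * (g ξ + c) = f ξ * g ξ + f ξ * c := fun ξ => by ring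
    simp only [this]
    rw [integral_add (kantw_integrableOn_mul hf hg) (hfi.mul_const c), integral_mul_const, hm]
  have e0 : leg R (fun ξ => g ξ + c) = fun y => leg R g y - c := by
    funext y
    exact leg_add_const hR hg c y
  have e2 : ∫ x in Ω, mor K (leg R (fun ξ => g ξ + c)) x =
      (∫ x in Ω, mor K (leg R g) x) - volume.real Ω * c := by
    rw [e0]
    have : (fun x => mor K (fun y => leg R g y - c) x) = fun x => mor K (leg R g) x - c := by
      funext x
      exact kantw_mor_sub_const hR hK (leg_lip hR hg) c x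
    rw [this, integral_sub (kantw_integrableOn hb (kantw_cont_mor hR hK hg))
      (kantw_integrableOn hb continuous_const), setIntegral_const, smul_eq_mul]
  unfold FFw
  rw [e1, e2]
  ring

private theorem kantw_FF_reg {R K ρ L : ℝ} (hR : 0 ≤ R) (hK : 0 < K) {Ω : Set (E n)}
    (hΩ : MeasurableSet Ω) (hρ : Ω ⊆ closedBall 0 ρ) (hL0 : 0 ≤ L) (hL : ρ + R / K ≤ L)
    {f : E n → ℝ} (hf : ContinuousOn f (closedBall (0 : E n) R))
    (hf0 : ∀ ξ ∈ closedBall (0 : E n) R, 0 ≤ f ξ) {g : E n → ℝ} (hg : Continuous g) :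
    FFw R K f Ω (leg L (leg R g)) ≤ FFw R K f Ω g := by
  have hb : Bornology.IsBounded Ω := isBounded_closedBall.subset hρ
  have hu := kantw_cont_leg hR hg
  have hgh : Continuous (leg L (leg R g)) := kantw_cont_leg hL0 hu
  have h1 : ∀ ξ ∈ closedBall (0 : E n) R, leg L (leg R g) ξ ≤ g ξ := by
    intro ξ hξ
    obtain ⟨y, hy, he⟩ := leg_attained hL0 hu ξ
    have := le_leg hg y hξ
    rw [he]
    rw [real_inner_comm] at this
    linarith
  have h2 : ∀ y ∈ closedBall (0 : E n) L, leg R (leg L (leg R g)) y ≤ leg R g y := by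
    intro y hy
    obtain ⟨ξ, hξ, he⟩ := leg_attained hR hgh y
    have := le_leg hu ξ hy
    rw [he]
    rw [real_inner_comm] at this
    linarith
  have h3 : ∀ x ∈ Ω, mor K (leg R (leg L (leg R g))) x ≤ mor K (leg R g) x := by
    intro x hx
    obtain ⟨y, hy⟩ := exists_prox hR hK (leg_lip hR hg) x
    have hn := hy.norm_le hR hK (leg_convex hR hg) (leg_lip hR hg)
    rw [norm_smul, Real.norm_of_nonneg hK.le] at hn
    have hxy : ‖x - y‖ ≤ R / K := by
      rw [le_div_iff₀ hK]
      linarith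
    have hxρ : ‖x‖ ≤ ρ := by simpa using hρ hx
    have hyL : y ∈ closedBall (0 : E n) L := by
      rw [mem_closedBall_zero_iff]
      have : ‖y‖ ≤ ‖x‖ + ‖x - y‖ := by
        have h := norm_sub_le x (x - y)
        simpa using h
      linarith
    rw [mor_eq hy]
    refine (mor_le hR hK (leg_lip hR hgh) x y).trans ?_
    have := h2 y hyL
    linarith
  unfold FFw
  refine add_le_add ?_ ?_
  · exact setIntegral_mono_on (kantw_integrableOn_mul hf hgh) (kantw_integrableOn_mul hf hg)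
      measurableSet_closedBall (fun ξ hξ => mul_le_mul_of_nonneg_left (h1 ξ hξ) (hf0 ξ hξ))
  · exact setIntegral_mono_on (kantw_integrableOn hb (kantw_cont_mor hR hK hgh))
      (kantw_integrableOn hb (kantw_cont_mor hR hK hg)) hΩ h3

private def kantwClass (n : ℕ) (L : ℝ) : Set (E n → ℝ) :=
  {g | (∀ x y, |g x - g y| ≤ L * ‖x - y‖) ∧ g 0 = 0}

private theorem kantw_isCompact (L : ℝ) : IsCompact (kantwClass n L) := by
  have hK : IsCompact (Set.pi univ fun x : E n => Icc (-(L * ‖x‖)) (L * ‖x‖)) :=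
    isCompact_univ_pi fun x => isCompact_Icc
  refine hK.of_isClosed_subset ?_ ?_
  · have h1 : IsClosed {g : E n → ℝ | ∀ x y, |g x - g y| ≤ L * ‖x - y‖} := by
      simp only [ofPred_forall]
      refine isClosed_iInter fun x => isClosed_iInter fun y => ?_
      exact isClosed_le (by fun_prop) continuous_const
    have h2 : IsClosed {g : E n → ℝ | g 0 = 0} := isClosed_eq (continuous_apply 0) continuous_const
    exact h1.inter h2
  · rintro g ⟨hg, h0⟩ x _
    have := hg x 0
    rw [h0, sub_zero, sub_zero] at this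
    exact abs_le.1 this

private theorem kantw_continuousOn {R K L : ℝ} (hR : 0 ≤ R) (hK : 0 < K) (hL : 0 ≤ L)
    {Ω : Set (E n)} (hb : Bornology.IsBounded Ω) {f : E n → ℝ}
    (hf : ContinuousOn f (closedBall (0 : E n) R))
    (hf0 : ∀ ξ ∈ closedBall (0 : E n) R, 0 ≤ f ξ) {M : ℝ} (hM0 : 0 ≤ M)
    (hM : ∀ ξ ∈ closedBall (0 : E n) R, f ξ ≤ M) :
    ContinuousOn (FFw R K f Ω) (kantwClass n L) := by
  intro g hg
  rw [ContinuousWithinAt, Metric.tendsto_nhds]
  intro ε hε
  set V : ℝ := M * volume.real (closedBall (0 : E n) R) + volume.real Ω with hV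
  have hV0 : 0 ≤ V := by positivity
  obtain ⟨δ, hδ, hδε⟩ : ∃ δ : ℝ, 0 < δ ∧ (2 * L + 1) * δ * V < ε := by
    refine ⟨ε / (2 * ((2 * L + 1) * (V + 1))), by positivity, ?_⟩
    have h1 : (2 * L + 1) * (ε / (2 * ((2 * L + 1) * (V + 1)))) * V =
        ε / 2 * (V / (V + 1)) := by
      field_simp
    rw [h1]
    have h2 : V / (V + 1) ≤ 1 := by
      rw [div_le_one (by positivity)]
      linarith
    nlinarith
  obtain ⟨t, ht, hcov⟩ := Metric.totallyBounded_iff.1
    (isCompact_closedBall (0 : E n) R).totallyBounded δ hδ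
  have hev : ∀ᶠ h in 𝓝[kantwClass n L] g, ∀ y ∈ t, |h y - g y| < δ := by
    rw [eventually_all_finite ht]
    intro y _
    have hc : Tendsto (fun h : E n → ℝ => h y) (𝓝[kantwClass n L] g) (𝓝 (g y)) :=
      ((continuous_apply y).tendsto g).mono_left nhdsWithin_le_nhds
    have := (Metric.tendsto_nhds.1 hc) δ hδ
    simpa [Real.dist_eq] using this
  have hmem : ∀ᶠ h in 𝓝[kantwClass n L] g, h ∈ kantwClass n L := eventually_mem_nhdsWithin
  filter_upwards [hev, hmem] with h h1 h2
  have hC : ∀ ξ ∈ closedBall (0 : E n) R, |h ξ - g ξ| ≤ (2 * L + 1) * δ := by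
    intro ξ hξ
    obtain ⟨y, hy, hyξ⟩ := mem_iUnion₂.1 (hcov hξ)
    rw [mem_ball, dist_eq_norm] at hyξ
    have a1 := h2.1 ξ y
    have a2 := hg.1 ξ y
    have a3 := h1 y hy
    have a4 : L * ‖ξ - y‖ ≤ L * δ := mul_le_mul_of_nonneg_left hyξ.le hL
    have e : h ξ - g ξ = (h ξ - h y) + (h y - g y) - (g ξ - g y) := by ring
    rw [e]
    calc |(h ξ - h y) + (h y - g y) - (g ξ - g y)|
        ≤ |(h ξ - h y) + (h y - g y)| + |g ξ - g y| := abs_sub _ _
      _ ≤ |h ξ - h y| + |h y - g y| + |g ξ - g y| := by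
          gcongr
          exact abs_add_le _ _
      _ ≤ (2 * L + 1) * δ := by linarith
  rw [Real.dist_eq]
  refine (kantw_FF_sub_le hR hK hb hf hf0 hM (kantw_cont_of_lip h2.1) (kantw_cont_of_lip hg.1)
    hC).trans_lt hδε

/-- PROOF: copy of `G/KantMin.lean` with the weight `f` in the first integral (bounded and
nonnegative on the closed ball). If `g` is a minimiser over the continuous functions then so is
`leg (ρ + R/K) (leg R g)` (`kantMin_FF_reg` there; `f ≥ 0` is used), so take `u₀ = leg R g`. -/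
theorem exists_min_FFw {R K : ℝ} (hR : 0 < R) (hK : 0 < K) {Ω : Set (E n)}
    (hΩ : MeasurableSet Ω) {ρ : ℝ} (hρ0 : 0 ≤ ρ) (hρ : Ω ⊆ closedBall 0 ρ) {f : E n → ℝ}
    (hf : ContinuousOn f (closedBall (0 : E n) R)) (hf0 : ∀ ξ ∈ closedBall (0 : E n) R, 0 ≤ f ξ)
    (hm : ∫ ξ in closedBall (0 : E n) R, f ξ = volume.real Ω) :
    ∃ u₀ : E n → ℝ, Continuous u₀ ∧ ∀ h : E n → ℝ, Continuous h →
      FFw R K f Ω (leg (ρ + R / K) u₀) ≤ FFw R K f Ω h := by
  have hb : Bornology.IsBounded Ω := isBounded_closedBall.subset hρ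
  set L : ℝ := ρ + R / K with hLd
  have hL0 : 0 ≤ L := by positivity
  obtain ⟨M, hM⟩ := (isCompact_closedBall (0 : E n) R).exists_bound_of_continuousOn hf
  have hM' : ∀ ξ ∈ closedBall (0 : E n) R, f ξ ≤ M := fun ξ hξ =>
    (le_abs_self _).trans (hM ξ hξ)
  have hM0 : 0 ≤ M := (norm_nonneg _).trans (hM 0 (mem_closedBall_self hR.le))
  have hne : (kantwClass n L).Nonempty := by
    refine ⟨fun _ => 0, fun x y => ?_, rfl⟩
    simp only [sub_self, abs_zero]
    positivity
  obtain ⟨g, hg, hmin⟩ := (kantw_isCompact (n := n) L).exists_isMinOn hne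
    (kantw_continuousOn hR.le hK hL0 hb hf hf0 hM0 hM')
  have hgc : Continuous g := kantw_cont_of_lip hg.1
  refine ⟨leg R g, kantw_cont_leg hR.le hgc, fun h hh => ?_⟩
  set k : E n → ℝ := leg L (leg R h) with hk
  have hkc : Continuous k := kantw_cont_leg hL0 (kantw_cont_leg hR.le hh)
  have hkm : (fun ξ => k ξ + -(k 0)) ∈ kantwClass n L := by
    refine ⟨fun x y => ?_, by ring⟩
    have := leg_lip hL0 (kantw_cont_leg hR.le hh) x y
    have e : k x + -(k 0) - (k y + -(k 0)) = k x - k y := by ring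
    show |k x + -(k 0) - (k y + -(k 0))| ≤ _
    rw [e]
    exact this
  calc FFw R K f Ω (leg L (leg R g)) ≤ FFw R K f Ω g :=
        kantw_FF_reg hR.le hK hΩ hρ hL0 le_rfl hf hf0 hgc
    _ ≤ FFw R K f Ω (fun ξ => k ξ + -(k 0)) := hmin hkm
    _ = FFw R K f Ω k := kantw_FF_add_const hR.le hK hb hf hm hkc _
    _ ≤ FFw R K f Ω h := kantw_FF_reg hR.le hK hΩ hρ hL0 le_rfl hf hf0 hh

end Pool.Agent.RU
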