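import Pool.Agent.H.MP_1b807b_an.U.CertRobin
import Pool.Agent.H.MP_1b807b_an.U.CertA

/-! MP_1b807b_an, universal bound, module MonoA: the first bound -/

set_option autoImplicit false

namespace Pool.Agent.RU

open MeasureTheory Metric Set Filter Pool.Agent.RG
open scoped RealInnerProductSpace Topology NNReal ENNReal

variable {n : ℕ}

private theorem monoa_den {β m : ℝ} {p : E n} (hp : p ∈ ball (0 : E n) β) :
    m ≤ β ^ 2 + m - ‖p‖ ^ 2 := by
  have h1 : ‖p‖ < β := mem_ball_zero_iff.1 hp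
  have h2 : ‖p‖ ^ 2 ≤ β ^ 2 := pow_le_pow_left₀ (norm_nonneg _) h1.le 2
  linarith

private theorem monoa_bound {β m μ : ℝ} (hβ : 0 < β) (hμ : 0 < μ) (hm : μ ≤ m) {p : E n}
    (hp : p ∈ ball (0 : E n) β) :
    0 ≤ (n / (β ^ 2 + m - ‖p‖ ^ 2)) ^ n ∧ (n / (β ^ 2 + m - ‖p‖ ^ 2)) ^ n ≤ (n / μ : ℝ) ^ n := by
  have h1 := monoa_den (m := m) hp
  have h2 : 0 < β ^ 2 + m - ‖p‖ ^ 2 := lt_of_lt_of_le hμ (hm.trans h1)
  have h3 : (0 : ℝ) ≤ n := Nat.cast_nonneg n
  refine ⟨by positivity, ?_⟩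
  refine pow_le_pow_left₀ (by positivity) ?_ n
  exact div_le_div_of_nonneg_left h3 hμ (hm.trans h1)

private theorem monoa_meas (β m : ℝ) :
    Measurable fun p : E n => ((n : ℝ) / (β ^ 2 + m - ‖p‖ ^ 2)) ^ n := by
  fun_prop

private theorem monoa_cont {β μ : ℝ} (hβ : 0 < β) (hμ : 0 < μ) :
    ContinuousOn (fun m : ℝ => ∫ p in ball (0 : E n) β, (n / (β ^ 2 + m - ‖p‖ ^ 2)) ^ n)
      (Ici μ) := by
  intro m hm
  have hm' : μ ≤ m := hm
  have hfin : volume (ball (0 : E n) β) ≠ ⊤ := measure_ball_lt_top.ne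
  refine ContinuousWithinAt.congr_of_eventuallyEq (f := fun m : ℝ =>
    ∫ p in ball (0 : E n) β, (n / (β ^ 2 + m - ‖p‖ ^ 2)) ^ n) ?_ (Eventually.of_forall fun _ => rfl) rfl
  refine tendsto_integral_filter_of_dominated_convergence (fun _ => (n / μ : ℝ) ^ n) ?_ ?_ ?_ ?_
  · exact Eventually.of_forall fun m => (monoa_meas β m).aestronglyMeasurable
  · filter_upwards [self_mem_nhdsWithin] with m' hm''
    refine (ae_restrict_iff' measurableSet_ball).2 (Eventually.of_forall fun p hp => ?_)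
    obtain ⟨h1, h2⟩ := monoa_bound hβ hμ hm'' hp
    rw [Real.norm_eq_abs, abs_of_nonneg h1]
    exact h2
  · exact integrableOn_const hfin
  · refine (ae_restrict_iff' measurableSet_ball).2 (Eventually.of_forall fun p hp => ?_)
    have h1 := monoa_den (m := m) hp
    have h2 : 0 < β ^ 2 + m - ‖p‖ ^ 2 := lt_of_lt_of_le hμ (hm'.trans h1)
    have h4 : ContinuousAt (fun m : ℝ => β ^ 2 + m - ‖p‖ ^ 2) m := by fun_prop
    have h3 : ContinuousAt (fun m : ℝ => ((n : ℝ) / (β ^ 2 + m - ‖p‖ ^ 2)) ^ n) m :=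
      (continuousAt_const.div h4 h2.ne').pow n
    exact h3.continuousWithinAt

private theorem monoa_small {β V : ℝ} (hn : 2 ≤ n) (hβ : 0 < β) (hV : 0 < V) (μ : ℝ)
    (hμ : 0 < μ) :
    ∃ M, μ ≤ M ∧ ∫ p in ball (0 : E n) β, (n / (β ^ 2 + M - ‖p‖ ^ 2)) ^ n ≤ V := by
  have hfin : volume (ball (0 : E n) β) ≠ ⊤ := measure_ball_lt_top.ne
  have h1 : Tendsto (fun M : ℝ => ((n : ℝ) / M) ^ n * volume.real (ball (0 : E n) β)) atTop
      (𝓝 0) := by
    have h2 : Tendsto (fun M : ℝ => (n : ℝ) / M) atTop (𝓝 0) :=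
      tendsto_const_nhds.div_atTop tendsto_id
    have h3 := (h2.pow n).mul_const (volume.real (ball (0 : E n) β))
    rw [zero_pow (by omega), zero_mul] at h3
    exact h3
  have h4 : ∀ᶠ M : ℝ in atTop, ((n : ℝ) / M) ^ n * volume.real (ball (0 : E n) β) < V :=
    h1.eventually (gt_mem_nhds hV)
  obtain ⟨M, hM1, hM2⟩ := (h4.and (eventually_ge_atTop μ)).exists
  refine ⟨M, hM2, le_trans ?_ hM1.le⟩
  have hM : 0 < M := lt_of_lt_of_le hμ hM2
  have h5 : ∫ _p in ball (0 : E n) β, ((n : ℝ) / M) ^ n =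
      ((n : ℝ) / M) ^ n * volume.real (ball (0 : E n) β) := by
    rw [setIntegral_const, smul_eq_mul, mul_comm]
  rw [← h5]
  refine setIntegral_mono_on ?_ (integrableOn_const hfin) measurableSet_ball fun p hp =>
    (monoa_bound hβ hM le_rfl hp).2
  refine Measure.integrableOn_of_bounded (M := ((n : ℝ) / M) ^ n) hfin
    (monoa_meas β M).aestronglyMeasurable ?_
  refine (ae_restrict_iff' measurableSet_ball).2 (Eventually.of_forall fun p hp => ?_)
  obtain ⟨h1, h2⟩ := monoa_bound hβ hM le_rfl hp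
  rw [Real.norm_eq_abs, abs_of_nonneg h1]
  exact h2

/-- PROOF: `I(μ) = ∫_{ball β} (n / (β² + μ - ‖p‖²))ⁿ` is continuous in `μ > 0` and tends to `0` as
`μ → ∞`, so by the intermediate value theorem there is `μ' ≥ μ` with `I(μ') = |D|` (`|D| > 0`);
`cert_robin` with `certA`; the sphere is a null set. -/
theorem boundA {β μ : ℝ} (hn : 2 ≤ n) (hβ : 0 < β) (hμ : 0 < μ) (D : Domain n)
    (hv : volume.real D.carrier ≤ ∫ p in ball (0 : E n) β, (n / (β ^ 2 + μ - ‖p‖ ^ 2)) ^ n) :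
    D.robin (-β) ≤ ((-β ^ 2 - μ : ℝ) : EReal) := by
  have hfin : volume D.carrier ≠ ⊤ := D.isBounded.measure_lt_top.ne
  have hV : 0 < volume.real D.carrier := by
    obtain ⟨x, hx⟩ := D.isConnected.nonempty
    exact ENNReal.toReal_pos (D.isOpen.measure_pos volume ⟨x, hx⟩).ne' hfin
  obtain ⟨M, hM1, hM2⟩ := monoa_small (n := n) hn hβ hV μ hμ
  have hc : ContinuousOn (fun m : ℝ => ∫ p in ball (0 : E n) β,
      (n / (β ^ 2 + m - ‖p‖ ^ 2)) ^ n) (Icc μ M) :=
    (monoa_cont hβ hμ).mono Icc_subset_Ici_self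
  obtain ⟨m, hm1, hm2⟩ := intermediate_value_Icc' hM1 hc ⟨hM2, hv⟩
  have hm0 : 0 < m := lt_of_lt_of_le hμ hm1.1
  have hΛ : β ^ 2 < β ^ 2 + m := by linarith
  have hcert := certA (n := n) hn hβ hΛ
  have hball : (closedBall (0 : E n) β : Set (E n)) =ᵐ[volume] ball (0 : E n) β := by
    refine (ae_eq_set).2 ⟨?_, ?_⟩
    · rw [Metric.closedBall_sdiff_ball]
      exact Measure.addHaar_sphere_of_ne_zero volume 0 hβ.ne'
    · rw [sdiff_eq_empty.2 ball_subset_closedBall, measure_empty]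
  have hint : ∫ ξ in closedBall (0 : E n) β, ((n : ℝ) / (β ^ 2 + m - ‖ξ‖ ^ 2)) ^ n =
      volume.real D.carrier := by
    rw [setIntegral_congr_set hball]
    exact hm2
  have h1 := cert_robin hn hβ (by positivity) hcert D hint
  refine h1.trans (EReal.coe_le_coe_iff.2 ?_)
  linarith [hm1.1]

end Pool.Agent.RU
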