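import Pool.Agent.H.MP_1b807b_an.U.DefsU

/-! MP_1b807b_an, universal bound, module ShellNum: choice of the parameters of the shell -/

set_option autoImplicit false

namespace Pool.Agent.RU

open MeasureTheory Metric Set Filter Pool.Agent.RG
open scoped RealInnerProductSpace Topology NNReal ENNReal

variable {n : ℕ}

private theorem shellnum_tanh (x : ℝ) : 1 - 2 * Real.exp (-(2 * x)) ≤ Real.tanh x := by
  rw [Real.tanh_eq_sinh_div_cosh, le_div_iff₀ (Real.cosh_pos x), Real.cosh_eq, Real.sinh_eq]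
  have h1 : Real.exp (-(2 * x)) = Real.exp (-x) * Real.exp (-x) := by
    rw [← Real.exp_add]; congr 1; ring
  have h2 : Real.exp x * Real.exp (-x) = 1 := by
    rw [← Real.exp_add, add_neg_cancel, Real.exp_zero]
  rw [h1]
  have h3 := Real.exp_pos (-x)
  have h4 : 0 < Real.exp (-x) * Real.exp (-x) * Real.exp (-x) := by positivity
  have h5 : (1 - 2 * (Real.exp (-x) * Real.exp (-x))) * ((Real.exp x + Real.exp (-x)) / 2)
      = (Real.exp x + Real.exp (-x)) / 2 - Real.exp (-x) * (Real.exp x * Real.exp (-x))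
        - Real.exp (-x) * Real.exp (-x) * Real.exp (-x) := by ring
  rw [h5, h2]
  linarith

private theorem shellnum_pow_le (r τ : ℝ) (hr : 0 ≤ r) (hτ : 0 ≤ τ) (m : ℕ) :
    (r + τ) ^ (m + 1) - r ^ (m + 1) ≤ (m + 1) * τ * (r + τ) ^ m := by
  induction m with
  | zero => simp
  | succ m ih =>
    have h1 : (r + τ) ^ (m + 1 + 1) - r ^ (m + 1 + 1) =
        (r + τ) * ((r + τ) ^ (m + 1) - r ^ (m + 1)) + τ * r ^ (m + 1) := by ring
    have h2 : r ^ (m + 1) ≤ (r + τ) ^ (m + 1) := pow_le_pow_left₀ hr (by linarith) _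
    have h3 := mul_le_mul_of_nonneg_left ih (by linarith : 0 ≤ r + τ)
    have h4 := mul_le_mul_of_nonneg_left h2 hτ
    rw [h1]
    push_cast
    have h5 : (r + τ) * ((↑m + 1) * τ * (r + τ) ^ m) = (↑m + 1) * τ * (r + τ) ^ (m + 1) := by ring
    rw [h5] at h3
    linarith

private theorem shellnum_le_pow (r τ : ℝ) (hr : 0 ≤ r) (hτ : 0 ≤ τ) (m : ℕ) :
    (m + 1) * τ * r ^ m ≤ (r + τ) ^ (m + 1) - r ^ (m + 1) := by
  induction m with
  | zero => simp
  | succ m ih =>
    have h1 : (r + τ) ^ (m + 1 + 1) - r ^ (m + 1 + 1) =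
        r * ((r + τ) ^ (m + 1) - r ^ (m + 1)) + τ * (r + τ) ^ (m + 1) := by ring
    have h2 : r ^ (m + 1) ≤ (r + τ) ^ (m + 1) := pow_le_pow_left₀ hr (by linarith) _
    have h3 := mul_le_mul_of_nonneg_left ih hr
    have h4 := mul_le_mul_of_nonneg_left h2 hτ
    rw [h1]
    push_cast
    have h5 : r * ((↑m + 1) * τ * r ^ m) = (↑m + 1) * τ * r ^ (m + 1) := by ring
    rw [h5] at h3
    linarith

/-- the inner radius -/
private theorem shellnum_radius {m : ℕ} (hm : 1 ≤ m) {ω A τ : ℝ} (hω : 0 < ω) (hA : 0 < A)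
    (hτ : 0 < τ) (h : ω * τ ^ (m + 1) < A) :
    ∃ r : ℝ, 0 < r ∧ ω * ((r + τ) ^ (m + 1) - r ^ (m + 1)) = A := by
  set R : ℝ := A / (ω * ((m + 1) * τ)) + 1 with hR
  have hpos : 0 < ω * (((m : ℝ) + 1) * τ) := by positivity
  have hR1 : 1 ≤ R := by
    have : 0 < A / (ω * ((m + 1) * τ)) := by positivity
    linarith
  have hRm : R ≤ R ^ m := le_self_pow₀ hR1 (by omega)
  have hcont : ContinuousOn (fun r : ℝ => ω * ((r + τ) ^ (m + 1) - r ^ (m + 1))) (Icc 0 R) := by
    fun_prop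
  have h0 : ω * ((0 + τ) ^ (m + 1) - 0 ^ (m + 1)) ≤ A := by
    simp only [zero_add, ne_eq, Nat.add_eq_zero_iff, one_ne_zero, and_false, not_false_eq_true,
      zero_pow, sub_zero]
    exact h.le
  have h1 : A ≤ ω * ((R + τ) ^ (m + 1) - R ^ (m + 1)) := by
    have h2 := shellnum_le_pow R τ (by linarith) hτ.le m
    have h3 : A ≤ ω * (((m : ℝ) + 1) * τ) * R := by
      rw [hR, mul_add, mul_div_cancel₀ _ hpos.ne']
      linarith
    calc A ≤ ω * (((m : ℝ) + 1) * τ) * R := h3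
      _ ≤ ω * (((m : ℝ) + 1) * τ) * R ^ m := mul_le_mul_of_nonneg_left hRm hpos.le
      _ = ω * ((m + 1) * τ * R ^ m) := by ring
      _ ≤ _ := mul_le_mul_of_nonneg_left h2 hω.le
  obtain ⟨r, hr, hr2⟩ := intermediate_value_Icc (by linarith : (0 : ℝ) ≤ R) hcont ⟨h0, h1⟩
  refine ⟨r, lt_of_le_of_ne hr.1 ?_, hr2⟩
  rintro rfl
  simp only [zero_add, ne_eq, Nat.add_eq_zero_iff, one_ne_zero, and_false, not_false_eq_true,
    zero_pow, sub_zero] at hr2
  linarith

/-- PROOF: as `ringf_num` in `A/RingF.lean` (there `n = 2`). `τ = (1 + e₁) (n/(n-1)) log β / β`,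
`k = β (1 + 4 β^{-(1+e₁) n/(n-1)})` (`tanh x ≥ 1 - 2 e^{-2x}`), `r₁ > 0` is determined by
`(r₁ + τ)ⁿ - r₁ⁿ = A/ω`, `ω = volume (ball 0 1)` (intermediate value theorem; `τ → 0`, so such an `r₁`
exists for large `β`). `n τ (r₁ + τ)^{n-1} ≥ A/ω` gives `r₁ + τ ≥ (A/(n ω τ))^{1/(n-1)}`, which tends to
infinity, so `r₁ ≥ (1 - e₂) (A/(n ω τ))^{1/(n-1)}` and
`(n-1) k / r₁ ≤ (1 + e₃) (n-1) β (sArea n (n/(n-1)) log β / (β A))^{1/(n-1)} = (1 + e₃) 2^{1/(n-1)} kap n A β`;
`k² - β² ≤ 24 β^{2 - (1+e₁) n/(n-1)}` is of smaller order than `β^{(n-2)/(n-1)}`. -/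
theorem shell_num (hn : 2 ≤ n) {A ε : ℝ} (hA : 0 < A) (hε : 0 < ε) : ∃ β₀ : ℝ, ∀ β ≥ β₀,
    ∃ r₁ τ k : ℝ, 0 < r₁ ∧ 0 < τ ∧ 0 < k ∧
      volume.real (ball (0 : E n) 1) * ((r₁ + τ) ^ n - r₁ ^ n) = A ∧
      β ≤ k * Real.tanh (k * (τ / 2)) ∧
      k ^ 2 + (n - 1) * k / r₁ ≤
        β ^ 2 + (1 + ε) * (2 : ℝ) ^ (1 / ((n : ℝ) - 1)) * kap n A β := by
  obtain ⟨m, rfl⟩ : ∃ m, n = m + 1 := ⟨n - 1, by omega⟩
  have hm : 1 ≤ m := by omega
  have hm0 : (0 : ℝ) < m := by exact_mod_cast hm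
  have hcast : ((m + 1 : ℕ) : ℝ) - 1 = m := by push_cast; ring
  set ω : ℝ := volume.real (ball (0 : E (m + 1)) 1) with hωdef
  have hω : 0 < ω := by
    rw [hωdef, measureReal_def]
    exact ENNReal.toReal_pos (measure_ball_pos volume _ one_pos).ne' measure_ball_lt_top.ne
  -- constants
  set e : ℝ := ε / 4 with he
  have he0 : 0 < e := by positivity
  set C : ℝ := m * A / ((m + 1) * ((m + 1) * ω)) with hC
  have hC0 : 0 < C := by positivity
  set a : ℝ := (1 + e) * ((m + 1) / m) with ha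
  have ha0 : 0 < a := by positivity
  -- limits
  have hτlim : Tendsto (fun β : ℝ => a * (Real.log β / β)) atTop (𝓝 (a * 0)) :=
    (Real.isLittleO_log_id_atTop.tendsto_div_nhds_zero).const_mul _
  have hqlim : Tendsto (fun β : ℝ => β ^ (-a)) atTop (𝓝 0) := tendsto_rpow_neg_atTop ha0
  have hratio : Tendsto (fun β : ℝ => C * (β / Real.log β)) atTop atTop := by
    apply Tendsto.const_mul_atTop hC0
    have h1 : Tendsto (fun β : ℝ => Real.log β / β) atTop (𝓝[>] 0) := by
      rw [tendsto_nhdsWithin_iff]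
      refine ⟨Real.isLittleO_log_id_atTop.tendsto_div_nhds_zero, ?_⟩
      filter_upwards [eventually_gt_atTop (1 : ℝ)] with β hβ
      exact div_pos (Real.log_pos hβ) (by linarith)
    have h2 := h1.inv_tendsto_nhdsGT_zero
    refine h2.congr fun β => ?_
    simp
  have hylim : Tendsto (fun β : ℝ => (C * (β / Real.log β)) ^ (1 / (m : ℝ))) atTop atTop :=
    (tendsto_rpow_atTop (by positivity)).comp hratio
  have hτy : Tendsto (fun β : ℝ => a * (Real.log β / β) *
      ((C * (β / Real.log β)) ^ (1 / (m : ℝ)))⁻¹) atTop (𝓝 (a * 0 * 0)) :=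
    hτlim.mul hylim.inv_tendsto_atTop
  have hF : Tendsto (fun β : ℝ => (1 + 4 * β ^ (-a)) / (1 / (1 + e) - a * (Real.log β / β) *
      ((C * (β / Real.log β)) ^ (1 / (m : ℝ)))⁻¹)) atTop
      (𝓝 ((1 + 4 * 0) / (1 / (1 + e) - a * 0 * 0))) := by
    refine ((hqlim.const_mul 4).const_add 1).div (hτy.const_sub _) ?_
    have : (0 : ℝ) < 1 / (1 + e) := by positivity
    simpa using this.ne'
  have hlimval : (1 + 4 * 0) / (1 / (1 + e) - a * 0 * 0) < 1 + ε / 2 := by
    have : (1 + 4 * 0) / (1 / (1 + e) - a * 0 * 0) = 1 + e := by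
      have : (1 : ℝ) + e ≠ 0 := by positivity
      field_simp
      ring
    rw [this, he]
    linarith
  have ev1 := hF.eventually_lt_const hlimval
  have ev2 : ∀ᶠ β : ℝ in atTop, a * (Real.log β / β) *
      ((C * (β / Real.log β)) ^ (1 / (m : ℝ)))⁻¹ < 1 / (1 + e) := by
    refine hτy.eventually_lt_const ?_
    have : (0 : ℝ) < 1 / (1 + e) := by positivity
    simpa using this
  have ev3 : ∀ᶠ β : ℝ in atTop, β ^ (-a) < 1 / 4 := hqlim.eventually_lt_const (by norm_num)
  have ev4 : ∀ᶠ β : ℝ in atTop, ω * (a * (Real.log β / β)) ^ (m + 1) < A := by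
    have h1 : Tendsto (fun β : ℝ => ω * (a * (Real.log β / β)) ^ (m + 1)) atTop
        (𝓝 (ω * (a * 0) ^ (m + 1))) := (hτlim.pow _).const_mul _
    refine h1.eventually_lt_const ?_
    simpa using hA
  have hb0 : 0 < e * ((m + 1) / m) := by positivity
  have ev5 : ∀ᶠ β : ℝ in atTop, 12 * (C ^ (1 / (m : ℝ)) * β ^ (-(e * ((m + 1) / m)))) <
      ε / 2 * m := by
    have h1 : Tendsto (fun β : ℝ => 12 * (C ^ (1 / (m : ℝ)) * β ^ (-(e * ((m + 1) / m)))))
        atTop (𝓝 (12 * (C ^ (1 / (m : ℝ)) * 0))) :=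
      ((tendsto_rpow_neg_atTop hb0).const_mul _).const_mul _
    refine h1.eventually_lt_const ?_
    simp only [mul_zero]
    positivity
  obtain ⟨β₁, hβ₁⟩ := Filter.eventually_atTop.mp
    (ev1.and (ev2.and (ev3.and (ev4.and ev5))))
  refine ⟨max β₁ 3, fun β hβ => ?_⟩
  obtain ⟨v1, v2, v3, v4, v5⟩ := hβ₁ β (le_trans (le_max_left _ _) hβ)
  have hβ3 : 3 ≤ β := le_trans (le_max_right _ _) hβ
  have hβ0 : 0 < β := by linarith
  have hlog : 1 ≤ Real.log β := by
    rw [Real.le_log_iff_exp_le hβ0]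
    exact (Real.exp_one_lt_d9.le.trans (by norm_num)).trans hβ3
  have hlog0 : 0 < Real.log β := by linarith
  set q : ℝ := β ^ (-a) with hqdef
  have hq0 : 0 < q := Real.rpow_pos_of_pos hβ0 _
  set τ : ℝ := a * (Real.log β / β) with hτdef
  have hτ : 0 < τ := by positivity
  set y : ℝ := (C * (β / Real.log β)) ^ (1 / (m : ℝ)) with hydef
  have hbase : 0 < C * (β / Real.log β) := by positivity
  have hy : 0 < y := Real.rpow_pos_of_pos hbase _
  have hym : y ^ m = C * (β / Real.log β) := by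
    rw [hydef, one_div, Real.rpow_inv_natCast_pow hbase.le (by omega)]
  have hβτ : β * τ = a * Real.log β := by
    rw [hτdef]; field_simp
  have hexp : Real.exp (-(β * τ)) = q := by
    rw [hβτ, hqdef, Real.rpow_def_of_pos hβ0]
    congr 1
    ring
  obtain ⟨r, hr, hrA⟩ := shellnum_radius hm hω hA hτ v4
  -- lower bound for the radius
  have hry : y / (1 + e) ≤ r + τ := by
    have h1 := shellnum_pow_le r τ hr.le hτ.le m
    have h2 : A ≤ ω * ((m + 1) * τ * (r + τ) ^ m) := by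
      rw [← hrA]
      exact mul_le_mul_of_nonneg_left h1 hω.le
    have h3 : A = ω * ((m + 1) * τ * (y ^ m / (1 + e))) := by
      rw [hym, hτdef, hC, ha]
      have : (1 : ℝ) + e ≠ 0 := by positivity
      field_simp
    have h4 : y ^ m / (1 + e) ≤ (r + τ) ^ m := by
      by_contra hcon
      push Not at hcon
      have h5 : ω * ((m + 1) * τ * (r + τ) ^ m) < ω * ((m + 1) * τ * (y ^ m / (1 + e))) := by
        apply mul_lt_mul_of_pos_left _ hω
        exact mul_lt_mul_of_pos_left hcon (by positivity)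
      linarith
    have h5 : (y / (1 + e)) ^ m ≤ y ^ m / (1 + e) := by
      rw [div_pow]
      apply div_le_div_of_nonneg_left (by positivity) (by positivity)
      exact le_self_pow₀ (by linarith) (by omega)
    exact (pow_le_pow_iff_left₀ (by positivity) (by positivity) (by omega : m ≠ 0)).mp
      (h5.trans h4)
  -- the coefficient
  set G : ℝ := β / y with hG
  have hG0 : 0 < G := by positivity
  have hkap : (2 : ℝ) ^ (1 / (((m + 1 : ℕ) : ℝ) - 1)) * kap (m + 1) A β = m * G := by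
    unfold kap sArea
    rw [hcast, ← hωdef]
    set X : ℝ := ((m + 1 : ℕ) : ℝ) * (((m + 1 : ℕ) : ℝ) * ω) * β ^ (m + 1 - 2) * Real.log β /
      (2 * m * A) with hX
    have hX0 : 0 < X := by positivity
    have h1 : (2 : ℝ) ^ (1 / (m : ℝ)) * (m * X ^ (1 / (m : ℝ))) =
        m * (2 * X) ^ (1 / (m : ℝ)) := by
      rw [Real.mul_rpow (by norm_num) hX0.le]
      ring
    rw [h1]
    congr 1
    rw [hG, eq_div_iff hy.ne', hydef, ← Real.mul_rpow (by positivity) hbase.le]
    have h2 : 2 * X * (C * (β / Real.log β)) = β ^ m := by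
      have h3 : β ^ m = β ^ (m + 1 - 2) * β := by
        rw [← pow_succ]
        congr 1
        omega
      rw [h3, hX, hC]
      push_cast
      field_simp
    rw [h2, one_div, Real.pow_rpow_inv_natCast hβ0.le (by omega)]
  refine ⟨r, τ, β * (1 + 4 * q), hr, hτ, by positivity, hrA, ?_, ?_⟩
  · have h1 := shellnum_tanh (β * (1 + 4 * q) * (τ / 2))
    have h2 : Real.exp (-(2 * (β * (1 + 4 * q) * (τ / 2)))) ≤ q := by
      rw [← hexp]
      apply Real.exp_le_exp.mpr
      have h3 : 0 < β * τ * (4 * q) := by positivity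
      nlinarith [h3]
    have h4 : 1 - 2 * q ≤ Real.tanh (β * (1 + 4 * q) * (τ / 2)) := by linarith
    calc β ≤ β * (1 + 4 * q) * (1 - 2 * q) := by
          have h5 : β * (1 + 4 * q) * (1 - 2 * q) = β + β * (2 * q * (1 - 4 * q)) := by ring
          have h6 : 0 ≤ β * (2 * q * (1 - 4 * q)) := by
            have : 0 ≤ 1 - 4 * q := by linarith
            positivity
          linarith
      _ ≤ β * (1 + 4 * q) * Real.tanh (β * (1 + 4 * q) * (τ / 2)) :=
          mul_le_mul_of_nonneg_left h4 (by positivity)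
  · have hgoal : (1 + ε) * (2 : ℝ) ^ (1 / (((m + 1 : ℕ) : ℝ) - 1)) * kap (m + 1) A β =
        (1 + ε) * (m * G) := by
      rw [mul_assoc, hkap]
    rw [hgoal, hcast]
    -- the first part
    have h1 : (β * (1 + 4 * q)) ^ 2 ≤ β ^ 2 + 12 * (β ^ 2 * q) := by
      have h2 : (β * (1 + 4 * q)) ^ 2 = β ^ 2 + 8 * (β ^ 2 * q) + 16 * (β ^ 2 * q) * q := by ring
      have h3 : 0 < β ^ 2 * q := by positivity
      nlinarith
    have h2 : 12 * (β ^ 2 * q) ≤ ε / 2 * (m * G) := by
      have h3 : β * q * y ≤ C ^ (1 / (m : ℝ)) * β ^ (-(e * ((m + 1) / m))) := by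
        have h4 : y ≤ C ^ (1 / (m : ℝ)) * β ^ (1 / (m : ℝ)) := by
          rw [← Real.mul_rpow hC0.le hβ0.le, hydef]
          apply Real.rpow_le_rpow hbase.le _ (by positivity)
          apply mul_le_mul_of_nonneg_left _ hC0.le
          exact div_le_self hβ0.le hlog
        calc β * q * y ≤ β * q * (C ^ (1 / (m : ℝ)) * β ^ (1 / (m : ℝ))) :=
              mul_le_mul_of_nonneg_left h4 (by positivity)
          _ = C ^ (1 / (m : ℝ)) * (β ^ (1 : ℝ) * β ^ (-a) * β ^ (1 / (m : ℝ))) := by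
              rw [Real.rpow_one, hqdef]; ring
          _ = C ^ (1 / (m : ℝ)) * β ^ (-(e * ((m + 1) / m))) := by
              rw [← Real.rpow_add hβ0, ← Real.rpow_add hβ0]
              congr 2
              rw [ha]
              field_simp
              ring
      have h5 : 12 * (β * q * y) ≤ ε / 2 * m := by linarith
      have h6 : 12 * (β ^ 2 * q) = 12 * (β * q * y) * G := by
        rw [hG]; field_simp
      rw [h6]
      have := mul_le_mul_of_nonneg_right h5 hG0.le
      linarith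
    -- the second part
    have hden : 0 < 1 / (1 + e) - τ * y⁻¹ := by linarith
    have h3 : y * (1 / (1 + e) - τ * y⁻¹) ≤ r := by
      have : y * (1 / (1 + e) - τ * y⁻¹) = y / (1 + e) - τ := by
        field_simp
      rw [this]
      linarith
    have h4 : (m : ℝ) * (β * (1 + 4 * q)) / r ≤ (1 + ε / 2) * (m * G) := by
      have h5 : (m : ℝ) * (β * (1 + 4 * q)) / r ≤
          (m : ℝ) * (β * (1 + 4 * q)) / (y * (1 / (1 + e) - τ * y⁻¹)) :=
        div_le_div_of_nonneg_left (by positivity) (by positivity) h3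
      have h6 : (m : ℝ) * (β * (1 + 4 * q)) / (y * (1 / (1 + e) - τ * y⁻¹)) =
          (m * G) * ((1 + 4 * q) / (1 / (1 + e) - τ * y⁻¹)) := by
        rw [hG]
        rw [div_eq_mul_inv, div_eq_mul_inv, div_eq_mul_inv, mul_inv]
        ring
      rw [h6] at h5
      refine h5.trans ?_
      rw [mul_comm (1 + ε / 2)]
      exact mul_le_mul_of_nonneg_left v1.le (by positivity)
    have h7 : (1 + ε) * (m * G) = (1 + ε / 2) * (m * G) + ε / 2 * (m * G) := by ring
    rw [h7]
    linarith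

end Pool.Agent.RU
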