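import Pool.Agent.H.MP_1b807b_an.U.AsymU
import Pool.Agent.H.MP_1b807b_an.U.MonoA
import Pool.Agent.H.MP_1b807b_an.U.ShellDom
import Pool.Agent.H.MP_1b807b_an.U.ShellLow
import Pool.Agent.H.MP_1b807b_an.U.ShellNum

/-! MP_1b807b_an, universal bound, module MainU: the two-sided asymptotics -/

set_option autoImplicit false

namespace Pool.Agent.RU

open MeasureTheory Metric Set Filter Pool.Agent.RG
open scoped RealInnerProductSpace Topology NNReal ENNReal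

variable {n : ℕ}

/-- the two-sided asymptotics for large parameter -/
theorem asym (hn : 2 ≤ n) {A ε : ℝ} (hA : 0 < A) (hε : 0 < ε) : ∃ β₀ : ℝ, ∀ β ≥ β₀,
    (∀ D : Domain n, volume.real D.carrier = A →
      D.robin (-β) ≤ ((-β ^ 2 - (1 - ε) * kap n A β : ℝ) : EReal)) ∧
    ∃ D : Domain n, (∃ r₁ r₂ : ℝ, 0 < r₁ ∧ r₁ < r₂ ∧
        D.carrier = {x : E n | r₁ < ‖x‖ ∧ ‖x‖ < r₂}) ∧ volume.real D.carrier = A ∧
      ((-β ^ 2 - (1 + ε) * (2 : ℝ) ^ (1 / ((n : ℝ) - 1)) * kap n A β : ℝ) : EReal) ≤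
        D.robin (-β) := by
  obtain ⟨β₁, h1⟩ := asym_upper hn hA hε
  obtain ⟨β₂, h2⟩ := shell_num hn hA hε
  refine ⟨max (max β₁ β₂) 1, fun β hβ => ⟨h1 β ((le_max_left _ _).trans ((le_max_left _ _).trans hβ)),
    ?_⟩⟩
  have hβ1 : 1 ≤ β := (le_max_right _ _).trans hβ
  obtain ⟨r₁, τ, k, hr, hτ, hk, hvol, htanh, hle⟩ :=
    h2 β ((le_max_right _ _).trans ((le_max_left _ _).trans hβ))
  have h12 : r₁ < r₁ + τ := by linarith
  obtain ⟨D, hD, hs, hn2, hn1⟩ := exists_shell hn hr h12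
  refine ⟨D, ⟨r₁, r₁ + τ, hr, h12, hD⟩, ?_, ?_⟩
  · rw [hD, shell_vol hn hr h12, hvol]
  · have hk' : β ≤ k * Real.tanh (k * ((r₁ + τ - r₁) / 2)) := by
      rw [add_sub_cancel_left]; exact htanh
    refine le_trans ?_ (shell_low hn hr h12 hk (by linarith) hk' hD hs hn2 hn1)
    rw [EReal.coe_le_coe_iff]
    linarith

end Pool.Agent.RU
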