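import Pool.Agent.H.MP_1b807b_an.U.DefsU
import Pool.Agent.H.MP_1b807b_an.G.MatIneq

/-! MP_1b807b_an, universal bound, module MatDir: a directional determinant inequality -/

set_option autoImplicit false

namespace Pool.Agent.RU

open MeasureTheory Metric Set Filter Pool.Agent.RG
open scoped RealInnerProductSpace Topology NNReal ENNReal

variable {n : ℕ}

/-- AM-GM for the eigenvalues of a positive semidefinite matrix -/
theorem matdir_amgm {m : ℕ} (hm : 1 ≤ m) {A : Matrix (Fin m) (Fin m) ℝ} (hA : A.PosSemidef) :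
    A.det ≤ (A.trace / m) ^ m := by
  have h0 : ∀ i, 0 ≤ hA.1.eigenvalues i := hA.eigenvalues_nonneg
  have hdet : A.det = ∏ i, hA.1.eigenvalues i := by
    simpa using hA.1.det_eq_prod_eigenvalues
  have htr : A.trace = ∑ i, hA.1.eigenvalues i := by
    simpa using hA.1.trace_eq_sum_eigenvalues
  have hmR : (0 : ℝ) < m := by exact_mod_cast hm
  have h1 := Real.geom_mean_le_arith_mean_weighted Finset.univ (fun _ : Fin m => (m : ℝ)⁻¹)
    hA.1.eigenvalues (fun _ _ => by positivity)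
    (by
      rw [Finset.sum_const, Finset.card_univ, Fintype.card_fin, nsmul_eq_mul]
      exact mul_inv_cancel₀ hmR.ne')
    (fun i _ => h0 i)
  have h2 : ∑ i, (m : ℝ)⁻¹ * hA.1.eigenvalues i = A.trace / m := by
    rw [← Finset.mul_sum, ← htr]
    ring
  have h3 : (∏ i, hA.1.eigenvalues i ^ (m : ℝ)⁻¹) ^ m = A.det := by
    rw [hdet, ← Finset.prod_pow]
    refine Finset.prod_congr rfl fun i _ => ?_
    rw [← Real.rpow_natCast, ← Real.rpow_mul (h0 i), inv_mul_cancel₀ hmR.ne', Real.rpow_one]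
  rw [← h3, ← h2]
  exact pow_le_pow_left₀ (Finset.prod_nonneg fun i _ => Real.rpow_nonneg (h0 i) _) h1 m

/-- Cauchy-Schwarz for the form of `S` -/
theorem matdir_cs {S : E n →L[ℝ] E n} (hs : (S : E n →ₗ[ℝ] E n).IsSymmetric)
    (hp : ∀ v, 0 ≤ ⟪S v, v⟫) (v w : E n) : ⟪S v, w⟫ ^ 2 ≤ ⟪S v, v⟫ * ⟪S w, w⟫ := by
  have hsym : ⟪S w, v⟫ = ⟪S v, w⟫ := by
    have h1 : ⟪S w, v⟫ = ⟪w, S v⟫ := hs w v
    rw [h1, real_inner_comm]
  have key : ∀ x : ℝ, 0 ≤ ⟪S w, w⟫ * (x * x) + (2 * ⟪S v, w⟫) * x + ⟪S v, v⟫ := by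
    intro x
    have h1 := hp (v + x • w)
    have h2 : ⟪S (v + x • w), v + x • w⟫ =
        ⟪S w, w⟫ * (x * x) + (2 * ⟪S v, w⟫) * x + ⟪S v, v⟫ := by
      rw [map_add, map_smul, inner_add_left, inner_add_right, inner_add_right,
        real_inner_smul_left, real_inner_smul_left, real_inner_smul_right,
        real_inner_smul_right, hsym]
      ring
    rw [h2] at h1
    exact h1
  have h3 := discrim_le_zero key
  unfold discrim at h3
  nlinarith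

/-- the inverse -/
theorem matdir_inv {S : E n →L[ℝ] E n} (hd : S.det ≠ 0) (ξ : E n) : S (S.inverse ξ) = ξ := by
  have e1 : (S.toContinuousLinearEquivOfDetNeZero hd : E n →L[ℝ] E n) = S :=
    ContinuousLinearMap.coe_toContinuousLinearEquivOfDetNeZero S hd
  have e2 : S.inverse = ((S.toContinuousLinearEquivOfDetNeZero hd).symm : E n →L[ℝ] E n) := by
    conv_lhs => rw [← e1]
    exact ContinuousLinearMap.inverse_equiv _
  rw [e2]
  have e3 := (S.toContinuousLinearEquivOfDetNeZero hd).apply_symm_apply ξ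
  rw [ContinuousLinearMap.toContinuousLinearEquivOfDetNeZero_apply] at e3
  exact e3

theorem matdir_first {S : E n →L[ℝ] E n} (hs : (S : E n →ₗ[ℝ] E n).IsSymmetric)
    (hp : ∀ v, 0 ≤ ⟪S v, v⟫) (hd : S.det ≠ 0) (ξ : E n) :
    (‖ξ‖ ^ 2) ^ 2 ≤ ⟪S.inverse ξ, ξ⟫ * ⟪S ξ, ξ⟫ := by
  have h1 := matdir_cs hs hp (S.inverse ξ) ξ
  rw [matdir_inv hd, real_inner_self_eq_norm_sq, real_inner_comm (S.inverse ξ) ξ] at h1
  exact h1

theorem matdir_pos {S : E n →L[ℝ] E n} (hs : (S : E n →ₗ[ℝ] E n).IsSymmetric)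
    (hp : ∀ v, 0 ≤ ⟪S v, v⟫) (hd : S.det ≠ 0) {v : E n} (hv : v ≠ 0) : 0 < ⟪S v, v⟫ := by
  refine lt_of_le_of_ne (hp v) fun h => ?_
  have h1 := matdir_first hs hp hd v
  rw [← h, mul_zero] at h1
  have h2 : 0 < (‖v‖ ^ 2) ^ 2 := by
    have := norm_pos_iff.mpr hv
    positivity
  linarith

/-- PROOF: `e = ξ / ‖ξ‖`, `s = ⟨S e, e⟩ > 0`, `t = tr S - s > 0`, `w = S⁻¹ ξ`. `s ⟨w, ξ⟩ ≥ ‖ξ‖²` is the
Cauchy-Schwarz inequality for the form of `S`. For `r > 0` let `S' = S + r ⟨e, ·⟩ e`: by the rank one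
formula `det S' = det S (1 + r ⟨S⁻¹ e, e⟩)`. Let `X = N S' N` with `N = α I + (γ - α) ⟨e, ·⟩ e`,
`α = ((n-1)/t)^{1/2}`, `γ = (1/(s + r))^{1/2}`; `X` is symmetric and nonnegative with trace
`α² t + γ² (s + r) = n`, so `det X ≤ 1` (AM-GM for the eigenvalues), i.e.
`det S' ≤ (s + r) (t/(n-1))^{n-1}` (`det N = α^{n-1} γ`). Divide by `r` and let `r → ∞`. -/
theorem mat_dir (hn : 2 ≤ n) {S : E n →L[ℝ] E n} (hs : (S : E n →ₗ[ℝ] E n).IsSymmetric)
    (hp : ∀ v, 0 ≤ ⟪S v, v⟫) (hd : S.det ≠ 0) {ξ : E n} (hξ : ξ ≠ 0) :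
    0 < S.det ∧ ∃ s t : ℝ, 0 < s ∧ 0 < t ∧ tr S = s + t ∧ ‖ξ‖ ^ 2 ≤ s * ⟪S.inverse ξ, ξ⟫ ∧
      ⟪S.inverse ξ, ξ⟫ * S.det ≤ ‖ξ‖ ^ 2 * (t / (n - 1)) ^ (n - 1) := by
  obtain ⟨m, rfl⟩ : ∃ m, n = m + 1 := ⟨n - 1, by omega⟩
  have hm : 1 ≤ m := by omega
  have hξ0 : 0 < ‖ξ‖ := norm_pos_iff.mpr hξ
  obtain ⟨e, he⟩ : ∃ e : E (m + 1), e = ‖ξ‖⁻¹ • ξ := ⟨_, rfl⟩
  have hen : ‖e‖ = 1 := by
    rw [he, norm_smul, norm_inv, norm_norm, inv_mul_cancel₀ hξ0.ne']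
  have hξe : ‖ξ‖ • e = ξ := by
    rw [he, smul_smul, mul_inv_cancel₀ hξ0.ne', one_smul]
  have hcard : Module.finrank ℝ (E (m + 1)) = Fintype.card (Fin (m + 1)) := by simp
  obtain ⟨b, hb⟩ := Orthonormal.exists_orthonormalBasis_extension_of_card_eq (𝕜 := ℝ) hcard
    (v := fun _ : Fin (m + 1) => e) (s := {0}) (by
      refine ⟨fun i => hen, fun i j hij => absurd (Subtype.ext ?_) hij⟩
      rw [Set.mem_singleton_iff.mp i.2, Set.mem_singleton_iff.mp j.2])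
  have hb0 : b 0 = e := hb 0 rfl
  obtain ⟨M, hM⟩ : ∃ M, M = LinearMap.toMatrix b.toBasis b.toBasis
      (S : E (m + 1) →ₗ[ℝ] E (m + 1)) := ⟨_, rfl⟩
  have hMp : M.PosSemidef := by
    rw [hM, LinearMap.posSemidef_toMatrix_iff]
    exact ⟨hs, fun x => by simpa using hp x⟩
  have hMe : ∀ i j, M i j = ⟪b i, S (b j)⟫ := by
    intro i j
    rw [hM, LinearMap.toMatrix_apply]
    simp [b.repr_apply_apply]
  have hMd : M.det = S.det := by
    rw [hM]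
    exact LinearMap.det_toMatrix b.toBasis _
  have hMt : M.trace = tr S := by
    rw [hM, tr_eq_trace]
    exact (LinearMap.trace_eq_matrix_trace ℝ b.toBasis _).symm
  have hdpos : 0 < S.det := by
    refine lt_of_le_of_ne ?_ (Ne.symm hd)
    rw [← hMd]
    exact hMp.det_nonneg
  obtain ⟨N, hN⟩ : ∃ N : Matrix (Fin m) (Fin m) ℝ, N = M.submatrix Fin.succ Fin.succ := ⟨_, rfl⟩
  have hNp : N.PosSemidef := by
    rw [hN]
    exact hMp.submatrix _
  have hsplit : tr S = ⟪S e, e⟫ + N.trace := by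
    rw [← hMt, hN]
    simp only [Matrix.trace, Matrix.diag_apply, Matrix.submatrix_apply]
    rw [Fin.sum_univ_succ, hMe, hb0, real_inner_comm]
  have hξS : ⟪S ξ, ξ⟫ = ‖ξ‖ ^ 2 * ⟪S e, e⟫ := by
    conv_lhs => rw [← hξe]
    rw [map_smul, real_inner_smul_left, real_inner_smul_right]
    ring
  refine ⟨hdpos, ⟪S e, e⟫, N.trace, ?_, ?_, hsplit, ?_, ?_⟩
  · refine matdir_pos hs hp hd fun h => ?_
    rw [h, norm_zero] at hen
    exact zero_ne_one hen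
  · rw [hN]
    simp only [Matrix.trace, Matrix.diag_apply, Matrix.submatrix_apply]
    have hne : (Finset.univ : Finset (Fin m)).Nonempty := ⟨⟨0, by omega⟩, Finset.mem_univ _⟩
    refine Finset.sum_pos (fun i _ => ?_) hne
    rw [hMe, real_inner_comm]
    refine matdir_pos hs hp hd fun h => ?_
    have h1 := b.orthonormal.1 i.succ
    rw [h, norm_zero] at h1
    exact zero_ne_one h1
  · have h1 := matdir_first hs hp hd ξ
    rw [hξS] at h1
    have h2 : ‖ξ‖ ^ 2 * ‖ξ‖ ^ 2 ≤ ‖ξ‖ ^ 2 * (⟪S e, e⟫ * ⟪S.inverse ξ, ξ⟫) := by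
      calc ‖ξ‖ ^ 2 * ‖ξ‖ ^ 2 = (‖ξ‖ ^ 2) ^ 2 := by ring
        _ ≤ ⟪S.inverse ξ, ξ⟫ * (‖ξ‖ ^ 2 * ⟪S e, e⟫) := h1
        _ = ‖ξ‖ ^ 2 * (⟪S e, e⟫ * ⟪S.inverse ξ, ξ⟫) := by ring
    exact le_of_mul_le_mul_left h2 (by positivity)
  · obtain ⟨w, hw⟩ : ∃ w, w = S.inverse ξ := ⟨_, rfl⟩
    have hSw : S w = ξ := by
      rw [hw]
      exact matdir_inv hd ξ
    rw [← hw]
    obtain ⟨c, hc⟩ : ∃ c : Fin (m + 1) → ℝ, c = fun i => ⟪b i, w⟫ := ⟨_, rfl⟩
    have hcr : (b.toBasis.repr w : Fin (m + 1) → ℝ) = c := by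
      rw [hc]
      funext i
      simp [b.repr_apply_apply]
    have hMc : M.mulVec c = Pi.single 0 ‖ξ‖ := by
      have h1 := LinearMap.toMatrix_mulVec_repr b.toBasis b.toBasis
        (S : E (m + 1) →ₗ[ℝ] E (m + 1)) w
      rw [← hM, hcr] at h1
      rw [h1]
      funext i
      have h2 : (b.toBasis.repr ((S : E (m + 1) →ₗ[ℝ] E (m + 1)) w) : Fin (m + 1) → ℝ) i =
          ⟪b i, ξ⟫ := by
        have h3 : (S : E (m + 1) →ₗ[ℝ] E (m + 1)) w = ξ := hSw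
        rw [h3]
        simp [b.repr_apply_apply]
      rw [h2]
      conv_lhs => rw [← hξe]
      rw [real_inner_smul_right, ← hb0]
      have h4 := orthonormal_iff_ite.mp b.orthonormal i 0
      rw [h4]
      by_cases hi : i = 0
      · rw [hi]
        simp
      · rw [if_neg hi, Pi.single_eq_of_ne hi, mul_zero]
    have hadj : M.det * c 0 = N.det * ‖ξ‖ := by
      have h1 : (M.adjugate.mulVec (M.mulVec c)) 0 = M.det * c 0 := by
        rw [Matrix.mulVec_mulVec, Matrix.adjugate_mul, Matrix.smul_mulVec, Matrix.one_mulVec]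
        rfl
      rw [← h1, hMc, Matrix.mulVec_single]
      have h2 : M.adjugate 0 0 = N.det := by
        rw [Matrix.adjugate_fin_succ_eq_det_submatrix, hN]
        simp [Fin.succAbove_zero]
      simp [h2]
    have hwξ : ⟪w, ξ⟫ = ‖ξ‖ * c 0 := by
      conv_lhs => rw [← hξe]
      have h8 : c 0 = ⟪e, w⟫ := by rw [hc, ← hb0]
      rw [real_inner_smul_right, h8, real_inner_comm]
    have h5 := matdir_amgm hm hNp
    have h6 : ⟪w, ξ⟫ * S.det = ‖ξ‖ ^ 2 * N.det := by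
      rw [hwξ, ← hMd]
      calc ‖ξ‖ * c 0 * M.det = ‖ξ‖ * (M.det * c 0) := by ring
        _ = ‖ξ‖ ^ 2 * N.det := by rw [hadj]; ring
    rw [h6]
    have h7 : ((m + 1 : ℕ) : ℝ) - 1 = m := by
      push_cast
      ring
    rw [h7, Nat.add_sub_cancel]
    exact mul_le_mul_of_nonneg_left h5 (by positivity)

end Pool.Agent.RU
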