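import Pool.Agent.H.MP_1b807b_an.U.CertRobin
import Pool.Agent.H.MP_1b807b_an.U.CertB

/-! MP_1b807b_an, universal bound, module MonoB: the second bound -/

set_option autoImplicit false

namespace Pool.Agent.RU

open MeasureTheory Metric Set Filter Pool.Agent.RG
open scoped RealInnerProductSpace Topology NNReal ENNReal

variable {n : ℕ}

/-- PROOF: as `boundA`, with `certB`. -/
theorem boundB {β μ : ℝ} (hn : 2 ≤ n) (hβ : 0 < β) (hμ : 0 < μ) (D : Domain n)
    (hv : volume.real D.carrier ≤ ∫ p in ball (0 : E n) β,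
      ((n - 1 : ℝ) / μ) ^ (n - 1) / (β ^ 2 - ‖p‖ ^ 2 + μ / (n - 1))) :
    D.robin (-β) ≤ ((-β ^ 2 - μ : ℝ) : EReal) := by
  have hn1 : (0 : ℝ) < n - 1 := by
    have : (2 : ℝ) ≤ n := by exact_mod_cast hn
    linarith
  have hfin : volume D.carrier ≠ ⊤ := D.isBounded.measure_lt_top.ne
  have hV : 0 < volume.real D.carrier := by
    obtain ⟨x, hx⟩ := D.isConnected.nonempty
    exact ENNReal.toReal_pos (D.isOpen.measure_pos volume ⟨x, hx⟩).ne' hfin
  have hden : ∀ (x : ℝ) (p : E n), 0 < max (β ^ 2 - ‖p‖ ^ 2) 0 + max x μ / (n - 1) := by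
    intro x p
    have h1 : 0 < max x μ / (n - 1) := div_pos (lt_max_of_lt_right hμ) hn1
    have h2 : 0 ≤ max (β ^ 2 - ‖p‖ ^ 2) 0 := le_max_right _ _
    linarith
  obtain ⟨G, hG⟩ : ∃ G : ℝ → ℝ, G = fun x => ∫ p in closedBall (0 : E n) β,
      ((n - 1 : ℝ) / max x μ) ^ (n - 1) / (max (β ^ 2 - ‖p‖ ^ 2) 0 + max x μ / (n - 1)) := ⟨_, rfl⟩
  have hGc : Continuous G := by
    rw [hG]
    refine continuous_parametric_integral_of_continuous (f := fun (x : ℝ) (p : E n) =>
      ((n - 1 : ℝ) / max x μ) ^ (n - 1) / (max (β ^ 2 - ‖p‖ ^ 2) 0 + max x μ / (n - 1))) ?_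
      (isCompact_closedBall (0 : E n) β)
    refine Continuous.div ?_ ?_ ?_
    · refine Continuous.pow (Continuous.div continuous_const (by fun_prop) ?_) _
      intro q
      exact (lt_max_of_lt_right hμ).ne'
    · fun_prop
    · intro q
      exact (hden q.1 q.2).ne'
  -- the value of G at x ≥ μ
  have hval : ∀ x, μ ≤ x → G x = ∫ p in closedBall (0 : E n) β,
      ((n - 1 : ℝ) / x) ^ (n - 1) / (β ^ 2 - ‖p‖ ^ 2 + x / (n - 1)) := by
    intro x hx
    rw [hG]
    refine setIntegral_congr_fun measurableSet_closedBall fun p hp => ?_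
    have h1 : ‖p‖ ^ 2 ≤ β ^ 2 := pow_le_pow_left₀ (norm_nonneg _) (mem_closedBall_zero_iff.1 hp) 2
    show _ = _
    simp only [max_eq_left hx, max_eq_left (sub_nonneg.2 h1)]
  have hbc : ∫ p in ball (0 : E n) β,
      ((n - 1 : ℝ) / μ) ^ (n - 1) / (β ^ 2 - ‖p‖ ^ 2 + μ / (n - 1)) = G μ := by
    rw [hval μ le_rfl]
    refine setIntegral_congr_set ?_
    refine ae_eq_of_subset_of_measure_ge ball_subset_closedBall ?_ measurableSet_ball.nullMeasurableSet
      measure_closedBall_lt_top.ne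
    rw [Measure.addHaar_closedBall _ _ hβ.le, Measure.addHaar_ball_of_pos _ _ hβ]
  rw [hbc] at hv
  -- an upper bound for G
  obtain ⟨W, hW⟩ : ∃ W, W = volume.real (closedBall (0 : E n) β) := ⟨_, rfl⟩
  have hW0 : 0 ≤ W := by rw [hW]; exact measureReal_nonneg
  have hup : ∀ x, μ ≤ x → (n - 1 : ℝ) ≤ x → G x ≤ W * ((n - 1) / x) := by
    intro x hx hx1
    have hx0 : 0 < x := hμ.trans_le hx
    have hr0 : 0 ≤ (n - 1 : ℝ) / x := div_nonneg hn1.le hx0.le
    have hr1 : (n - 1 : ℝ) / x ≤ 1 := (div_le_one hx0).2 hx1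
    have hle : ∀ p ∈ closedBall (0 : E n) β,
        ((n - 1 : ℝ) / x) ^ (n - 1) / (β ^ 2 - ‖p‖ ^ 2 + x / (n - 1)) ≤ (n - 1) / x := by
      intro p hp
      have h1 : ‖p‖ ^ 2 ≤ β ^ 2 :=
        pow_le_pow_left₀ (norm_nonneg _) (mem_closedBall_zero_iff.1 hp) 2
      have h2 : 0 < x / (n - 1) := div_pos hx0 hn1
      have h3 : ((n - 1 : ℝ) / x) ^ (n - 1) ≤ 1 := pow_le_one₀ hr0 hr1
      calc ((n - 1 : ℝ) / x) ^ (n - 1) / (β ^ 2 - ‖p‖ ^ 2 + x / (n - 1))
          ≤ ((n - 1 : ℝ) / x) ^ (n - 1) / (x / (n - 1)) :=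
            div_le_div_of_nonneg_left (pow_nonneg hr0 _) h2 (by linarith)
        _ ≤ 1 / (x / (n - 1)) := div_le_div_of_nonneg_right h3 h2.le
        _ = (n - 1) / x := one_div_div _ _
    have hc : ContinuousOn (fun p : E n =>
        ((n - 1 : ℝ) / x) ^ (n - 1) / (β ^ 2 - ‖p‖ ^ 2 + x / (n - 1))) (closedBall (0 : E n) β) := by
      refine ContinuousOn.div continuousOn_const (by fun_prop) fun p hp => ?_
      have h1 : ‖p‖ ^ 2 ≤ β ^ 2 :=
        pow_le_pow_left₀ (norm_nonneg _) (mem_closedBall_zero_iff.1 hp) 2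
      have h2 : 0 < x / (n - 1) := div_pos hx0 hn1
      linarith
    rw [hval x hx]
    calc _ ≤ ∫ _p in closedBall (0 : E n) β, (n - 1 : ℝ) / x := by
          refine setIntegral_mono_on (hc.integrableOn_compact (isCompact_closedBall _ _))
            (integrableOn_const measure_closedBall_lt_top.ne) measurableSet_closedBall hle
      _ = W * ((n - 1) / x) := by
          rw [setIntegral_const, smul_eq_mul, hW]
  -- the intermediate value
  obtain ⟨b, hb⟩ : ∃ b, b = max (max μ (n - 1)) (W * (n - 1) / volume.real D.carrier) := ⟨_, rfl⟩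
  have hb1 : μ ≤ b := by rw [hb]; exact (le_max_left _ _).trans (le_max_left _ _)
  have hb2 : (n - 1 : ℝ) ≤ b := by rw [hb]; exact (le_max_right _ _).trans (le_max_left _ _)
  have hb3 : W * (n - 1) / volume.real D.carrier ≤ b := by rw [hb]; exact le_max_right _ _
  have hb0 : 0 < b := hμ.trans_le hb1
  have hGb : G b ≤ volume.real D.carrier := by
    refine (hup b hb1 hb2).trans ?_
    rw [div_le_iff₀ hV] at hb3
    rw [← mul_div_assoc, div_le_iff₀ hb0]
    linarith
  obtain ⟨m, hm, hGm⟩ := intermediate_value_Icc' hb1 hGc.continuousOn ⟨hGb, hv⟩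
  have hm0 : 0 < m := hμ.trans_le hm.1
  rw [hval m hm.1] at hGm
  have h := cert_robin hn hβ (by positivity) (certB hn hβ hm0) D hGm
  refine h.trans ?_
  rw [EReal.coe_le_coe_iff]
  linarith [hm.1]

end Pool.Agent.RU
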