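import Pool.Agent.H.MP_1b807b_an.U.DefsU

/-! MP_1b807b_an, universal bound, module RayLim: the limit of the integrated difference quotient -/

set_option autoImplicit false

namespace Pool.Agent.RU

open MeasureTheory Metric Set Filter Pool.Agent.RG
open scoped RealInnerProductSpace Topology NNReal ENNReal

variable {n : ℕ}

theorem raylim_pow (n : ℕ) {t : ℝ} (ht : 0 ≤ t) :
    1 - n * t ≤ ((1 + t) ^ n)⁻¹ ∧ ((1 + t) ^ n)⁻¹ ≤ 1 := by
  constructor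
  · have h1 : (1 : ℝ) - t ≤ (1 + t)⁻¹ := by
      rw [← one_div, le_div_iff₀ (by positivity)]
      nlinarith [sq_nonneg t]
    have h2 : 0 < (1 + t)⁻¹ := by positivity
    have h3 := one_add_mul_le_pow (a := (1 + t)⁻¹ - 1) (by linarith) n
    rw [add_sub_cancel, inv_pow] at h3
    refine le_trans ?_ h3
    have h4 : (0 : ℝ) ≤ n := n.cast_nonneg
    nlinarith
  · exact inv_le_one_of_one_le₀ (one_le_pow₀ (by linarith))

theorem raylim_bound (n : ℕ) {R r t : ℝ} (hR : 0 < R) (hr : 0 ≤ r) (hrR : r < R) (ht : 0 < t) :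
    |((1 + t) ^ n)⁻¹ * ((R ^ 2 - r ^ 2 / (1 + t) ^ 2) * t⁻¹) -
      (if (1 + t) * r < R then (R ^ 2 - r ^ 2) * t⁻¹ else 0)| ≤ (n + 4) * R ^ 2 := by
  obtain ⟨a1, a2⟩ := raylim_pow n ht.le
  obtain ⟨b1, b2⟩ := raylim_pow 2 ht.le
  have ha0 : 0 < ((1 + t) ^ n)⁻¹ := by positivity
  have hb0 : 0 < ((1 + t) ^ 2)⁻¹ := by positivity
  set a : ℝ := ((1 + t) ^ n)⁻¹ with ha
  set b : ℝ := ((1 + t) ^ 2)⁻¹ with hb
  have hn : (0 : ℝ) ≤ n := n.cast_nonneg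
  have hrr : r ^ 2 ≤ R ^ 2 := pow_le_pow_left₀ hr hrR.le 2
  have hr2 : 0 ≤ r ^ 2 := sq_nonneg r
  have hR2 : 0 < R ^ 2 := by positivity
  push_cast at b1
  have key : ∀ y : ℝ, |y| ≤ (n + 4) * R ^ 2 * t → |y * t⁻¹| ≤ (n + 4) * R ^ 2 := by
    intro y hy
    rw [abs_mul, abs_of_pos (inv_pos.2 ht), ← div_eq_mul_inv, div_le_iff₀ ht]
    exact hy
  have hdiv : r ^ 2 / (1 + t) ^ 2 = r ^ 2 * b := by rw [hb, div_eq_mul_inv]
  rw [hdiv]
  have hrb : r ^ 2 * b ≤ r ^ 2 := mul_le_of_le_one_right hr2 b2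
  have hrb0 : 0 ≤ r ^ 2 * b := mul_nonneg hr2 hb0.le
  split_ifs with hc
  · have e : a * ((R ^ 2 - r ^ 2 * b) * t⁻¹) - (R ^ 2 - r ^ 2) * t⁻¹ =
        ((a - 1) * (R ^ 2 - r ^ 2 * b) + r ^ 2 * (1 - b)) * t⁻¹ := by ring
    rw [e]
    apply key
    rw [abs_le]
    have h1 : -(n * t * R ^ 2) ≤ (a - 1) * (R ^ 2 - r ^ 2 * b) := by
      have h2 : (1 - a) * (R ^ 2 - r ^ 2 * b) ≤ (n * t) * R ^ 2 :=
        mul_le_mul (by linarith) (by linarith) (by linarith) (by positivity)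
      linarith
    have h1' : (a - 1) * (R ^ 2 - r ^ 2 * b) ≤ 0 :=
      mul_nonpos_of_nonpos_of_nonneg (by linarith) (by linarith)
    have h3 : r ^ 2 * (1 - b) ≤ R ^ 2 * (2 * t) :=
      mul_le_mul hrr (by linarith) (by linarith) hR2.le
    have h3' : 0 ≤ r ^ 2 * (1 - b) := mul_nonneg hr2 (by linarith)
    have h4 : 0 ≤ n * t * R ^ 2 := by positivity
    have h5 : 0 ≤ t * R ^ 2 := by positivity
    constructor <;> nlinarith
  · have e : a * ((R ^ 2 - r ^ 2 * b) * t⁻¹) - 0 = (a * (R ^ 2 - r ^ 2 * b)) * t⁻¹ := by ring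
    rw [e]
    apply key
    rw [not_lt] at hc
    have h1 : R ^ 2 * b ≤ r ^ 2 := by
      have h2 : R ^ 2 ≤ ((1 + t) * r) ^ 2 := pow_le_pow_left₀ hR.le hc 2
      rw [hb, ← div_eq_mul_inv, div_le_iff₀ (by positivity)]
      linarith [mul_pow (1 + t) r 2]
    have h2 : R ^ 2 * b * b ≤ r ^ 2 * b := mul_le_mul_of_nonneg_right h1 hb0.le
    have h3 : R ^ 2 - r ^ 2 * b ≤ 4 * t * R ^ 2 := by
      have h4 : R ^ 2 - R ^ 2 * b * b = R ^ 2 * ((1 - b) * (1 + b)) := by ring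
      have h5 : (1 - b) * (1 + b) ≤ (2 * t) * 2 :=
        mul_le_mul (by linarith) (by linarith) (by linarith) (by positivity)
      have h6 : R ^ 2 * ((1 - b) * (1 + b)) ≤ R ^ 2 * ((2 * t) * 2) :=
        mul_le_mul_of_nonneg_left h5 hR2.le
      linarith
    have h7 : a * (R ^ 2 - r ^ 2 * b) ≤ 1 * (4 * t * R ^ 2) :=
      mul_le_mul a2 h3 (by linarith) zero_le_one
    have h8 : 0 ≤ a * (R ^ 2 - r ^ 2 * b) := mul_nonneg ha0.le (by linarith)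
    rw [abs_of_nonneg h8]
    have h9 : 0 ≤ n * t * R ^ 2 := by positivity
    nlinarith

theorem raylim_deriv (n : ℕ) (R r : ℝ) :
    HasDerivAt (fun t : ℝ => ((1 + t) ^ n)⁻¹ * (R ^ 2 - r ^ 2 / (1 + t) ^ 2))
      (-(n * (R ^ 2 - r ^ 2) - 2 * r ^ 2)) 0 := by
  have h0 : HasDerivAt (fun t : ℝ => 1 + t) 1 0 := by
    simpa using (hasDerivAt_id (0 : ℝ)).const_add 1
  have h1 := (h0.pow n).inv (by simp)
  have h2 := (((h0.pow 2).inv (by simp)).const_mul (r ^ 2)).const_sub (R ^ 2)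
  have h3 := h1.mul h2
  refine (h3.congr_deriv ?_).congr_of_eventuallyEq ?_
  · simp
    ring
  · refine Eventually.of_forall fun t => ?_
    simp [div_eq_mul_inv]

theorem raylim_lim (n : ℕ) {R r : ℝ} (hr : r < R) :
    Tendsto (fun j : ℕ => ((1 + 1 / ((j : ℝ) + 1)) ^ n)⁻¹ *
        ((R ^ 2 - r ^ 2 / (1 + 1 / ((j : ℝ) + 1)) ^ 2) * ((j : ℝ) + 1)) -
      (if (1 + 1 / ((j : ℝ) + 1)) * r < R then (R ^ 2 - r ^ 2) * ((j : ℝ) + 1) else 0)) atTop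
      (𝓝 (-(n * (R ^ 2 - r ^ 2) - 2 * r ^ 2))) := by
  have ht : Tendsto (fun j : ℕ => 1 / ((j : ℝ) + 1)) atTop (𝓝 0) :=
    tendsto_one_div_add_atTop_nhds_zero_nat
  have ht' : Tendsto (fun j : ℕ => 1 / ((j : ℝ) + 1)) atTop (𝓝[≠] 0) := by
    refine tendsto_nhdsWithin_iff.2 ⟨ht, Eventually.of_forall fun j => ?_⟩
    have : (0 : ℝ) < 1 / ((j : ℝ) + 1) := by positivity
    exact this.ne'
  have h1 := (hasDerivAt_iff_tendsto_slope_zero.1 (raylim_deriv n R r)).comp ht'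
  refine h1.congr' ?_
  have h2 : ∀ᶠ j : ℕ in atTop, (1 + 1 / ((j : ℝ) + 1)) * r < R := by
    have h3 : Tendsto (fun j : ℕ => (1 + 1 / ((j : ℝ) + 1)) * r) atTop (𝓝 ((1 + 0) * r)) :=
      (tendsto_const_nhds.add ht).mul_const r
    refine h3.eventually_lt_const ?_
    simpa using hr
  filter_upwards [h2] with j hj
  rw [if_pos hj]
  simp only [Function.comp_apply, smul_eq_mul, zero_add, add_zero, one_pow, inv_one, one_mul,
    div_one, one_div, inv_inv]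
  ring

/-- PROOF: substitution `η = (1 + t) ξ` (`Measure.setIntegral_comp_smul_of_pos` or
`integral_comp_smul`): with `t = 1/(j+1)` the integral is
`∫_{‖η‖ < R} t⁻¹ [(1+t)⁻ⁿ (R² - ‖η‖²/(1+t)²) - (R² - ‖η‖²) 1_{(1+t)‖η‖ < R}] G η`; the bracket divided by `t`
is bounded (if `(1+t)‖η‖ ≥ R` then `0 ≤ R² - ‖η‖²/(1+t)² ≤ R² (1 - (1+t)⁻⁴) ≤ 4 t R²`) and tends to
`-n (R² - ‖η‖²) + 2 ‖η‖²`; dominated convergence. -/
theorem ray_lim {R : ℝ} (hR : 0 < R) {G : E n → ℝ} (hG : Measurable G) (h0 : ∀ ξ, 0 ≤ G ξ)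
    {M : ℝ} (hM : ∀ ξ, G ξ ≤ M) :
    Tendsto (fun j : ℕ => ∫ ξ in {ξ : E n | (1 + 1 / ((j : ℝ) + 1)) * ‖ξ‖ < R},
      (R ^ 2 - ‖ξ‖ ^ 2) * (((j : ℝ) + 1) * (G ((1 + 1 / ((j : ℝ) + 1)) • ξ) - G ξ))) atTop
      (𝓝 (-∫ ξ in ball (0 : E n) R, (n * (R ^ 2 - ‖ξ‖ ^ 2) - 2 * ‖ξ‖ ^ 2) * G ξ)) := by
  classical
  have hM0 : 0 ≤ M := (h0 0).trans (hM 0)
  have hn : (0 : ℝ) ≤ n := n.cast_nonneg
  -- the integral after the substitution
  have key : ∀ j : ℕ, (∫ ξ in {ξ : E n | (1 + 1 / ((j : ℝ) + 1)) * ‖ξ‖ < R},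
      (R ^ 2 - ‖ξ‖ ^ 2) * (((j : ℝ) + 1) * (G ((1 + 1 / ((j : ℝ) + 1)) • ξ) - G ξ))) =
      ∫ ξ in ball (0 : E n) R, (((1 + 1 / ((j : ℝ) + 1)) ^ n)⁻¹ *
        ((R ^ 2 - ‖ξ‖ ^ 2 / (1 + 1 / ((j : ℝ) + 1)) ^ 2) * ((j : ℝ) + 1)) -
      (if (1 + 1 / ((j : ℝ) + 1)) * ‖ξ‖ < R then (R ^ 2 - ‖ξ‖ ^ 2) * ((j : ℝ) + 1) else 0)) *
        G ξ := by
    intro j
    have hJ : (0 : ℝ) < (j : ℝ) + 1 := by positivity
    have hc1 : (1 : ℝ) ≤ 1 + 1 / ((j : ℝ) + 1) := by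
      have : (0 : ℝ) < 1 / ((j : ℝ) + 1) := by positivity
      linarith
    set c : ℝ := 1 + 1 / ((j : ℝ) + 1) with hc
    set J : ℝ := (j : ℝ) + 1 with hJd
    have hc0 : 0 < c := by linarith
    have hSm : MeasurableSet {ξ : E n | c * ‖ξ‖ < R} :=
      (isOpen_lt (by fun_prop) continuous_const).measurableSet
    have hSb : {ξ : E n | c * ‖ξ‖ < R} ⊆ ball (0 : E n) R := by
      intro ξ hξ
      rw [mem_ball_zero_iff]
      exact lt_of_le_of_lt (le_mul_of_one_le_left (norm_nonneg ξ) hc1) hξ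
    have hbfin : volume (ball (0 : E n) R) ≠ ⊤ := measure_ball_lt_top.ne
    have hSfin : volume {ξ : E n | c * ‖ξ‖ < R} ≠ ⊤ :=
      ((measure_mono hSb).trans_lt measure_ball_lt_top).ne
    have hbd : ∀ x g : ℝ, 0 ≤ x → x ≤ R ^ 2 → 0 ≤ g → g ≤ M →
        ‖(R ^ 2 - x) * (J * g)‖ ≤ R ^ 2 * (J * M) := by
      intro x g hx0 hx hg0 hg
      rw [Real.norm_of_nonneg (mul_nonneg (by linarith) (mul_nonneg hJ.le hg0))]
      exact mul_le_mul (by linarith) (mul_le_mul_of_nonneg_left hg hJ.le)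
        (mul_nonneg hJ.le hg0) (sq_nonneg R)
    have hsq : ∀ ξ : E n, ‖ξ‖ < R → ‖ξ‖ ^ 2 ≤ R ^ 2 := fun ξ hξ =>
      pow_le_pow_left₀ (norm_nonneg ξ) hξ.le 2
    have i1 : IntegrableOn (fun ξ : E n => (R ^ 2 - ‖ξ‖ ^ 2) * (J * G (c • ξ)))
        {ξ : E n | c * ‖ξ‖ < R} := by
      have m1 : Measurable (fun ξ : E n => (R ^ 2 - ‖ξ‖ ^ 2) * (J * G (c • ξ))) := by fun_prop
      refine Measure.integrableOn_of_bounded (M := R ^ 2 * (J * M)) hSfin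
        m1.aestronglyMeasurable ?_
      rw [ae_restrict_iff' hSm]
      refine Eventually.of_forall fun ξ hξ => ?_
      exact hbd _ _ (sq_nonneg _) (hsq ξ (mem_ball_zero_iff.1 (hSb hξ))) (h0 _) (hM _)
    have i2 : IntegrableOn (fun ξ : E n => (R ^ 2 - ‖ξ‖ ^ 2) * (J * G ξ))
        {ξ : E n | c * ‖ξ‖ < R} := by
      have m1 : Measurable (fun ξ : E n => (R ^ 2 - ‖ξ‖ ^ 2) * (J * G ξ)) := by fun_prop
      refine Measure.integrableOn_of_bounded (M := R ^ 2 * (J * M)) hSfin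
        m1.aestronglyMeasurable ?_
      rw [ae_restrict_iff' hSm]
      refine Eventually.of_forall fun ξ hξ => ?_
      exact hbd _ _ (sq_nonneg _) (hsq ξ (mem_ball_zero_iff.1 (hSb hξ))) (h0 _) (hM _)
    have i3 : IntegrableOn (fun ξ : E n => (c ^ n)⁻¹ * ((R ^ 2 - ‖ξ‖ ^ 2 / c ^ 2) * (J * G ξ)))
        (ball (0 : E n) R) := by
      have m1 : Measurable (fun ξ : E n =>
          (c ^ n)⁻¹ * ((R ^ 2 - ‖ξ‖ ^ 2 / c ^ 2) * (J * G ξ))) := by fun_prop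
      refine Measure.integrableOn_of_bounded (M := 1 * (R ^ 2 * (J * M))) hbfin
        m1.aestronglyMeasurable ?_
      rw [ae_restrict_iff' measurableSet_ball]
      refine Eventually.of_forall fun ξ hξ => ?_
      have hx : ‖ξ‖ ^ 2 / c ^ 2 ≤ R ^ 2 :=
        (div_le_self (sq_nonneg _) (one_le_pow₀ hc1)).trans (hsq ξ (mem_ball_zero_iff.1 hξ))
      rw [norm_mul]
      refine mul_le_mul ?_ (hbd _ _ (by positivity) hx (h0 _) (hM _)) (norm_nonneg _) zero_le_one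
      rw [Real.norm_of_nonneg (by positivity)]
      exact inv_le_one_of_one_le₀ (one_le_pow₀ hc1)
    have e1 : (∫ ξ in {ξ : E n | c * ‖ξ‖ < R}, (R ^ 2 - ‖ξ‖ ^ 2) * (J * G (c • ξ))) =
        ∫ ξ in ball (0 : E n) R, (c ^ n)⁻¹ * ((R ^ 2 - ‖ξ‖ ^ 2 / c ^ 2) * (J * G ξ)) := by
      have h1 : ∀ ξ : E n, ({ξ : E n | c * ‖ξ‖ < R}).indicator
          (fun ξ : E n => (R ^ 2 - ‖ξ‖ ^ 2) * (J * G (c • ξ))) ξ =
          (ball (0 : E n) R).indicator (fun ξ : E n => (R ^ 2 - ‖ξ‖ ^ 2 / c ^ 2) * (J * G ξ))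
            (c • ξ) := by
        intro ξ
        have h2 : ‖c • ξ‖ = c * ‖ξ‖ := by rw [norm_smul, Real.norm_of_nonneg hc0.le]
        by_cases h3 : c * ‖ξ‖ < R
        · rw [indicator_of_mem (show ξ ∈ {ξ : E n | c * ‖ξ‖ < R} from h3),
            indicator_of_mem (by rw [mem_ball_zero_iff, h2]; exact h3), h2, mul_pow,
            mul_div_cancel_left₀ _ (by positivity)]
        · rw [indicator_of_notMem (show ξ ∉ {ξ : E n | c * ‖ξ‖ < R} from h3),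
            indicator_of_notMem (by rw [mem_ball_zero_iff, h2]; exact h3)]
      rw [← integral_indicator hSm, integral_congr_ae (Eventually.of_forall h1),
        Measure.integral_comp_smul volume _ c, integral_indicator measurableSet_ball,
        integral_const_mul, finrank_euclideanSpace_fin, abs_of_pos (by positivity), smul_eq_mul]
    have e2 : (∫ ξ in {ξ : E n | c * ‖ξ‖ < R}, (R ^ 2 - ‖ξ‖ ^ 2) * (J * G ξ)) =
        ∫ ξ in ball (0 : E n) R, ({ξ : E n | c * ‖ξ‖ < R}).indicator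
          (fun ξ : E n => (R ^ 2 - ‖ξ‖ ^ 2) * (J * G ξ)) ξ := by
      rw [setIntegral_indicator hSm, inter_eq_self_of_subset_right hSb]
    have e3 : (∫ ξ in {ξ : E n | c * ‖ξ‖ < R}, (R ^ 2 - ‖ξ‖ ^ 2) * (J * (G (c • ξ) - G ξ))) =
        (∫ ξ in {ξ : E n | c * ‖ξ‖ < R}, (R ^ 2 - ‖ξ‖ ^ 2) * (J * G (c • ξ))) -
        ∫ ξ in {ξ : E n | c * ‖ξ‖ < R}, (R ^ 2 - ‖ξ‖ ^ 2) * (J * G ξ) := by
      rw [← integral_sub i1 i2]
      refine integral_congr_ae (Eventually.of_forall fun ξ => ?_)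
      change (R ^ 2 - ‖ξ‖ ^ 2) * (J * (G (c • ξ) - G ξ)) =
        (R ^ 2 - ‖ξ‖ ^ 2) * (J * G (c • ξ)) - (R ^ 2 - ‖ξ‖ ^ 2) * (J * G ξ)
      ring
    have i4 : IntegrableOn (({ξ : E n | c * ‖ξ‖ < R}).indicator
          (fun ξ : E n => (R ^ 2 - ‖ξ‖ ^ 2) * (J * G ξ))) (ball (0 : E n) R) :=
      (i2.integrable_indicator hSm).integrableOn
    rw [e3, e1, e2, ← integral_sub i3 i4]
    refine integral_congr_ae (Eventually.of_forall fun ξ => ?_)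
    by_cases h3 : c * ‖ξ‖ < R
    · change _ - ({ξ : E n | c * ‖ξ‖ < R}).indicator _ ξ = _
      rw [indicator_of_mem (show ξ ∈ {ξ : E n | c * ‖ξ‖ < R} from h3)]
      simp only [if_pos h3]
      ring
    · change _ - ({ξ : E n | c * ‖ξ‖ < R}).indicator _ ξ = _
      rw [indicator_of_notMem (show ξ ∉ {ξ : E n | c * ‖ξ‖ < R} from h3)]
      simp only [if_neg h3]
      ring
  simp only [key]
  rw [← integral_neg]
  refine tendsto_integral_of_dominated_convergence (fun _ => (n + 4) * R ^ 2 * M) ?_ ?_ ?_ ?_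
  · intro j
    have hSm : MeasurableSet {ξ : E n | (1 + 1 / ((j : ℝ) + 1)) * ‖ξ‖ < R} :=
      (isOpen_lt (by fun_prop) continuous_const).measurableSet
    refine Measurable.aestronglyMeasurable ?_
    refine Measurable.mul (Measurable.sub ?_ (Measurable.ite hSm ?_ measurable_const)) hG
    · fun_prop
    · fun_prop
  · exact integrableOn_const measure_ball_lt_top.ne
  · intro j
    rw [ae_restrict_iff' measurableSet_ball]
    refine Eventually.of_forall fun ξ hξ => ?_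
    rw [mem_ball_zero_iff] at hξ
    have h1 := raylim_bound n hR (norm_nonneg ξ) hξ (t := 1 / ((j : ℝ) + 1)) (by positivity)
    simp only [one_div, inv_inv] at h1 ⊢
    rw [norm_mul, Real.norm_eq_abs, Real.norm_eq_abs, abs_of_nonneg (h0 ξ)]
    exact mul_le_mul h1 (hM ξ) (h0 ξ) (by positivity)
  · rw [ae_restrict_iff' measurableSet_ball]
    refine Eventually.of_forall fun ξ hξ => ?_
    rw [mem_ball_zero_iff] at hξ
    have h1 := (raylim_lim n hξ).mul_const (G ξ)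
    rw [← neg_mul]
    exact h1

end Pool.Agent.RU
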