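import Pool.Agent.H.MP_1b807b_an.U.AreaU
import Pool.Agent.H.MP_1b807b_an.U.DiffQ
import Pool.Agent.H.MP_1b807b_an.U.RayLim

/-! MP_1b807b_an, universal bound, module RayU: the inequality along rays -/

set_option autoImplicit false

namespace Pool.Agent.RU

open MeasureTheory Metric Set Filter Pool.Agent.RG
open scoped RealInnerProductSpace Topology NNReal ENNReal

variable {n : ℕ}

/-- PROOF: for `t = 1/(j+1)` put `k_j(x) = |det DT| (R² - ‖T x‖²) (j+1) (EE ((1+t) T x) - EE (T x))` if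
`(1+t) ‖T x‖ < R`, else `0` (on `good A T`; `≥ 0` by `EE_ray`). By `area_good` its integral is at most the
`j`-th term of `ray_lim` for `G = EE` (the integrand there is `≥ 0`). By `diff_q`
`liminf k_j ≥ |det| (R² - ‖T x‖²) 2 e^{2φ} QQ` for the `x` with `‖T x‖ < R` (for `‖T x‖ = R` the right side
is `0`). Fatou (`lintegral_liminf_le`). -/
theorem ray_ineq {R K L : ℝ} (hR : 0 < R) {f : E n → ℝ} {Ω A : Set (E n)} {T : E n → E n}
    {φ : E n → ℝ} (h : IsTD n R K L f Ω A T φ) (hΩ : Ω ⊆ closedBall 0 L) :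
    IntegrableOn (fun x => Real.exp (2 * φ x) * |(fderiv ℝ T x).det| *
      (2 * (R ^ 2 - ‖T x‖ ^ 2) * QQ T x)) (good A T) ∧
    ∫ x in good A T, Real.exp (2 * φ x) * |(fderiv ℝ T x).det| *
      (2 * (R ^ 2 - ‖T x‖ ^ 2) * QQ T x) ≤
      -∫ ξ in ball (0 : E n) R, (n * (R ^ 2 - ‖ξ‖ ^ 2) - 2 * ‖ξ‖ ^ 2) * EE L T φ ξ := by
  classical
  have hφ : Continuous φ := continuous_iff_continuousAt.2 fun x => (h.grad x).continuousAt
  have hTc : Continuous T := h.lip.continuous
  have hEm : Measurable (EE L T φ) := measurable_EE h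
  obtain ⟨M0, hM0⟩ := (isCompact_closedBall (0 : E n) L).exists_bound_of_continuousOn
    (f := fun x => Real.exp (2 * φ x)) (by fun_prop)
  obtain ⟨M, hMnn, hM⟩ : ∃ M : ℝ, 0 ≤ M ∧ ∀ ξ, EE L T φ ξ ≤ M := by
    refine ⟨max M0 0, le_max_right _ _, EE_le (le_max_right _ _) fun x hx => ?_⟩
    have h1 := hM0 x (by simpa using hx)
    rw [Real.norm_eq_abs, abs_of_pos (Real.exp_pos _)] at h1
    exact h1.trans (le_max_left _ _)
  have hlim := ray_lim hR hEm (EE_nonneg L T φ) hM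
  set Λ : ℝ := -∫ ξ in ball (0 : E n) R, (n * (R ^ 2 - ‖ξ‖ ^ 2) - 2 * ‖ξ‖ ^ 2) * EE L T φ ξ
    with hΛdef
  set hj : ℕ → E n → ℝ := fun j ξ => (R ^ 2 - ‖ξ‖ ^ 2) *
    (((j : ℝ) + 1) * (EE L T φ ((1 + 1 / ((j : ℝ) + 1)) • ξ) - EE L T φ ξ)) with hhj
  set B : ℕ → Set (E n) := fun j => {ξ : E n | (1 + 1 / ((j : ℝ) + 1)) * ‖ξ‖ < R} with hB
  have hBm : ∀ j, MeasurableSet (B j) := fun j =>
    measurableSet_lt (by fun_prop) measurable_const
  have ht : ∀ j : ℕ, 0 < 1 / ((j : ℝ) + 1) := fun j => by positivity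
  have hj1 : ∀ j : ℕ, 0 < (j : ℝ) + 1 := fun j => by positivity
  have hBR : ∀ j ξ, ξ ∈ B j → ‖ξ‖ < R := by
    intro j ξ hξ
    have h1 : (1 + 1 / ((j : ℝ) + 1)) * ‖ξ‖ < R := hξ
    nlinarith [norm_nonneg ξ, ht j, mul_nonneg (ht j).le (norm_nonneg ξ)]
  have hsq : ∀ ξ : E n, ‖ξ‖ ≤ R → 0 ≤ R ^ 2 - ‖ξ‖ ^ 2 := by
    intro ξ hξ
    nlinarith [norm_nonneg ξ]
  have hj0 : ∀ j ξ, ξ ∈ B j → 0 ≤ hj j ξ := by
    intro j ξ hξ
    refine mul_nonneg (hsq ξ (hBR j ξ hξ).le) (mul_nonneg (hj1 j).le (sub_nonneg.2 ?_))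
    refine EE_ray h (by linarith [ht j]) ?_
    rw [norm_smul, Real.norm_eq_abs, abs_of_pos (by linarith [ht j])]
    exact le_of_lt hξ
  have hjm : ∀ j, Measurable (hj j) := by
    intro j
    have h1 : Measurable fun ξ : E n => EE L T φ ((1 + 1 / ((j : ℝ) + 1)) • ξ) :=
      hEm.comp (measurable_const_smul _)
    have h2 : Measurable fun ξ : E n => R ^ 2 - ‖ξ‖ ^ 2 := by fun_prop
    exact h2.mul ((h1.sub hEm).const_mul _)
  have hjle : ∀ j ξ, ξ ∈ B j → ‖hj j ξ‖ ≤ R ^ 2 * (((j : ℝ) + 1) * M) := by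
    intro j ξ hξ
    rw [Real.norm_eq_abs, abs_of_nonneg (hj0 j ξ hξ)]
    have h1 : EE L T φ ((1 + 1 / ((j : ℝ) + 1)) • ξ) - EE L T φ ξ ≤ M := by
      linarith [hM ((1 + 1 / ((j : ℝ) + 1)) • ξ), EE_nonneg L T φ ξ]
    have h2 : 0 ≤ EE L T φ ((1 + 1 / ((j : ℝ) + 1)) • ξ) - EE L T φ ξ := by
      refine sub_nonneg.2 (EE_ray h (by linarith [ht j]) ?_)
      rw [norm_smul, Real.norm_eq_abs, abs_of_pos (by linarith [ht j])]
      exact le_of_lt hξ
    refine mul_le_mul ?_ (mul_le_mul_of_nonneg_left h1 (hj1 j).le)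
      (mul_nonneg (hj1 j).le h2) (sq_nonneg R)
    linarith [sq_nonneg ‖ξ‖]
  have hBfin : ∀ j, volume (B j) < ⊤ := by
    intro j
    refine lt_of_le_of_lt (measure_mono (t := ball (0 : E n) R) ?_) measure_ball_lt_top
    intro ξ hξ
    rw [mem_ball_zero_iff]
    exact hBR j ξ hξ
  have hjint : ∀ j, IntegrableOn (hj j) (B j) := by
    intro j
    exact Measure.integrableOn_of_bounded (hBfin j).ne (hjm j).aestronglyMeasurable
      ((ae_restrict_iff' (hBm j)).2 (ae_of_all _ (hjle j)))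
  set G : ℕ → E n → ℝ := fun j => (B j).indicator (hj j) with hGdef
  have hG0 : ∀ j ξ, 0 ≤ G j ξ := fun j ξ => indicator_nonneg (hj0 j) ξ
  have hGint : ∀ j, Integrable (G j) := fun j => (integrable_indicator_iff (hBm j)).2 (hjint j)
  have hGm : ∀ j, Measurable (G j) := fun j => (hjm j).indicator (hBm j)
  have hdetm : Measurable fun x : E n => (fderiv ℝ T x).det :=
    ContinuousLinearMap.continuous_det.measurable.comp (measurable_fderiv ℝ T)
  set k : ℕ → E n → ℝ := fun j x => |(fderiv ℝ T x).det| * G j (T x) with hk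
  have hkint : ∀ j, IntegrableOn (k j) (good A T) := fun j =>
    integrable_good h (hGint j).integrableOn
  have hkm : ∀ j, Measurable (k j) := fun j =>
    (hdetm.abs).mul ((hGm j).comp hTc.measurable)
  have hk0 : ∀ j x, 0 ≤ k j x := fun j x => mul_nonneg (abs_nonneg _) (hG0 j _)
  have hkle : ∀ j, ∫ x in good A T, k j x ≤ ∫ ξ in B j, hj j ξ := by
    intro j
    rw [hk]
    dsimp only
    rw [← area_good h (G j), ← integral_indicator (hBm j)]
    exact setIntegral_le_integral (hGint j) (ae_of_all _ (hG0 j))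
  have hgm := measurableSet_good h.meas T
  set F : E n → ℝ := fun x => Real.exp (2 * φ x) * |(fderiv ℝ T x).det| *
      (2 * (R ^ 2 - ‖T x‖ ^ 2) * QQ T x) with hF
  have hFm : Measurable F := by
    have h1 : Measurable fun x : E n => Real.exp (2 * φ x) :=
      (by fun_prop : Continuous fun x : E n => Real.exp (2 * φ x)).measurable
    have h2 : Measurable fun x : E n => 2 * (R ^ 2 - ‖T x‖ ^ 2) :=
      (by fun_prop : Continuous fun x : E n => 2 * (R ^ 2 - ‖T x‖ ^ 2)).measurable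
    exact (h1.mul hdetm.abs).mul (h2.mul (measurable_QQ T hTc))
  have hF0 : ∀ x ∈ good A T, 0 ≤ F x := by
    intro x hx
    refine mul_nonneg (mul_nonneg (Real.exp_pos _).le (abs_nonneg _))
      (mul_nonneg (mul_nonneg (by norm_num) (hsq _ (h.norm_le x))) (QQ_nonneg h hx))
  have hpt : ∀ x ∈ good A T, ENNReal.ofReal (F x) ≤
      liminf (fun j => ENNReal.ofReal (k j x)) atTop := by
    intro x hx
    have hxL : ‖x‖ ≤ L := by
      have h1 := hΩ (h.sub hx.1)
      rwa [mem_closedBall_zero_iff] at h1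
    rcases (h.norm_le x).lt_or_eq with hlt | heq
    · refine le_of_forall_lt_imp_le_of_dense fun c hc => ?_
      have hcne : c ≠ ⊤ := (hc.trans_le le_top).ne
      have hc1 : c.toReal < F x := by
        rw [← ENNReal.ofReal_toReal hcne] at hc
        exact (ENNReal.ofReal_lt_ofReal_iff_of_nonneg ENNReal.toReal_nonneg).1 hc
      set C : ℝ := |(fderiv ℝ T x).det| * (R ^ 2 - ‖T x‖ ^ 2) with hC
      have hC0 : 0 ≤ C := mul_nonneg (abs_nonneg _) (hsq _ hlt.le)
      obtain ⟨ε, hε, hε1⟩ : ∃ ε : ℝ, 0 < ε ∧ C * ε ≤ F x - c.toReal := by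
        refine ⟨(F x - c.toReal) / (C + 1), div_pos (by linarith) (by linarith), ?_⟩
        rw [← mul_div_assoc, div_le_iff₀ (by linarith)]
        nlinarith
      have h1 := diff_q h hx.2.1 hx.2.2 hxL hlt hε
      have htend : Tendsto (fun j : ℕ => 1 / ((j : ℝ) + 1)) atTop (𝓝[>] (0 : ℝ)) := by
        refine tendsto_nhdsWithin_iff.2 ⟨tendsto_one_div_add_atTop_nhds_zero_nat,
          Eventually.of_forall fun j => ht j⟩
      have h2 := htend.eventually h1
      have h3 : ∀ᶠ j : ℕ in atTop, (1 + 1 / ((j : ℝ) + 1)) * ‖T x‖ < R := by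
        have h4 : Tendsto (fun j : ℕ => (1 + 1 / ((j : ℝ) + 1)) * ‖T x‖) atTop
            (𝓝 ((1 + 0) * ‖T x‖)) :=
          (tendsto_const_nhds.add tendsto_one_div_add_atTop_nhds_zero_nat).mul_const _
        refine h4.eventually_lt_const ?_
        rw [add_zero, one_mul]
        exact hlt
      refine le_liminf_of_le (by isBoundedDefault) ?_
      filter_upwards [h2, h3] with j h5 h6
      have h7 : k j x = |(fderiv ℝ T x).det| * hj j (T x) := by
        rw [hk, hGdef]
        dsimp only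
        rw [indicator_of_mem (show T x ∈ B j from h6)]
      rw [← ENNReal.ofReal_toReal hcne]
      refine ENNReal.ofReal_le_ofReal ?_
      have h8 : 2 * Real.exp (2 * φ x) * QQ T x - ε ≤
          ((j : ℝ) + 1) * (EE L T φ ((1 + 1 / ((j : ℝ) + 1)) • T x) - EE L T φ (T x)) := by
        have h9 : 1 / ((j : ℝ) + 1) * (2 * Real.exp (2 * φ x) * QQ T x - ε) ≤
            EE L T φ ((1 + 1 / ((j : ℝ) + 1)) • T x) - EE L T φ (T x) := by linarith
        have h10 := mul_le_mul_of_nonneg_left h9 (hj1 j).le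
        have h11 : ((j : ℝ) + 1) * (1 / ((j : ℝ) + 1) * (2 * Real.exp (2 * φ x) * QQ T x - ε)) =
            2 * Real.exp (2 * φ x) * QQ T x - ε := by
          field_simp
        rwa [h11] at h10
      have h12 := mul_le_mul_of_nonneg_left h8 hC0
      have h13 : k j x = C * (((j : ℝ) + 1) *
          (EE L T φ ((1 + 1 / ((j : ℝ) + 1)) • T x) - EE L T φ (T x))) := by
        rw [h7, hhj, hC]
        ring
      have h14 : C * (2 * Real.exp (2 * φ x) * QQ T x) = F x := by
        rw [hC, hF]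
        ring
      rw [h13]
      linarith
    · have h1 : F x = 0 := by
        rw [hF]
        dsimp only
        rw [heq, sub_self, mul_zero, zero_mul, mul_zero]
      rw [h1, ENNReal.ofReal_zero]
      exact bot_le
  have key : ∫⁻ x in good A T, ENNReal.ofReal (F x) ≤ ENNReal.ofReal Λ := by
    calc ∫⁻ x in good A T, ENNReal.ofReal (F x)
        ≤ ∫⁻ x in good A T, liminf (fun j => ENNReal.ofReal (k j x)) atTop :=
          setLIntegral_mono' hgm hpt
      _ ≤ liminf (fun j => ∫⁻ x in good A T, ENNReal.ofReal (k j x)) atTop :=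
          lintegral_liminf_le fun j => (hkm j).ennreal_ofReal
      _ ≤ liminf (fun j => ENNReal.ofReal (∫ ξ in B j, hj j ξ)) atTop := by
          refine liminf_le_liminf (Eventually.of_forall fun j => ?_)
          rw [← ofReal_integral_eq_lintegral_ofReal (hkint j) (ae_of_all _ (hk0 j))]
          exact ENNReal.ofReal_le_ofReal (hkle j)
      _ = ENNReal.ofReal Λ := ((ENNReal.continuous_ofReal.tendsto _).comp hlim).liminf_eq
  have hΛ0 : 0 ≤ Λ := by
    refine ge_of_tendsto' hlim fun j => ?_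
    exact setIntegral_nonneg (hBm j) (hj0 j)
  have hFae : 0 ≤ᵐ[volume.restrict (good A T)] F :=
    (ae_restrict_iff' hgm).2 (ae_of_all _ hF0)
  refine ⟨⟨hFm.aestronglyMeasurable, ?_⟩, ?_⟩
  · rw [hasFiniteIntegral_iff_ofReal hFae]
    exact lt_of_le_of_lt key ENNReal.ofReal_lt_top
  · rw [integral_eq_lintegral_of_nonneg_ae hFae hFm.aestronglyMeasurable]
    exact ENNReal.toReal_le_of_le_ofReal hΛ0 key

end Pool.Agent.RU
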